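import Pool.Agent.Helper555.Tau.Base

set_option autoImplicit false

open Set Filter

namespace Tau555

theorem Agr.refl (x : ℕ) (D : Pt) : Agr x D D := fun _ _ => rfl

theorem Agr.symm {x : ℕ} {D D' : Pt} (h : Agr x D D') : Agr x D' D := fun m hm => (h m hm).symm

theorem Agr.trans {x : ℕ} {D D' D'' : Pt} (h : Agr x D D') (h' : Agr x D' D'') : Agr x D D'' :=
  fun m hm => (h m hm).trans (h' m hm)

theorem Agr.mono {x y : ℕ} {D D' : Pt} (h : Agr y D D') (hxy : x ≤ y) : Agr x D D' :=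
  fun m hm => h m (hm.trans_le hxy)

theorem agr_trunc (x : ℕ) (D : Pt) : Agr x D (trunc x D) := fun m hm => by simp [trunc, hm]

theorem trunc_eq {x : ℕ} {D D' : Pt} (h : Agr x D D') : trunc x D = trunc x D' := by
  funext m
  by_cases hm : m < x
  · simp [trunc, hm, h m hm]
  · simp [trunc, hm]

/-- There are only finitely many nodes at the position `x`. -/
theorem finite_trunc (x : ℕ) : (Set.range (trunc x)).Finite := by
  have : Set.range (trunc x) ⊆ Set.range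
      (fun (s : Fin x → Fin 3) (m : ℕ) => if h : m < x then s ⟨m, h⟩ else 0) := by
    rintro _ ⟨D, rfl⟩
    refine ⟨fun i => D i, ?_⟩
    funext m
    by_cases hm : m < x <;> simp [trunc, hm]
  exact (Set.finite_range _).subset this

theorem lett_ne (b : Bool) : lett b ≠ 2 := by cases b <;> decide

theorem lett_inj {b b' : Bool} (h : lett b = lett b') : b = b' := by
  revert h; cases b <;> cases b' <;> decide

theorem ne_two {l : Fin 3} (h : l ≠ 2) : ∃ b, l = lett b := by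
  fin_cases l
  · exact ⟨false, rfl⟩
  · exact ⟨true, rfl⟩
  · exact absurd rfl h

theorem exists_next (p : Cond) (x : ℕ) : ∃ y ∈ p.B, x < y := by
  obtain ⟨y, hy, hxy⟩ := p.inf.exists_gt x
  exact ⟨y, hy, hxy⟩

theorem exists_blk (p : Cond) {b : ℕ} (hb : b ∈ p.B) : ∃ b', Blk p.B b b' := by
  classical
  have h : ∃ y, y ∈ p.B ∧ b < y := exists_next p b
  refine ⟨Nat.find h, hb, (Nat.find_spec h).1, (Nat.find_spec h).2, ?_⟩
  intro x hx hx' hxB
  exact Nat.find_min h hx' ⟨hxB, hx⟩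

/-- Every position `m ≥ b` (`b` a boundary) lies in a block starting at or after `b`. -/
theorem find_blk (p : Cond) {b m : ℕ} (hb : b ∈ p.B) (hm : b ≤ m) :
    ∃ b1 b2, Blk p.B b1 b2 ∧ b ≤ b1 ∧ b1 ≤ m ∧ m < b2 := by
  classical
  obtain ⟨y, hy, hmy⟩ := exists_next p m
  have h : ∃ y, y ∈ p.B ∧ m < y := ⟨y, hy, hmy⟩
  set b2 := Nat.find h
  have h2 : b2 ∈ p.B ∧ m < b2 := Nat.find_spec h
  set P : ℕ → Prop := fun z => z ∈ p.B
  have hle : b ≤ Nat.findGreatest P m := Nat.le_findGreatest hm hb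
  have hB : P (Nat.findGreatest P m) := Nat.findGreatest_spec (P := P) hm hb
  have hm' : Nat.findGreatest P m ≤ m := Nat.findGreatest_le m
  refine ⟨Nat.findGreatest P m, b2, ⟨hB, h2.1, hm'.trans_lt h2.2, ?_⟩, hle, hm', h2.2⟩
  intro x hx hx' hxB
  by_cases hxm : x ≤ m
  · exact absurd (Nat.le_findGreatest (P := P) hxm hxB) (not_le.2 hx)
  · exact Nat.find_min h hx' ⟨hxB, not_le.1 hxm⟩

theorem Blk.le_of_mem {B : Set ℕ} {b b' y : ℕ} (h : Blk B b b') (hy : y ∈ B) (hby : b < y) :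
    b' ≤ y := by
  by_contra hlt
  exact h.2.2.2 y hby (not_le.1 hlt) hy

theorem Blk.ge_of_mem {B : Set ℕ} {b b' y : ℕ} (h : Blk B b b') (hy : y ∈ B) (hby : y < b') :
    y ≤ b := by
  by_contra hlt
  exact h.2.2.2 y (not_le.1 hlt) hby hy

theorem conf_congr {p : Cond} {b b' : ℕ} (hb : Blk p.B b b') {D D' : Pt} (h : Agr b' D D')
    (hc : conf p b b' D) : conf p b b' D' := by
  rcases hc with ⟨ε, hε⟩ | hc
  · exact Or.inl ⟨ε, fun m h1 h2 => (h m h2) ▸ hε m h1 h2⟩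
  · refine Or.inr fun m h1 h2 => ?_
    rw [← h m h2, hc m h1 h2]
    exact p.loc b b' hb D D' (h.mono hb.2.2.1.le) m h1 h2

theorem Conf.congr {p : Cond} {x y : ℕ} {D D' : Pt} (hc : Conf p x y D) (h : Agr y D D') :
    Conf p x y D' :=
  fun b b' hb h1 h2 => conf_congr hb (h.mono h2) (hc b b' hb h1 h2)

theorem Conf.mono {p : Cond} {x y x' y' : ℕ} {D : Pt} (hc : Conf p x y D) (hx : x ≤ x')
    (hy : y' ≤ y) : Conf p x' y' D :=
  fun b b' hb h1 h2 => hc b b' hb (hx.trans h1) (h2.trans hy)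

theorem Conf.trans {p : Cond} {x y z : ℕ} {D : Pt} (hy : y ∈ p.B) (h1 : Conf p x y D)
    (h2 : Conf p y z D) : Conf p x z D := by
  intro b b' hb hx hz
  by_cases hby : y ≤ b
  · exact h2 b b' hb hby hz
  · exact h1 b b' hb hx (hb.le_of_mem hy (not_le.1 hby))

theorem Conf.self (p : Cond) (x : ℕ) (D : Pt) : Conf p x x D := by
  intro b b' hb h1 h2
  have := hb.2.2.1
  omega

theorem ConfI.conf {p : Cond} {x y z : ℕ} {D : Pt} (h : ConfI p x D) (hxy : x ≤ y) :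
    Conf p y z D := fun b b' hb h1 _ => h b b' hb (hxy.trans h1)

theorem ConfI.mono {p : Cond} {x y : ℕ} {D : Pt} (h : ConfI p x D) (hxy : x ≤ y) :
    ConfI p y D := fun b b' hb h1 => h b b' hb (hxy.trans h1)

theorem Conf.confI {p : Cond} {x y : ℕ} {D : Pt} (hy : y ∈ p.B) (h1 : Conf p x y D)
    (h2 : ConfI p y D) : ConfI p x D := by
  intro b b' hb hx
  by_cases hby : y ≤ b
  · exact h2 b b' hb hby
  · exact h1 b b' hb hx (hb.le_of_mem hy (not_le.1 hby))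

theorem Ref.mem {x : ℕ} {q p : Cond} (h : Ref x q p) : x ∈ q.B := h.1

theorem Ref.mem' {x : ℕ} {q p : Cond} (h : Ref x q p) : x ∈ p.B := h.2.1 x h.1 le_rfl

theorem Ref.sub {x y : ℕ} {q p : Cond} (h : Ref x q p) (hy : y ∈ q.B) (hxy : x ≤ y) : y ∈ p.B :=
  h.2.1 y hy hxy

theorem Ref.refl {x : ℕ} {p : Cond} (hx : x ∈ p.B) : Ref x p p := by
  refine ⟨hx, fun b hb _ => hb, ?_⟩
  intro b b' hb _ D hD c c' hc h1 h2
  have h3 : c ≤ b := by
    apply hb.ge_of_mem hc.1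
    have := hc.2.2.1
    omega
  have h4 : c = b := le_antisymm h3 h1
  subst h4
  have h5 : b' ≤ c' := hb.le_of_mem hc.2.1 hc.2.2.1
  have h6 : c' = b' := le_antisymm h2 h5
  subst h6
  exact hD

theorem Ref.conf {x y z : ℕ} {q p : Cond} (h : Ref x q p) (hy : y ∈ q.B) (hz : z ∈ q.B)
    (hxy : x ≤ y) {D : Pt} (hD : Conf q y z D) : Conf p y z D := by
  intro b b' hb h1 h2
  obtain ⟨c, c', hc, h3, h4, h5⟩ := find_blk q hy h1
  have h6 : c' ≤ z := hc.le_of_mem hz (h4.trans_lt (hb.2.2.1.trans_le h2))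
  have h7 : b' ≤ c' := hb.le_of_mem (h.sub hc.2.1 (by omega)) h5
  exact h.2.2 c c' hc (hxy.trans h3) D (hD c c' hc h3 h6) b b' hb h4 h7

theorem Ref.confI {x y : ℕ} {q p : Cond} (h : Ref x q p) (hy : y ∈ q.B)
    (hxy : x ≤ y) {D : Pt} (hD : ConfI q y D) : ConfI p y D := by
  intro b b' hb h1
  obtain ⟨z, hz, hbz⟩ := exists_next q b'
  exact h.conf hy hz hxy (hD.conf le_rfl) b b' hb h1 hbz.le

theorem Ref.mono {x y : ℕ} {q p : Cond} (h : Ref x q p) (hy : y ∈ q.B) (hxy : x ≤ y) :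
    Ref y q p :=
  ⟨hy, fun b hb h1 => h.2.1 b hb (hxy.trans h1),
    fun b b' hb h1 D hD => h.2.2 b b' hb (hxy.trans h1) D hD⟩

theorem Ref.trans {x : ℕ} {r q p : Cond} (h : Ref x r q) (h' : Ref x q p) : Ref x r p := by
  refine ⟨h.1, fun b hb h1 => h'.2.1 b (h.2.1 b hb h1) h1, ?_⟩
  intro b b' hb h1 D hD
  exact h'.conf (h.sub hb.1 h1) (h.sub hb.2.1 (h1.trans hb.2.2.1.le)) h1
    (h.2.2 b b' hb h1 D hD)

theorem Ref.trans' {x y : ℕ} {r q p : Cond} (h : Ref y r q) (h' : Ref x q p) (hxy : x ≤ y) :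
    Ref y r p := h.trans (h'.mono h.mem' hxy)

theorem LEs.refl (p : Cond) : LEs p p := by
  obtain ⟨y, hy, _⟩ := exists_next p 0
  exact ⟨y, Ref.refl hy⟩

theorem LEs.trans {r q p : Cond} (h : LEs r q) (h' : LEs q p) : LEs r p := by
  obtain ⟨x, hx⟩ := h
  obtain ⟨y, hy⟩ := h'
  obtain ⟨z, hz, hxyz⟩ := exists_next r (max x y)
  have h1 : x < z := lt_of_le_of_lt (le_max_left _ _) hxyz
  have h2 : y < z := lt_of_le_of_lt (le_max_right _ _) hxyz
  have h3 : Ref z r q := hx.mono hz h1.le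
  exact ⟨z, h3.trans (hy.mono h3.mem' h2.le)⟩

theorem Ref.lEs {x : ℕ} {q p : Cond} (h : Ref x q p) : LEs q p := ⟨x, h⟩

theorem EC.mono {q p : Cond} (h : LEs q p) {D : Pt} (hD : EC q D) : EC p D := by
  obtain ⟨x, hx⟩ := h
  obtain ⟨b, hb, hbD⟩ := hD
  obtain ⟨z, hz, hxyz⟩ := exists_next q (max x b)
  have h1 : x < z := lt_of_le_of_lt (le_max_left _ _) hxyz
  have h2 : b < z := lt_of_le_of_lt (le_max_right _ _) hxyz
  have h3 : Ref z q p := hx.mono hz h1.le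
  exact ⟨z, h3.mem', h3.confI hz le_rfl (hbD.mono h2.le)⟩

theorem Tail.ec {p : Cond} {D : Pt} (h : D ∈ Tail p) : EC p D := by
  obtain ⟨b, hb, hD⟩ := h
  exact ⟨b, hb, fun b1 b2 _ h1 => Or.inr fun m hm _ => hD m (h1.trans hm)⟩

theorem Tail.mem_Y {p : Cond} {D : Pt} (h : D ∈ Tail p) : D ∈ Y := by
  obtain ⟨b, hb, hD⟩ := h
  refine Set.infinite_of_forall_exists_gt fun n => ?_
  obtain ⟨y, hy, hny⟩ := exists_next p (max b n)
  obtain ⟨y', hy'⟩ := exists_blk p hy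
  obtain ⟨m, h1, h2, h3⟩ := p.ex y y' hy' D
  have h4 : b < y := lt_of_le_of_lt (le_max_left _ _) hny
  have h5 : n < y := lt_of_le_of_lt (le_max_right _ _) hny
  exact ⟨m, by change D m = 2; rw [hD m (h4.le.trans h1), h3], h5.trans_le h1⟩

theorem HW.self (p : Cond) (x y : ℕ) : HW p x y p.h :=
  fun _ _ _ _ _ => ⟨false, fun m _ _ => by simp⟩

/-- The words `w` and its complement are hidden-conforming. -/
theorem HW.conf {p : Cond} {x y : ℕ} {w : ℕ → Bool} (h : HW p x y w) {D : Pt} {ε : Bool}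
    (hD : ∀ m, x ≤ m → m < y → D m = lett (xor (w m) ε)) : Conf p x y D := by
  intro b b' hb h1 h2
  obtain ⟨δ, hδ⟩ := h b b' hb h1 h2
  refine Or.inl ⟨xor δ ε, fun m h3 h4 => ?_⟩
  rw [hD m (h1.trans h3) (h4.trans_le h2), hδ m h3 h4, Bool.xor_assoc]

theorem noA_of_lett {x y : ℕ} {w : ℕ → Bool} {D : Pt} {ε : Bool}
    (hD : ∀ m, x ≤ m → m < y → D m = lett (xor (w m) ε)) : NoA x y D :=
  fun m h1 h2 => by rw [hD m h1 h2]; exact lett_ne _

/-- A conforming block without the letter `2` is hidden. -/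
theorem hidden_of_noA {p : Cond} {b b' : ℕ} (hb : Blk p.B b b') {D : Pt} (h : conf p b b' D)
    (hn : NoA b b' D) : ∃ ε : Bool, ∀ m, b ≤ m → m < b' → D m = lett (xor (p.h m) ε) := by
  rcases h with h | h
  · exact h
  · obtain ⟨m, h1, h2, h3⟩ := p.ex b b' hb D
    exact absurd (by rw [h m h1 h2, h3]) (hn m h1 h2)

/-- A conforming word without the letter `2` is a hidden word. -/
theorem HW.of_conf {p : Cond} {x y : ℕ} {w : ℕ → Bool} {D : Pt} (h : Conf p x y D)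
    (hD : ∀ m, x ≤ m → m < y → D m = lett (w m)) : HW p x y w := by
  intro b b' hb h1 h2
  obtain ⟨ε, hε⟩ := hidden_of_noA hb (h b b' hb h1 h2) (fun m h3 h4 => by
    rw [hD m (h1.trans h3) (h4.trans_le h2)]; exact lett_ne _)
  refine ⟨ε, fun m h3 h4 => lett_inj ?_⟩
  rw [← hD m (h1.trans h3) (h4.trans_le h2), hε m h3 h4]

theorem HW.ref {p q : Cond} {x y z : ℕ} {w : ℕ → Bool} (hr : Ref x q p) (hy : y ∈ q.B)
    (hz : z ∈ q.B) (hxy : x ≤ y) (h : HW q y z w) : HW p y z w := by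
  have h1 : Conf q y z (fun m => lett (w m)) :=
    h.conf (ε := false) (fun m _ _ => by simp)
  exact HW.of_conf (hr.conf hy hz hxy h1) (fun m _ _ => rfl)

theorem HW.trans {p : Cond} {x y z : ℕ} {w : ℕ → Bool} (hy : y ∈ p.B) (h1 : HW p x y w)
    (h2 : HW p y z w) : HW p x z w := by
  intro b b' hb hx hz
  by_cases hby : y ≤ b
  · exact h2 b b' hb hby hz
  · exact h1 b b' hb hx (hb.le_of_mem hy (not_le.1 hby))

theorem HW.congr {p : Cond} {x y : ℕ} {w w' : ℕ → Bool} (h : HW p x y w)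
    (hw : ∀ m, x ≤ m → m < y → w m = w' m) : HW p x y w' := by
  intro b b' hb h1 h2
  obtain ⟨δ, hδ⟩ := h b b' hb h1 h2
  exact ⟨δ, fun m h3 h4 => by rw [← hw m (h1.trans h3) (h4.trans_le h2)]; exact hδ m h3 h4⟩

/-- On a conforming block the letter `2` occurs either nowhere or exactly where `p.c` says. -/
theorem a_iff {p : Cond} {b b' : ℕ} (hb : Blk p.B b b') {D : Pt} (h : conf p b b' D) :
    (∀ m, b ≤ m → m < b' → D m ≠ 2) ∨
      (∀ D₀ m, b ≤ m → m < b' → (D m = 2 ↔ p.c D₀ m = 2)) := by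
  rcases h with ⟨ε, h⟩ | h
  · exact Or.inl fun m h1 h2 => by rw [h m h1 h2]; exact lett_ne _
  · exact Or.inr fun D₀ m h1 h2 => by rw [h m h1 h2]; exact p.aa D D₀ m

theorem Good.congr {p : Cond} {y : ℕ} {D D' : Pt} {U : Set Pt} (h : Agr y D D')
    (hg : Good p y D U) : Good p y D' U := by
  obtain ⟨q, hq, h2⟩ := hg
  exact ⟨q, hq, fun D'' h3 => h2 D'' (h.trans h3)⟩

theorem Good.ref {p q : Cond} {x y : ℕ} (hr : Ref x q p) (hxy : x ≤ y) {D : Pt} {U : Set Pt}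
    (hg : Good q y D U) : Good p y D U := by
  obtain ⟨r, hr', h2⟩ := hg
  exact ⟨r, hr'.trans' hr hxy, h2⟩

theorem Win.congr {p : Cond} {F : Set (Set Pt)} {x : ℕ} {D D' : Pt} (h : Agr x D D')
    (hw : Win p F x D) : Win p F x D' := by
  obtain ⟨y, hy, hxy, D'', h1, h2⟩ := hw
  exact ⟨y, hy, hxy, D'', h.symm.trans h1, h2⟩

theorem Win.ref {p q : Cond} {F : Set (Set Pt)} {x : ℕ} {D : Pt} (hr : Ref x q p)
    (hw : Win q F x D) : Win p F x D := by
  obtain ⟨y, hy, hxy, D'', h1, h2, h3, U, hU, h4⟩ := hw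
  exact ⟨y, hr.sub hy hxy, hxy, D'', h1, hr.conf hr.mem hy le_rfl h2, h3, U, hU,
    h4.ref hr hxy⟩

theorem Win.fam {p : Cond} {F F' : Set (Set Pt)} (hF : F ⊆ F') {x : ℕ} {D : Pt}
    (hw : Win p F x D) : Win p F' x D := by
  obtain ⟨y, hy, hxy, D'', h1, h2, h3, U, hU, h4⟩ := hw
  exact ⟨y, hy, hxy, D'', h1, h2, h3, U, hF hU, h4⟩

/-- If a hidden extension of a node is winning then so is the node. -/
theorem Win.hidden {p : Cond} {F : Set (Set Pt)} {x y : ℕ} {D D' : Pt} (hxy : x ≤ y)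
    (hy : y ∈ p.B) (h : Agr x D D') (hc : Conf p x y D') (hn : NoA x y D')
    (hw : Win p F y D') : Win p F x D := by
  obtain ⟨z, hz, hyz, D'', h1, h2, h3, U, hU, h4⟩ := hw
  refine ⟨z, hz, hxy.trans hyz, D'', h.trans (h1.mono hxy), (hc.congr h1).trans hy h2, ?_, U,
    hU, h4⟩
  intro m h5 h6
  by_cases h7 : m < y
  · rw [← h1 m h7]; exact hn m h5 h7
  · exact h3 m (not_lt.1 h7) h6

theorem Fam.anti (O : ℕ → ℕ → Set Pt) {k k' : ℕ} (h : k ≤ k') : Fam O k' ⊆ Fam O k := by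
  rintro _ ⟨I, hI, g, rfl⟩
  exact ⟨I, fun n hn => h.trans (hI n hn), g, rfl⟩

theorem Fam.union {O : ℕ → ℕ → Set Pt} (hO : ∀ n, Monotone (O n)) {k : ℕ} {U V : Set Pt}
    (hU : U ∈ Fam O k) (hV : V ∈ Fam O k) : ∃ W ∈ Fam O k, U ∪ V ⊆ W := by
  classical
  obtain ⟨I, hI, g, rfl⟩ := hU
  obtain ⟨J, hJ, f, rfl⟩ := hV
  refine ⟨_, ⟨I ∪ J, ?_, fun n => max (g n) (f n), rfl⟩, ?_⟩
  · intro n hn
    rcases Finset.mem_union.1 hn with h | h
    · exact hI n h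
    · exact hJ n h
  · rintro D (hD | hD)
    · obtain ⟨n, hn, h⟩ := Set.mem_iUnion₂.1 hD
      exact Set.mem_iUnion₂.2 ⟨n, Finset.mem_union_left _ hn, hO n (le_max_left _ _) h⟩
    · obtain ⟨n, hn, h⟩ := Set.mem_iUnion₂.1 hD
      exact Set.mem_iUnion₂.2 ⟨n, Finset.mem_union_right _ hn, hO n (le_max_right _ _) h⟩

theorem NN.congr {O : ℕ → ℕ → Set Pt} {p : Cond} {y : ℕ} {D D' : Pt} (h : Agr y D D')
    (hn : NN O p y D) : NN O p y D' := by
  obtain ⟨k, hk⟩ := hn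
  exact ⟨k, fun hw => hk (hw.congr h.symm)⟩

/-- Hidden extensions of nodes in `NN` are in `NN`. -/
theorem NN.hidden {O : ℕ → ℕ → Set Pt} {p : Cond} {x y : ℕ} {D D' : Pt} (hxy : x ≤ y)
    (hy : y ∈ p.B) (h : Agr x D D') (hc : Conf p x y D') (hn : NoA x y D')
    (hx : NN O p x D) : NN O p y D' := by
  obtain ⟨k, hk⟩ := hx
  exact ⟨k, fun hw => hk (hw.hidden hxy hy h hc hn)⟩

theorem Dd.congr {O : ℕ → ℕ → Set Pt} {p1 q : Cond} {y : ℕ} {D D' : Pt} (h : Agr y D D')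
    (hd : Dd O p1 q y D) : Dd O p1 q y D' :=
  fun z hz hyz τ hτ => hd z hz hyz τ (h.trans hτ)

theorem Dd.ref {O : ℕ → ℕ → Set Pt} {p1 q q' : Cond} {y : ℕ} {D : Pt} (hr : Ref y q' q)
    (hd : Dd O p1 q y D) : Dd O p1 q' y D :=
  fun z hz hyz τ hτ hc => hd z (hr.sub hz hyz) hyz τ hτ (hr.conf hr.mem hz le_rfl hc)

/-- Conforming extensions of dead nodes are dead. -/
theorem Dd.ext {O : ℕ → ℕ → Set Pt} {p1 q : Cond} {x y : ℕ} {D D' : Pt} (hxy : x ≤ y)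
    (hy : y ∈ q.B) (h : Agr x D D') (hc : Conf q x y D') (hd : Dd O p1 q x D) :
    Dd O p1 q y D' :=
  fun z hz hyz τ hτ hcτ => hd z hz (hxy.trans hyz) τ (h.trans (hτ.mono hxy))
    ((hc.congr hτ).trans hy hcτ)

theorem Dd.not_NN {O : ℕ → ℕ → Set Pt} {p1 q : Cond} {y : ℕ} {D : Pt} (hy : y ∈ q.B)
    (hd : Dd O p1 q y D) : ¬ NN O p1 y D :=
  hd y hy le_rfl D (Agr.refl _ _) (Conf.self _ _ _)

end Tau555
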