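import Pool.Agent.Helper555.Tau.Covers

set_option autoImplicit false

open Set Filter

namespace Tau555

/-- Points: infinite words over the alphabet `{0, 1, 2}`; the letter `2` plays the role of `a`. -/
abbrev Pt := ℕ → Fin 3

/-- The letter `0` or `1` coding a bit. -/
def lett (b : Bool) : Fin 3 := if b then 1 else 0

/-- The words with infinitely many letters `2`. -/
def Y : Set Pt := {D | {m | D m = 2}.Infinite}

/-- `D` and `D'` agree below `x`. -/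
def Agr (x : ℕ) (D D' : Pt) : Prop := ∀ m, m < x → D m = D' m

/-- no letter `2` in `[x, y)`. -/
def NoA (x y : ℕ) (D : Pt) : Prop := ∀ m, x ≤ m → m < y → D m ≠ 2

/-- `[b, b')` is a block of the set of boundaries `B`. -/
def Blk (B : Set ℕ) (b b' : ℕ) : Prop :=
  b ∈ B ∧ b' ∈ B ∧ b < b' ∧ ∀ x, b < x → x < b' → x ∉ B

/-- Conditions: boundaries `B`, hidden word `h`, active continuation `c`. -/
structure Cond where
  B : Set ℕ
  h : ℕ → Bool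
  c : Pt → Pt
  inf : B.Infinite
  loc : ∀ b b', Blk B b b' → ∀ D D', Agr b D D' → ∀ m, b ≤ m → m < b' → c D m = c D' m
  aa : ∀ D D' m, c D m = 2 ↔ c D' m = 2
  ex : ∀ b b', Blk B b b' → ∀ D, ∃ m, b ≤ m ∧ m < b' ∧ c D m = 2

/-- `D` is conforming on the block `[b, b')`: hidden (the word `h` or its complement) or
active. -/
def conf (p : Cond) (b b' : ℕ) (D : Pt) : Prop :=
  (∃ ε : Bool, ∀ m, b ≤ m → m < b' → D m = lett (xor (p.h m) ε)) ∨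
    ∀ m, b ≤ m → m < b' → D m = p.c D m

/-- `D` is conforming on all blocks inside `[x, y)`. -/
def Conf (p : Cond) (x y : ℕ) (D : Pt) : Prop :=
  ∀ b b', Blk p.B b b' → x ≤ b → b' ≤ y → conf p b b' D

/-- `D` is conforming on all blocks from `x` on. -/
def ConfI (p : Cond) (x : ℕ) (D : Pt) : Prop :=
  ∀ b b', Blk p.B b b' → x ≤ b → conf p b b' D

/-- `q` refines `p` from `x` on. -/
def Ref (x : ℕ) (q p : Cond) : Prop :=
  x ∈ q.B ∧ (∀ b ∈ q.B, x ≤ b → b ∈ p.B) ∧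
    ∀ b b', Blk q.B b b' → x ≤ b → ∀ D, conf q b b' D → Conf p b b' D

/-- `w` is a hidden word for `p` on `[x, y)`. -/
def HW (p : Cond) (x y : ℕ) (w : ℕ → Bool) : Prop :=
  ∀ b b', Blk p.B b b' → x ≤ b → b' ≤ y → ∃ δ : Bool, ∀ m, b ≤ m → m < b' → w m = xor (p.h m) δ

/-- Eventual refinement. -/
def LEs (q p : Cond) : Prop := ∃ x, Ref x q p

/-- `D` is eventually conforming. -/
def EC (p : Cond) (D : Pt) : Prop := ∃ b ∈ p.B, ConfI p b D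

/-- The words that are active from some boundary on. -/
def Tail (p : Cond) : Set Pt := {D | ∃ b ∈ p.B, ∀ m, b ≤ m → D m = p.c D m}

/-- The truncation of `D` to its letters below `x`. -/
def trunc (x : ℕ) (D : Pt) : Pt := fun m => if m < x then D m else 0

/-- One step of a fusion: the new block is `[b, b')`, with hidden word `w` and active
continuation `r`; from `b'` on we continue with `p'`. -/
structure StepOK (p : Cond) (b b' : ℕ) (w : ℕ → Bool) (r : Pt → Pt) (p' : Cond) : Prop where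
  hb : b ∈ p.B
  hb' : b' ∈ p.B
  lt : b < b'
  hw : HW p b b' w
  agr : ∀ D, Agr b D (r D)
  cf : ∀ D, Conf p b b' (r D)
  loc : ∀ D D', Agr b D D' → Agr b' (r D) (r D')
  aa : ∀ D D' m, b ≤ m → m < b' → (r D m = 2 ↔ r D' m = 2)
  ex : ∀ D, ∃ m, b ≤ m ∧ m < b' ∧ r D m = 2
  ref : Ref b' p' p

/-- Some refinement forces all conforming extensions of the node `(y, D)` into `U`. -/
def Good (p : Cond) (y : ℕ) (D : Pt) (U : Set Pt) : Prop :=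
  ∃ q, Ref y q p ∧ ∀ D', Agr y D D' → D' ∈ Y → ConfI q y D' → D' ∈ U

/-- Some hidden extension of the node `(x, D)` is good for some member of `F`. -/
def Win (p : Cond) (F : Set (Set Pt)) (x : ℕ) (D : Pt) : Prop :=
  ∃ y ∈ p.B, x ≤ y ∧ ∃ D', Agr x D D' ∧ Conf p x y D' ∧ NoA x y D' ∧ ∃ U ∈ F, Good p y D' U

/-- Finite unions of members of the array `O` with first index `≥ k`. -/
def Fam (O : ℕ → ℕ → Set Pt) (k : ℕ) : Set (Set Pt) :=
  {U | ∃ I : Finset ℕ, (∀ n ∈ I, k ≤ n) ∧ ∃ g : ℕ → ℕ, U = ⋃ n ∈ I, O n (g n)}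

/-- The nodes which are not winning for some `k`. -/
def NN (O : ℕ → ℕ → Set Pt) (p1 : Cond) (y : ℕ) (D : Pt) : Prop :=
  ∃ k, ¬ Win p1 (Fam O k) y D

/-- The dead nodes: no conforming extension is in `NN`. -/
def Dd (O : ℕ → ℕ → Set Pt) (p1 q : Cond) (y : ℕ) (D : Pt) : Prop :=
  ∀ z ∈ q.B, y ≤ z → ∀ τ, Agr y D τ → Conf q y z τ → ¬ NN O p1 z τ

/-- The standing assumptions of the main construction. -/
structure Ctx (O : ℕ → ℕ → Set Pt) (x : ℕ) (p1 p2 : Cond) : Prop where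
  ref : Ref x p2 p1
  op : ∀ n m, IsOpen (O n m)
  mono : ∀ n, Monotone (O n)
  cov : ∀ q, LEs q p2 → ∀ D ∈ Tail q, ∀ n, ∃ m, D ∈ O n m
  dec1 : ∀ y ∈ p1.B, x ≤ y → ∀ D, NN O p1 y D ∨ ∀ q', Ref y q' p1 → ∀ k, Win q' (Fam O k) y D
  dec2 : ∀ y ∈ p2.B, x ≤ y → ∀ D, Dd O p1 p2 y D ∨ ∀ q', Ref y q' p2 → ¬ Dd O p1 q' y D

/-- The condition `q` solves the array `O` for the early points `E`. -/
def Solved (q : Cond) (O : ℕ → ℕ → Set Pt) (E : Set Pt) : Prop :=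
  ∃ (b k : ℕ → ℕ) (I : ℕ → Finset ℕ) (g : ℕ → ℕ), StrictMono b ∧ StrictMono k ∧
    (∀ i, ∀ n ∈ I i, k i ≤ n ∧ n < k (i + 1)) ∧
    (∀ D ∈ E, ∀ᶠ i in atTop, D ∈ ⋃ n ∈ I i, O n (g n)) ∧
    ∀ D ∈ Y, EC q D → (∀ᶠ i in atTop, D ∈ ⋃ n ∈ I i, O n (g n)) ∨
      ∀ᶠ i in atTop, (D ∈ ⋃ n ∈ I i, O n (g n) ↔ ∃ m, b i ≤ m ∧ m < b (i + 1) ∧ D m = 2)

/-- The array for which the set we construct fails the Hurewicz-type property. -/
def OO (n m : ℕ) : Set Pt := {D | D n ≠ 1} ∪ {D | ∃ j, n < j ∧ j ≤ m ∧ D j = 2}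

/-- The weakest condition. -/
def p0 : Cond where
  B := univ
  h := fun _ => false
  c := fun _ _ => 2
  inf := infinite_univ
  loc := fun _ _ _ _ _ _ _ _ _ => rfl
  aa := fun _ _ _ => Iff.rfl
  ex := fun b _ h _ => ⟨b, le_rfl, h.2.2.1, rfl⟩


/-- What the transfinite recursion gives. -/
structure XOK (X : Set Pt) : Prop where
  tail : Tail p0 ⊆ X
  sub : X ⊆ Y
  cmp : ∀ D ∈ X, ∀ D' ∈ X, (∃ M, ∀ m ≥ M, D m = 2 → D' m = 2) ∨
    (∃ M, ∀ m ≥ M, D' m = 2 → D m = 2)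
  pair : ∀ N : Set ℕ, N.Infinite → ∀ g : ℕ → ℕ, ∃ D0 ∈ X, ∃ D1 ∈ X,
    {n | n ∈ N ∧ D0 ∈ OO n (g n) ∧ D1 ∉ OO n (g n)}.Infinite ∧
    {n | n ∈ N ∧ D1 ∈ OO n (g n) ∧ D0 ∉ OO n (g n)}.Infinite
  solve : ∀ O : ℕ → ℕ → Set Pt, (∀ n m, IsOpen (O n m)) → (∀ n, Monotone (O n)) →
    (∀ D ∈ X, ∀ n, ∃ m, D ∈ O n m) →
    ∃ (b k : ℕ → ℕ) (I : ℕ → Finset ℕ) (g : ℕ → ℕ), StrictMono b ∧ StrictMono k ∧
      (∀ i, ∀ n ∈ I i, k i ≤ n ∧ n < k (i + 1)) ∧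
      ∀ D ∈ X, (∀ᶠ i in atTop, D ∈ ⋃ n ∈ I i, O n (g n)) ∨
        ∀ᶠ i in atTop, (D ∈ ⋃ n ∈ I i, O n (g n) ↔ ∃ m, b i ≤ m ∧ m < b (i + 1) ∧ D m = 2)

end Tau555
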