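import Mathlib

/-!
# Covers and selection properties

The definitions of the problem, for an arbitrary topological space `α` (in the results `α` is a
set of reals with the subspace topology). The definitions and the equivalence proved in
`Pool/Agent/Helper555/Tau/Merged.lean` are taken from the hand-in `MergedTau` of this problem.
-/

set_option autoImplicit false

open Set Filter

namespace Tau555

/-- Open covers of the space `α`; the whole space is not a member. -/
def IsOpenCover {α : Type*} [TopologicalSpace α] (U : Set (Set α)) : Prop :=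
  (∀ u ∈ U, IsOpen u) ∧ ⋃₀ U = univ ∧ univ ∉ U

/-- Open `ω`-covers. -/
def IsOmegaCover {α : Type*} [TopologicalSpace α] (U : Set (Set α)) : Prop :=
  IsOpenCover U ∧ ∀ A : Finset α, ∃ u ∈ U, (↑A : Set α) ⊆ u

/-- Indexed open `τ`-covers. -/
def IsTauCover {α : Type*} [TopologicalSpace α] (V : ℕ → Set α) : Prop :=
  (∀ n, IsOpen (V n)) ∧ (∀ n, V n ≠ univ) ∧ (∀ x, {n | x ∈ V n}.Infinite) ∧
    ∀ x y, {n | x ∈ V n ∧ y ∉ V n}.Finite ∨ {n | y ∈ V n ∧ x ∉ V n}.Finite

/-- `τ`-groupable (countable) families: there is a partition into nonempty finite sets `P n`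
such that either every `P n` covers the space (multifinite), or the unions of the `P n` form an
indexed `τ`-cover. -/
def TauGroupable {α : Type*} [TopologicalSpace α] (U : Set (Set α)) : Prop :=
  ∃ P : ℕ → Finset (Set α), (∀ n, (P n).Nonempty) ∧ (∀ m n, m ≠ n → Disjoint (P m) (P n)) ∧
    (⋃ n, (↑(P n) : Set (Set α))) = U ∧
    ((∀ n, ⋃₀ (↑(P n) : Set (Set α)) = univ) ∨
      IsTauCover (fun n => ⋃₀ (↑(P n) : Set (Set α))))

/-- `S_fin(Ω, O^{τ-gp})`. -/
def SfinTauGp (α : Type*) [TopologicalSpace α] : Prop :=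
  ∀ U : ℕ → Set (Set α), (∀ n, IsOmegaCover (U n)) →
    ∃ F : ℕ → Finset (Set α), (∀ n, (↑(F n) : Set (Set α)) ⊆ U n) ∧
      IsOpenCover (⋃ n, (↑(F n) : Set (Set α))) ∧ TauGroupable (⋃ n, (↑(F n) : Set (Set α)))

/-- `U_fin(O, T)`. -/
def UfinTau (α : Type*) [TopologicalSpace α] : Prop :=
  ∀ U : ℕ → Set (Set α), (∀ n, IsOpenCover (U n)) →
    (∀ n, ∀ F : Finset (Set α), (↑F : Set (Set α)) ⊆ U n → ⋃₀ (↑F : Set (Set α)) ≠ univ) →
    ∃ F : ℕ → Finset (Set α), (∀ n, (↑(F n) : Set (Set α)) ⊆ U n) ∧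
      IsTauCover (fun n => ⋃₀ (↑(F n) : Set (Set α)))

/-- The merged form of `U_fin(O, T)`: the indices are partitioned into consecutive finite
intervals `[a l, a (l+1))`, the selected sets with index in one interval are united, and the
resulting sequence is a `τ`-cover (or constantly the whole space). -/
def MergedUfinTau (α : Type*) [TopologicalSpace α] : Prop :=
  ∀ U : ℕ → Set (Set α), (∀ n, IsOpenCover (U n)) →
    (∀ n, ∀ F : Finset (Set α), (↑F : Set (Set α)) ⊆ U n → ⋃₀ (↑F : Set (Set α)) ≠ univ) →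
    ∃ F : ℕ → Finset (Set α), (∀ n, (↑(F n) : Set (Set α)) ⊆ U n) ∧
      ∃ a : ℕ → ℕ, StrictMono a ∧ a 0 = 0 ∧
        ((∀ l, (⋃ n ∈ Set.Ico (a l) (a (l + 1)), ⋃₀ (↑(F n) : Set (Set α))) = univ) ∨
          IsTauCover (fun l => ⋃ n ∈ Set.Ico (a l) (a (l + 1)), ⋃₀ (↑(F n) : Set (Set α))))

end Tau555
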