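import Pool.Agent.Helper555.Tau.Covers

/-!
# The merged form of `U_fin(O, T)` implies `S_fin(Ω, O^{τ-gp})`

Taken from the hand-in `MergedTau` of this problem.
-/

set_option autoImplicit false

open Set Filter

namespace Tau555

/-! ### Combinatorics -/

lemma blocks (lo hi : ℕ → ℕ) (hlo : Tendsto lo atTop atTop) (good : ℕ → Prop)
    (hgood : ∀ m, ∃ l ≥ m, good l) :
    ∃ c e : ℕ → ℕ, c 0 = 0 ∧ e 0 = 0 ∧ StrictMono c ∧ StrictMono e ∧
      (∀ i l, e i ≤ l → l < e (i + 1) → c i ≤ lo l ∧ hi l < c (i + 2)) ∧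
      (∀ i, ∃ l, e i ≤ l ∧ l < e (i + 1) ∧ good l) := by
  classical
  have hlo' : ∀ b, ∃ N, ∀ l ≥ N, b ≤ lo l := fun b => by
    have := (tendsto_atTop.1 hlo b)
    exact eventually_atTop.1 this
  choose N hN using hlo'
  choose g hg1 hg2 using hgood
  let step : ℕ × ℕ → ℕ × ℕ := fun p =>
    (1 + max p.1 ((Finset.range p.2).sup hi),
      1 + max (max p.2 (g p.2)) (N (1 + max p.1 ((Finset.range p.2).sup hi))))
  let s : ℕ → ℕ × ℕ := fun n => step^[n] (0, 0)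
  have hs : ∀ n, s (n + 1) = step (s n) := fun n => Function.iterate_succ_apply' step n (0, 0)
  refine ⟨fun n => (s n).1, fun n => (s n).2, rfl, rfl, ?_, ?_, ?_, ?_⟩
  · refine strictMono_nat_of_lt_succ fun n => ?_
    rw [hs]
    have := le_max_left (s n).1 ((Finset.range (s n).2).sup hi)
    simp only [step]; omega
  · refine strictMono_nat_of_lt_succ fun n => ?_
    rw [hs]
    have h1 := le_max_left (s n).2 (g (s n).2)
    have h2 := le_max_left (max (s n).2 (g (s n).2))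
      (N (1 + max (s n).1 ((Finset.range (s n).2).sup hi)))
    simp only [step]; omega
  · intro i l h1 h2
    constructor
    · rcases i with _ | i
      · exact Nat.zero_le _
      · change (s (i + 1)).1 ≤ lo l
        have h3 : (s (i + 1)).1 = 1 + max (s i).1 ((Finset.range (s i).2).sup hi) := by
          rw [hs]
        rw [h3]
        apply hN
        have h4 : (s (i + 1)).2 = 1 + max (max (s i).2 (g (s i).2))
            (N (1 + max (s i).1 ((Finset.range (s i).2).sup hi))) := by rw [hs]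
        change (s (i + 1)).2 ≤ l at h1
        have := le_max_right (max (s i).2 (g (s i).2))
          (N (1 + max (s i).1 ((Finset.range (s i).2).sup hi)))
        omega
    · change hi l < (s (i + 1 + 1)).1
      rw [hs]
      change l < (s (i + 1)).2 at h2
      have h3 : hi l ≤ (Finset.range (s (i + 1)).2).sup hi :=
        Finset.le_sup (Finset.mem_range.2 h2)
      have := le_max_right (s (i + 1)).1 ((Finset.range (s (i + 1)).2).sup hi)
      simp only [step]; omega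
  · intro i
    refine ⟨g (s i).2, hg1 _, ?_, hg2 _⟩
    change g (s i).2 < (s (i + 1)).2
    rw [hs]
    have h1 := le_max_right (s i).2 (g (s i).2)
    have h2 := le_max_left (max (s i).2 (g (s i).2))
      (N (1 + max (s i).1 ((Finset.range (s i).2).sup hi)))
    simp only [step]; omega

lemma parity {ι : Type*} (A : ι → Set ℕ) (hinf : ∀ x, (A x).Infinite)
    (hcmp : ∀ x y, (A x \ A y).Finite ∨ (A y \ A x).Finite) (S : Set ℕ) :
    (∀ x, (A x ∩ S).Infinite) ∨ (∀ x, (A x \ S).Infinite) := by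
  by_contra hcon
  push Not at hcon
  obtain ⟨⟨x, hx⟩, ⟨y, hy⟩⟩ := hcon
  have hx' : (A x ∩ S).Finite := hx
  have hy' : (A y \ S).Finite := hy
  have hxi : (A x \ S).Infinite := by
    intro h
    exact hinf x ((hx'.union h).subset (fun n hn => by
      by_cases hS : n ∈ S
      · exact Or.inl ⟨hn, hS⟩
      · exact Or.inr ⟨hn, hS⟩))
  have hyi : (A y ∩ S).Infinite := by
    intro h
    exact hinf y ((hy'.union h).subset (fun n hn => by
      by_cases hS : n ∈ S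
      · exact Or.inr ⟨hn, hS⟩
      · exact Or.inl ⟨hn, hS⟩))
  rcases hcmp x y with h | h
  · apply hxi
    refine (h.union hy').subset ?_
    rintro n ⟨h1, h2⟩
    by_cases h3 : n ∈ A y
    · exact Or.inr ⟨h3, h2⟩
    · exact Or.inl ⟨h1, h3⟩
  · apply hyi
    refine (h.union hx').subset ?_
    rintro n ⟨h1, h2⟩
    by_cases h3 : n ∈ A x
    · exact Or.inr ⟨h3, h2⟩
    · exact Or.inl ⟨h1, h3⟩

/-- Half of the blocks suffice. -/
lemma half_blocks {ι : Type*} (A : ι → Set ℕ) (hinf : ∀ x, (A x).Infinite)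
    (hcmp : ∀ x y, (A x \ A y).Finite ∨ (A y \ A x).Finite) (e : ℕ → ℕ) (he0 : e 0 = 0)
    (he : StrictMono e) :
    ∃ ε : ℕ, (∀ x, {j | ∃ l ∈ A x, e (2 * j + ε) ≤ l ∧ l < e (2 * j + ε + 1)}.Infinite) ∧
      ∀ x y, {j | (∃ l ∈ A x, e (2 * j + ε) ≤ l ∧ l < e (2 * j + ε + 1)) ∧
          ¬ (∃ l ∈ A y, e (2 * j + ε) ≤ l ∧ l < e (2 * j + ε + 1))}.Finite ∨
        {j | (∃ l ∈ A y, e (2 * j + ε) ≤ l ∧ l < e (2 * j + ε + 1)) ∧
          ¬ (∃ l ∈ A x, e (2 * j + ε) ≤ l ∧ l < e (2 * j + ε + 1))}.Finite := by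
  classical
  have hblock : ∀ l, ∃ i, e i ≤ l ∧ l < e (i + 1) := by
    intro l
    have hex : ∃ i, l < e i := ⟨l + 1, lt_of_lt_of_le (Nat.lt_succ_self l) he.le_apply⟩
    have hpos : Nat.find hex ≠ 0 := by
      intro h0
      have := Nat.find_spec hex
      rw [h0, he0] at this
      exact absurd this (Nat.not_lt_zero _)
    obtain ⟨i, hi⟩ := Nat.exists_eq_succ_of_ne_zero hpos
    refine ⟨i, ?_, ?_⟩
    · have := Nat.find_min hex (m := i) (by omega)
      exact not_lt.1 this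
    · have := Nat.find_spec hex
      rwa [hi] at this
  have huniq : ∀ l i i', e i ≤ l → l < e (i + 1) → e i' ≤ l → l < e (i' + 1) → i = i' := by
    intro l i i' h1 h2 h3 h4
    by_contra hne
    rcases lt_or_gt_of_ne hne with h | h
    · have := he.monotone (show i + 1 ≤ i' from h)
      omega
    · have := he.monotone (show i' + 1 ≤ i from h)
      omega
  have hfin : ∀ ε : ℕ, ∀ x y, (A x \ A y).Finite →
      {j | (∃ l ∈ A x, e (2 * j + ε) ≤ l ∧ l < e (2 * j + ε + 1)) ∧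
          ¬ (∃ l ∈ A y, e (2 * j + ε) ≤ l ∧ l < e (2 * j + ε + 1))}.Finite := by
    intro ε x y h
    by_contra hinf'
    have hch : ∀ j, j ∈ {j | (∃ l ∈ A x, e (2 * j + ε) ≤ l ∧ l < e (2 * j + ε + 1)) ∧
          ¬ (∃ l ∈ A y, e (2 * j + ε) ≤ l ∧ l < e (2 * j + ε + 1))} →
        ∃ l, l ∈ A x \ A y ∧ e (2 * j + ε) ≤ l ∧ l < e (2 * j + ε + 1) := by
      rintro j ⟨⟨l, hl, h1, h2⟩, h3⟩
      exact ⟨l, ⟨hl, fun hly => h3 ⟨l, hly, h1, h2⟩⟩, h1, h2⟩
    choose! f hf using hch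
    have := Set.infinite_of_injOn_mapsTo (f := f) (t := A x \ A y) ?_
      (fun j hj => (hf j hj).1) hinf'
    · exact this h
    · intro j hj j' hj' hjj
      have h1 := (hf j hj).2
      have h2 := (hf j' hj').2
      rw [← hjj] at h2
      have := huniq _ _ _ h1.1 h1.2 h2.1 h2.2
      omega
  have hinfty : ∀ ε : ℕ, ∀ x (S : Set ℕ), S.Infinite → S ⊆ A x →
      (∀ l ∈ S, ∃ j, e (2 * j + ε) ≤ l ∧ l < e (2 * j + ε + 1)) →
      {j | ∃ l ∈ A x, e (2 * j + ε) ≤ l ∧ l < e (2 * j + ε + 1)}.Infinite := by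
    intro ε x S hS hSA hSj hfin'
    apply hS
    refine (hfin'.biUnion (t := fun j => Set.Iio (e (2 * j + ε + 1)))
      (fun j _ => Set.finite_Iio _)).subset ?_
    intro l hl
    obtain ⟨j, h1, h2⟩ := hSj l hl
    exact Set.mem_biUnion (show j ∈ {j | ∃ l ∈ A x, e (2 * j + ε) ≤ l ∧ l < e (2 * j + ε + 1)}
      from ⟨l, hSA hl, h1, h2⟩) h2
  rcases parity A hinf hcmp {l | ∃ j, e (2 * j + 0) ≤ l ∧ l < e (2 * j + 0 + 1)} with h | h
  · refine ⟨0, fun x => ?_, fun x y => ?_⟩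
    · exact hinfty 0 x _ (h x) Set.inter_subset_left (fun l hl => hl.2)
    · exact (hcmp x y).imp (hfin 0 x y) (hfin 0 y x)
  · refine ⟨1, fun x => ?_, fun x y => ?_⟩
    · refine hinfty 1 x _ (h x) Set.sdiff_subset (fun l hl => ?_)
      obtain ⟨i, h1, h2⟩ := hblock l
      rcases Nat.even_or_odd' i with ⟨j, rfl | rfl⟩
      · exact absurd ⟨j, by simpa using h1, by simpa using h2⟩ hl.2
      · exact ⟨j, h1, h2⟩
    · exact (hcmp x y).imp (hfin 1 x y) (hfin 1 y x)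

/-! ### From the merged property to `S_fin(Ω, O^{τ-gp})` -/

section

variable {α : Type*} [TopologicalSpace α]

lemma UfinTau.merged (h : UfinTau α) : MergedUfinTau α := by
  intro U hU hfin
  obtain ⟨F, hF, hτ⟩ := h U hU hfin
  refine ⟨F, hF, id, strictMono_id, rfl, Or.inr ?_⟩
  have : (fun l => ⋃ n ∈ Set.Ico (id l) (id (l + 1)), ⋃₀ (↑(F n) : Set (Set α))) =
      fun l => ⋃₀ (↑(F l) : Set (Set α)) := by
    funext l
    have h1 : Set.Ico (id l) (id (l + 1)) = {l} := by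
      ext n; simp only [id, Set.mem_Ico, Set.mem_singleton_iff]; omega
    rw [h1]; simp
  rw [this]
  exact hτ

lemma merged_menger (h : MergedUfinTau α) (U : ℕ → Set (Set α)) (hU : ∀ n, IsOpenCover (U n)) :
    ∃ F : ℕ → Finset (Set α), (∀ n, (↑(F n) : Set (Set α)) ⊆ U n) ∧
      ∀ x : α, ∃ n, x ∈ ⋃₀ (↑(F n) : Set (Set α)) := by
  classical
  by_cases hfin : ∀ n, ∀ F : Finset (Set α), (↑F : Set (Set α)) ⊆ U n →
      ⋃₀ (↑F : Set (Set α)) ≠ univ
  · obtain ⟨F, hF, a, ha, ha0, hor⟩ := h U hU hfin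
    refine ⟨F, hF, fun x => ?_⟩
    rcases hor with h1 | h1
    · have hx : x ∈ (⋃ n ∈ Set.Ico (a 0) (a (0 + 1)), ⋃₀ (↑(F n) : Set (Set α))) := by
        rw [h1 0]; exact mem_univ x
      obtain ⟨n, _, hn⟩ := Set.mem_iUnion₂.1 hx
      exact ⟨n, hn⟩
    · obtain ⟨l, hl⟩ := (h1.2.2.1 x).nonempty
      obtain ⟨n, _, hn⟩ := Set.mem_iUnion₂.1 hl
      exact ⟨n, hn⟩
  · push Not at hfin
    obtain ⟨n, F, hF, hFu⟩ := hfin
    refine ⟨fun m => if m = n then F else ∅, ?_, fun x => ⟨n, ?_⟩⟩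
    · intro m
      by_cases hm : m = n
      · subst hm; simpa using hF
      · simp [hm]
    · simp [hFu]

lemma omega_large {U : Set (Set α)} (hU : IsOmegaCover U) (x : α) :
    {u | u ∈ U ∧ x ∈ u}.Infinite := by
  classical
  intro hfin
  have : Nonempty α := ⟨x⟩
  have hne : ∀ u ∈ U, ∃ y, y ∉ u := by
    intro u hu
    by_contra hcon
    push Not at hcon
    exact hU.1.2.2 ((Set.eq_univ_of_forall hcon) ▸ hu)
  choose! y hy using hne
  obtain ⟨u, hu, hA⟩ := hU.2 (insert x (hfin.toFinset.image y))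
  have hxu : x ∈ u := hA (by simp)
  have : y u ∈ u := hA (by
    simp only [Finset.coe_insert, Finset.coe_image]
    exact Or.inr ⟨u, by simpa using ⟨hu, hxu⟩, rfl⟩)
  exact hy u hu this

/-- From `ω`-covers one can select finite subfamilies whose union is a large cover. -/
lemma large_selection (h : MergedUfinTau α) (U : ℕ → Set (Set α))
    (hU : ∀ n, IsOmegaCover (U n)) :
    ∃ F : ℕ → Finset (Set α), (∀ n, (↑(F n) : Set (Set α)) ⊆ U n) ∧
      ∀ x : α, {u | u ∈ (⋃ n, (↑(F n) : Set (Set α))) ∧ x ∈ u}.Infinite := by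
  classical
  let 𝒜 : ℕ → Set (Set α) := fun n =>
    {a | ∃ s : Finset (Set α), (↑s : Set (Set α)) ⊆ U n ∧ s.card = n + 1 ∧
      a = ⋂₀ (↑s : Set (Set α))}
  have h𝒜 : ∀ n, IsOpenCover (𝒜 n) := by
    intro n
    refine ⟨?_, ?_, ?_⟩
    · rintro a ⟨s, hs, _, rfl⟩
      exact s.finite_toSet.isOpen_sInter (fun u hu => (hU n).1.1 u (hs hu))
    · refine Set.eq_univ_of_forall fun x => ?_
      obtain ⟨s, hs, hcard⟩ := (omega_large (hU n) x).exists_subset_card_eq (n + 1)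
      exact ⟨⋂₀ (↑s : Set (Set α)), ⟨s, fun u hu => (hs hu).1, hcard, rfl⟩,
        Set.mem_sInter.2 fun u hu => (hs hu).2⟩
    · rintro ⟨s, hs, hcard, heq⟩
      obtain ⟨u, hu⟩ : s.Nonempty := Finset.card_pos.1 (by omega)
      have : u = univ := Set.eq_univ_of_univ_subset (heq ▸ Set.sInter_subset_of_mem hu)
      exact (hU n).1.2.2 (this ▸ hs hu)
  have hsel : ∀ i : ℕ, ∃ G : ℕ → Finset (Set α),
      (∀ r, (↑(G r) : Set (Set α)) ⊆ 𝒜 (Nat.pair i r)) ∧
      ∀ x : α, ∃ r, x ∈ ⋃₀ (↑(G r) : Set (Set α)) := fun i =>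
    merged_menger h (fun r => 𝒜 (Nat.pair i r)) (fun r => h𝒜 _)
  choose G hG1 hG2 using hsel
  have hs : ∀ n, ∀ a ∈ 𝒜 n, ∃ s : Finset (Set α), (↑s : Set (Set α)) ⊆ U n ∧ s.card = n + 1 ∧
      a = ⋂₀ (↑s : Set (Set α)) := fun n a ha => ha
  choose! s hs1 hs2 hs3 using hs
  refine ⟨fun n => (G (Nat.unpair n).1 (Nat.unpair n).2).biUnion (s n), ?_, ?_⟩
  · intro n u hu
    simp only [Finset.coe_biUnion, Set.mem_iUnion, Finset.mem_coe] at hu
    obtain ⟨a, ha, hua⟩ := hu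
    have ha' : a ∈ 𝒜 n := by
      have := hG1 (Nat.unpair n).1 (Nat.unpair n).2 ha
      rwa [Nat.pair_unpair] at this
    exact hs1 n a ha' hua
  · intro x hfin
    obtain ⟨N, hN⟩ : ∃ N, hfin.toFinset.card = N := ⟨_, rfl⟩
    obtain ⟨r, a, ha, hxa⟩ := hG2 N x
    have ha' : a ∈ 𝒜 (Nat.pair N r) := hG1 _ _ ha
    have hsub : s (Nat.pair N r) a ⊆ hfin.toFinset := by
      intro u hu
      rw [Set.Finite.mem_toFinset]
      constructor
      · refine Set.mem_iUnion.2 ⟨Nat.pair N r, ?_⟩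
        simp only [Nat.unpair_pair, Finset.coe_biUnion, Set.mem_iUnion, Finset.mem_coe]
        exact ⟨a, Finset.mem_coe.1 ha, hu⟩
      · rw [hs3 _ a ha'] at hxa
        exact Set.mem_sInter.1 hxa u hu
    have hcard := Finset.card_le_card hsub
    rw [hs2 _ a ha', hN] at hcard
    have := Nat.left_le_pair N r
    omega

/-- A sequence of finite unions of tails of a countable family, forming a `τ`-cover, can be
thinned to disjoint finite pieces. -/
lemma thin [Nonempty α] (W : ℕ → Set α) (hWopen : ∀ k, IsOpen (W k)) (m₀ : ℕ)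
    (hno : ∀ Q : Finset ℕ, (∀ k ∈ Q, m₀ ≤ k) → (⋃ k ∈ Q, W k) ≠ univ)
    (Q : ℕ → Finset ℕ) (hQ : ∀ l, ∀ k ∈ Q l, m₀ ≤ k ∧ l ≤ k)
    (hτ : IsTauCover (fun l => ⋃ k ∈ Q l, W k)) :
    ∃ P : ℕ → Finset ℕ, (∀ j, (P j).Nonempty) ∧ (∀ i j, i ≠ j → Disjoint (P i) (P j)) ∧
      IsTauCover (fun j => ⋃ k ∈ P j, W k) := by
  classical
  obtain ⟨-, -, hinf, hcmp⟩ := hτ
  obtain ⟨x₀⟩ := ‹Nonempty α›
  let A : α → Set ℕ := fun x => {l | x ∈ ⋃ k ∈ Q l, W k}
  have hgood : ∀ m, ∃ l ≥ m, (Q l).Nonempty := by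
    intro m
    obtain ⟨l, hl, hlm⟩ := (hinf x₀).exists_gt m
    refine ⟨l, hlm.le, ?_⟩
    obtain ⟨k, hk, _⟩ := Set.mem_iUnion₂.1 hl
    exact ⟨k, hk⟩
  obtain ⟨c, e, hc0, he0, hc, he, hce, hgd⟩ := blocks id (fun l => (Q l).sup id)
    tendsto_id (fun l => (Q l).Nonempty) hgood
  obtain ⟨ε, hε1, hε2⟩ := half_blocks A hinf (fun x y => by
    refine (hcmp x y).imp (fun h => h.subset ?_) (fun h => h.subset ?_)
    · rintro l ⟨h1, h2⟩; exact ⟨h1, h2⟩
    · rintro l ⟨h1, h2⟩; exact ⟨h1, h2⟩) e he0 he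
  let P : ℕ → Finset ℕ := fun j =>
    (Finset.Ico (e (2 * j + ε)) (e (2 * j + ε + 1))).biUnion Q
  have hPmem : ∀ j k, k ∈ P j ↔ ∃ l, (e (2 * j + ε) ≤ l ∧ l < e (2 * j + ε + 1)) ∧ k ∈ Q l := by
    intro j k
    simp only [P, Finset.mem_biUnion, Finset.mem_Ico]
  have hPrange : ∀ j k, k ∈ P j → c (2 * j + ε) ≤ k ∧ k < c (2 * j + ε + 2) := by
    intro j k hk
    obtain ⟨l, ⟨h1, h2⟩, hkl⟩ := (hPmem j k).1 hk
    obtain ⟨h3, h4⟩ := hce _ l h1 h2
    have h5 := (hQ l k hkl).2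
    have h6 : k ≤ (Q l).sup id := Finset.le_sup (f := id) hkl
    simp only [id] at h3
    omega
  have hAP : ∀ x j, x ∈ (⋃ k ∈ P j, W k) ↔
      ∃ l ∈ A x, e (2 * j + ε) ≤ l ∧ l < e (2 * j + ε + 1) := by
    intro x j
    constructor
    · intro hx
      obtain ⟨k, hk, hxk⟩ := Set.mem_iUnion₂.1 hx
      obtain ⟨l, hl, hkl⟩ := (hPmem j k).1 hk
      exact ⟨l, Set.mem_iUnion₂.2 ⟨k, hkl, hxk⟩, hl⟩
    · rintro ⟨l, hl, hl'⟩
      obtain ⟨k, hkl, hxk⟩ := Set.mem_iUnion₂.1 hl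
      exact Set.mem_iUnion₂.2 ⟨k, (hPmem j k).2 ⟨l, hl', hkl⟩, hxk⟩
  refine ⟨P, ?_, ?_, ?_, ?_, ?_, ?_⟩
  · intro j
    obtain ⟨l, h1, h2, k, hk⟩ := hgd (2 * j + ε)
    exact ⟨k, (hPmem j k).2 ⟨l, ⟨h1, h2⟩, hk⟩⟩
  · intro i j hij
    rw [Finset.disjoint_left]
    intro k hki hkj
    have h1 := hPrange i k hki
    have h2 := hPrange j k hkj
    rcases lt_or_gt_of_ne hij with h | h
    · have := hc.monotone (show 2 * i + ε + 2 ≤ 2 * j + ε by omega)
      omega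
    · have := hc.monotone (show 2 * j + ε + 2 ≤ 2 * i + ε by omega)
      omega
  · intro j
    exact isOpen_biUnion fun k _ => hWopen k
  · intro j
    apply hno
    intro k hk
    obtain ⟨l, _, hkl⟩ := (hPmem j k).1 hk
    exact (hQ l k hkl).1
  · intro x
    simp only [hAP]
    exact hε1 x
  · intro x y
    simp only [hAP]
    exact hε2 x y

lemma SfinTauGp_of_merged (h : MergedUfinTau α) : SfinTauGp α := by
  classical
  intro U hU
  rcases isEmpty_or_nonempty α with hα | hα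
  · obtain ⟨u, hu, _⟩ := (hU 0).2 ∅
    exact absurd ((Set.eq_univ_of_forall (fun x => (hα.false x).elim) : u = univ) ▸ hu)
      (hU 0).1.2.2
  obtain ⟨x₀⟩ := hα
  have hα : Nonempty α := ⟨x₀⟩
  obtain ⟨F, hF, hlarge⟩ := large_selection h U hU
  set 𝒰 : Set (Set α) := ⋃ n, (↑(F n) : Set (Set α)) with h𝒰
  have h𝒰c : 𝒰.Countable := Set.countable_iUnion fun n => (F n).countable_toSet
  have h𝒰i : 𝒰.Infinite := (hlarge x₀).mono (fun u hu => hu.1)
  have h𝒰U : ∀ u ∈ 𝒰, IsOpen u ∧ u ≠ univ := by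
    intro u hu
    obtain ⟨n, hn⟩ := Set.mem_iUnion.1 hu
    exact ⟨(hU n).1.1 u (hF n hn), fun heq => (hU n).1.2.2 (heq ▸ hF n hn)⟩
  -- an injective enumeration of the selected sets
  obtain ⟨W, hWinj, hWran⟩ : ∃ W : ℕ → Set α, Function.Injective W ∧ Set.range W = 𝒰 := by
    have : Countable 𝒰 := h𝒰c.to_subtype
    have : Infinite 𝒰 := h𝒰i.to_subtype
    obtain ⟨eq⟩ : Nonempty (ℕ ≃ 𝒰) := nonempty_equiv_of_countable
    refine ⟨fun n => (eq n : Set α), Subtype.val_injective.comp eq.injective, ?_⟩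
    ext u
    constructor
    · rintro ⟨n, rfl⟩; exact (eq n).2
    · intro hu; exact ⟨eq.symm ⟨u, hu⟩, by simp⟩
  have hW𝒰 : ∀ k, W k ∈ 𝒰 := fun k => hWran ▸ Set.mem_range_self k
  have hWlarge : ∀ x, {k | x ∈ W k}.Infinite := by
    intro x hfin
    apply hlarge x
    refine (hfin.image W).subset ?_
    rintro u ⟨hu, hxu⟩
    rw [← hWran] at hu
    obtain ⟨k, rfl⟩ := hu
    exact ⟨k, hxu, rfl⟩
  have hWcov : ∀ m, (⋃ k ∈ Set.Ici m, W k) = univ := by
    intro m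
    refine Set.eq_univ_of_forall fun x => ?_
    obtain ⟨k, hk, hkm⟩ := (hWlarge x).exists_gt m
    exact Set.mem_iUnion₂.2 ⟨k, hkm.le, hk⟩
  by_cases hcase : ∀ m : ℕ, ∃ m' > m, (⋃ k ∈ Finset.Ico m m', W k) = univ
  · -- multifinite case
    choose nx hnx1 hnx2 using hcase
    let a : ℕ → ℕ := fun n => nx^[n] 0
    have ha : ∀ n, a (n + 1) = nx (a n) := fun n => Function.iterate_succ_apply' nx n 0
    have hamono : StrictMono a := strictMono_nat_of_lt_succ fun n => by rw [ha]; exact hnx1 _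
    refine ⟨F, hF, ⟨fun u hu => (h𝒰U u hu).1, ?_, fun hu => (h𝒰U _ hu).2 rfl⟩,
      fun n => (Finset.Ico (a n) (a (n + 1))).image W, ?_, ?_, ?_, Or.inl ?_⟩
    · refine Set.eq_univ_of_forall fun x => ?_
      obtain ⟨u, hu, hxu⟩ := (hlarge x).nonempty
      exact ⟨u, hu, hxu⟩
    · intro n
      rw [Finset.image_nonempty, Finset.nonempty_Ico]
      exact hamono (Nat.lt_succ_self n)
    · intro m n hmn
      rw [Finset.disjoint_left]
      intro u hu1 hu2
      obtain ⟨k, hk, rfl⟩ := Finset.mem_image.1 hu1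
      obtain ⟨k', hk', hkk⟩ := Finset.mem_image.1 hu2
      obtain rfl := hWinj hkk
      rw [Finset.mem_Ico] at hk hk'
      rcases lt_or_gt_of_ne hmn with h | h
      · have := hamono.monotone (show m + 1 ≤ n from h)
        omega
      · have := hamono.monotone (show n + 1 ≤ m from h)
        omega
    · ext u
      constructor
      · intro hu
        obtain ⟨n, hn⟩ := Set.mem_iUnion.1 hu
        obtain ⟨k, _, rfl⟩ := Finset.mem_image.1 (Finset.mem_coe.1 hn)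
        exact hW𝒰 k
      · intro hu
        have hu' : u ∈ Set.range W := hWran ▸ hu
        obtain ⟨k, rfl⟩ := hu'
        -- locate the block of `k`
        have hex : ∃ i, k < a i := ⟨k + 1, lt_of_lt_of_le (Nat.lt_succ_self k) hamono.le_apply⟩
        have hpos : Nat.find hex ≠ 0 := by
          intro h0
          have := Nat.find_spec hex
          rw [h0] at this
          exact absurd this (Nat.not_lt_zero _)
        obtain ⟨i, hi⟩ := Nat.exists_eq_succ_of_ne_zero hpos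
        refine Set.mem_iUnion.2 ⟨i, Finset.mem_coe.2 (Finset.mem_image_of_mem _ ?_)⟩
        rw [Finset.mem_Ico]
        constructor
        · exact not_lt.1 (Nat.find_min hex (m := i) (by omega))
        · have := Nat.find_spec hex
          rwa [hi] at this
    · intro n
      rw [← hnx2 (a n), ← ha n]
      ext x
      simp
  · -- the main case
    push Not at hcase
    obtain ⟨m₀, hm₀⟩ := hcase
    have hno : ∀ Q : Finset ℕ, (∀ k ∈ Q, m₀ ≤ k) → (⋃ k ∈ Q, W k) ≠ univ := by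
      intro Q hQ heq
      apply hm₀ (m₀ + Q.sup id + 1) (by omega)
      refine Set.eq_univ_of_univ_subset ?_
      rw [← heq]
      intro x hx
      obtain ⟨k, hk, hxk⟩ := Set.mem_iUnion₂.1 hx
      refine Set.mem_iUnion₂.2 ⟨k, ?_, hxk⟩
      rw [Finset.mem_Ico]
      have : k ≤ Q.sup id := Finset.le_sup (f := id) hk
      exact ⟨hQ k hk, by omega⟩
    let V : ℕ → Set (Set α) := fun n => {u | ∃ k, m₀ + n ≤ k ∧ u = W k}
    have hV : ∀ n, IsOpenCover (V n) := by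
      intro n
      refine ⟨?_, ?_, ?_⟩
      · rintro u ⟨k, _, rfl⟩; exact (h𝒰U _ (hW𝒰 k)).1
      · rw [← hWcov (m₀ + n)]
        ext x
        simp only [Set.mem_sUnion, Set.mem_iUnion₂, Set.mem_Ici]
        constructor
        · rintro ⟨u, ⟨k, hk, rfl⟩, hx⟩; exact ⟨k, hk, hx⟩
        · rintro ⟨k, hk, hx⟩; exact ⟨W k, ⟨k, hk, rfl⟩, hx⟩
      · rintro ⟨k, _, hk⟩; exact (h𝒰U _ (hW𝒰 k)).2 hk.symm
    -- indices of a finite subfamily
    have hidx : ∀ n, ∀ G : Finset (Set α), (↑G : Set (Set α)) ⊆ V n →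
        ∃ Q : Finset ℕ, (∀ k ∈ Q, m₀ + n ≤ k) ∧ ⋃₀ (↑G : Set (Set α)) = ⋃ k ∈ Q, W k := by
      intro n G hG
      have hG' : ∀ u ∈ G, ∃ k, m₀ + n ≤ k ∧ u = W k := fun u hu => hG hu
      choose! κ hκ1 hκ2 using hG'
      refine ⟨G.image κ, ?_, ?_⟩
      · intro k hk
        obtain ⟨u, hu, rfl⟩ := Finset.mem_image.1 hk
        exact hκ1 u hu
      · ext x
        simp only [Set.mem_sUnion, Finset.mem_coe, Set.mem_iUnion₂, Finset.mem_image]
        constructor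
        · rintro ⟨u, hu, hx⟩
          exact ⟨κ u, ⟨u, hu, rfl⟩, hκ2 u hu ▸ hx⟩
        · rintro ⟨k, ⟨u, hu, rfl⟩, hx⟩
          exact ⟨u, hu, (hκ2 u hu).symm ▸ hx⟩
    have hVfin : ∀ n, ∀ G : Finset (Set α), (↑G : Set (Set α)) ⊆ V n →
        ⋃₀ (↑G : Set (Set α)) ≠ univ := by
      intro n G hG
      obtain ⟨Q, hQ, hQG⟩ := hidx n G hG
      rw [hQG]
      exact hno Q (fun k hk => by have := hQ k hk; omega)
    obtain ⟨G, hG, a, ha, ha0, hor⟩ := h V hV hVfin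
    have hidx' : ∀ n, ∃ Q : Finset ℕ, (∀ k ∈ Q, m₀ + n ≤ k) ∧
        ⋃₀ (↑(G n) : Set (Set α)) = ⋃ k ∈ Q, W k := fun n => hidx n (G n) (hG n)
    choose q hq1 hq2 using hidx'
    let Q : ℕ → Finset ℕ := fun l => (Finset.Ico (a l) (a (l + 1))).biUnion q
    have hQeq : ∀ l, (⋃ n ∈ Set.Ico (a l) (a (l + 1)), ⋃₀ (↑(G n) : Set (Set α))) =
        ⋃ k ∈ Q l, W k := by
      intro l
      ext x
      simp only [hq2, Set.mem_iUnion, Q, Finset.mem_biUnion, Finset.mem_Ico, Set.mem_Ico,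
        exists_prop]
      constructor
      · rintro ⟨n, hn, k, hk, hx⟩; exact ⟨k, ⟨n, hn, hk⟩, hx⟩
      · rintro ⟨k, ⟨n, hn, hk⟩, hx⟩; exact ⟨n, hn, k, hk, hx⟩
    have hQ : ∀ l, ∀ k ∈ Q l, m₀ ≤ k ∧ l ≤ k := by
      intro l k hk
      simp only [Q, Finset.mem_biUnion, Finset.mem_Ico] at hk
      obtain ⟨n, ⟨hn, _⟩, hk⟩ := hk
      have h1 := hq1 n k hk
      have h2 : l ≤ a l := ha.le_apply
      omega
    simp only [hQeq] at hor
    rcases hor with h1 | hτ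
    · exact absurd (h1 0) (hno _ (fun k hk => (hQ 0 k hk).1))
    obtain ⟨P, hP1, hP2, hP3⟩ := thin W (fun k => (h𝒰U _ (hW𝒰 k)).1) m₀ hno Q hQ hτ
    let 𝒦 : Set (Set α) := {u | ∃ j, ∃ k ∈ P j, u = W k}
    refine ⟨fun n => (F n).filter (fun u => u ∈ 𝒦), ?_, ?_⟩
    · intro n u hu
      exact hF n (Finset.mem_of_mem_filter u hu)
    have hun : (⋃ n, (↑((F n).filter (fun u => u ∈ 𝒦)) : Set (Set α))) = 𝒦 := by
      ext u
      simp only [Set.mem_iUnion, Finset.coe_filter, Set.mem_ofPred_eq]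
      constructor
      · rintro ⟨n, _, hu⟩; exact hu
      · rintro ⟨j, k, hk, rfl⟩
        have := hW𝒰 k
        rw [h𝒰] at this
        obtain ⟨n, hn⟩ := Set.mem_iUnion.1 this
        exact ⟨n, hn, j, k, hk, rfl⟩
    rw [hun]
    have hPW : ∀ j, ⋃₀ (↑((P j).image W) : Set (Set α)) = ⋃ k ∈ P j, W k := by
      intro j; ext x; simp
    refine ⟨⟨?_, ?_, ?_⟩, fun j => (P j).image W, ?_, ?_, ?_, Or.inr ?_⟩
    · rintro u ⟨j, k, _, rfl⟩; exact (h𝒰U _ (hW𝒰 k)).1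
    · refine Set.eq_univ_of_forall fun x => ?_
      obtain ⟨j, hj⟩ := (hP3.2.2.1 x).nonempty
      obtain ⟨k, hk, hxk⟩ := Set.mem_iUnion₂.1 hj
      exact ⟨W k, ⟨j, k, hk, rfl⟩, hxk⟩
    · rintro ⟨j, k, _, hk⟩; exact (h𝒰U _ (hW𝒰 k)).2 hk.symm
    · intro j; exact (hP1 j).image W
    · intro i j hij
      rw [Finset.disjoint_left]
      intro u hu1 hu2
      obtain ⟨k, hk, rfl⟩ := Finset.mem_image.1 hu1
      obtain ⟨k', hk', hkk⟩ := Finset.mem_image.1 hu2
      obtain rfl := hWinj hkk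
      exact (Finset.disjoint_left.1 (hP2 i j hij)) hk hk'
    · ext u
      simp only [Set.mem_iUnion, Finset.coe_image, Set.mem_image, Finset.mem_coe]
      constructor
      · rintro ⟨j, k, hk, rfl⟩; exact ⟨j, k, hk, rfl⟩
      · rintro ⟨j, k, hk, rfl⟩; exact ⟨j, k, hk, rfl⟩
    · simp only [hPW]
      exact hP3

end

end Tau555
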