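import Pool.Agent.Helper555.Tau.Api

set_option autoImplicit false

open Set Filter

namespace Tau555


/-- Uniqueness of the active continuation. -/
theorem act_unique (p : Cond) {y z : ℕ} (hy : y ∈ p.B) (hz : z ∈ p.B) {D D' : Pt}
    (h : Agr y D D') (h1 : ∀ m, y ≤ m → m < z → D m = p.c D m)
    (h2 : ∀ m, y ≤ m → m < z → D' m = p.c D' m) : Agr z D D' := by
  intro m
  induction m using Nat.strong_induction_on with
  | _ m ih =>
    intro hm
    by_cases hmy : m < y
    · exact h m hmy
    · obtain ⟨b1, b2, hb, hyb, hbm, hmb⟩ := find_blk p hy (not_lt.1 hmy)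
      rw [h1 m (not_lt.1 hmy) hm, h2 m (not_lt.1 hmy) hm]
      exact p.loc b1 b2 hb D D' (fun k hk => ih k (hk.trans_le hbm) ((hk.trans_le hbm).trans hm))
        m hbm hmb


end Tau555
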