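import Pool.Agent.Helper555.Tau.Api

set_option autoImplicit false

open Set Filter

namespace Tau555


open Classical in
/-- the letter at position `n` computed from the word `z` -/
noncomputable def val11524 (p : Cond) (b : ℕ) (D : Pt) (t : ℕ → Option Bool) (n : ℕ) (z : Pt) :
    Fin 3 :=
  if n < b then D n
  else match t (Nat.findGreatest (fun k => k ∈ p.B) n) with
    | none => p.c z n
    | some ε => lett (xor (p.h n) ε)

/-- the words computed so far -/
noncomputable def zs11524 (p : Cond) (b : ℕ) (D : Pt) (t : ℕ → Option Bool) : ℕ → Pt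
  | 0 => fun _ => 0
  | n + 1 => Function.update (zs11524 p b D t n) n (val11524 p b D t n (zs11524 p b D t n))

theorem zs_eq11524 (p : Cond) (b : ℕ) (D : Pt) (t : ℕ → Option Bool) (i l : ℕ) (h : l < i) :
    zs11524 p b D t i l = val11524 p b D t l (zs11524 p b D t l) := by
  induction i with
  | zero => omega
  | succ i ih =>
    rw [zs11524]
    by_cases h1 : l = i
    · subst h1
      rw [Function.update_self]
    · rw [Function.update_of_ne h1]
      exact ih (by omega)

/-- Every node can be continued with any prescribed pattern: `t b1 = none` means that the block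
starting at `b1` is active, `t b1 = some ε` that it is hidden with bit `ε`. -/
theorem exists_run (p : Cond) {b : ℕ} (hb : b ∈ p.B) (D : Pt) (t : ℕ → Option Bool) :
    ∃ D', Agr b D D' ∧ ∀ b1 b2, Blk p.B b1 b2 → b ≤ b1 →
      (t b1 = none → ∀ m, b1 ≤ m → m < b2 → D' m = p.c D' m) ∧
      (∀ ε, t b1 = some ε → ∀ m, b1 ≤ m → m < b2 → D' m = lett (xor (p.h m) ε)) := by
  classical
  refine ⟨fun n => val11524 p b D t n (zs11524 p b D t n), ?_, ?_⟩
  · intro m hm
    show D m = val11524 p b D t m (zs11524 p b D t m)
    unfold val11524
    rw [if_pos hm]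
  · intro b1 b2 hblk hb1
    have hs : ∀ m, b1 ≤ m → m < b2 →
        @Nat.findGreatest (fun k => k ∈ p.B) (fun k => Classical.propDecidable (k ∈ p.B)) m = b1 := by
      intro m h1 h2
      apply le_antisymm
      · apply hblk.ge_of_mem
        · exact Nat.findGreatest_spec (P := fun k => k ∈ p.B) h1 hblk.1
        · exact lt_of_le_of_lt (Nat.findGreatest_le m) h2
      · exact Nat.le_findGreatest (P := fun k => k ∈ p.B) h1 hblk.1
    constructor
    · intro ht m h1 h2
      show val11524 p b D t m (zs11524 p b D t m) =
        p.c (fun n => val11524 p b D t n (zs11524 p b D t n)) m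
      have h3 : val11524 p b D t m (zs11524 p b D t m) = p.c (zs11524 p b D t m) m := by
        unfold val11524
        rw [if_neg (by omega), hs m h1 h2, ht]
      rw [h3]
      refine p.loc b1 b2 hblk _ _ ?_ m h1 h2
      intro l hl
      exact zs_eq11524 p b D t m l (by omega)
    · intro ε ht m h1 h2
      show val11524 p b D t m (zs11524 p b D t m) = lett (xor (p.h m) ε)
      unfold val11524
      rw [if_neg (by omega), hs m h1 h2, ht]


end Tau555
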