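import Pool.Agent.Helper555.Tau.Api

set_option autoImplicit false

open Set Filter

namespace Tau555


theorem fusion_N {b : ℕ → ℕ} (hb : StrictMono b) {n m : ℕ} (h1 : b n ≤ m) (h2 : m < b (n + 1)) :
    Nat.findGreatest (fun n => b n ≤ m) m = n := by
  have h3 : n ≤ m := (hb.le_apply (x := n)).trans h1
  have h4 : n ≤ Nat.findGreatest (fun n => b n ≤ m) m := Nat.le_findGreatest h3 h1
  have h5 : b (Nat.findGreatest (fun n => b n ≤ m) m) ≤ m :=
    Nat.findGreatest_spec (P := fun n => b n ≤ m) h3 h1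
  by_contra hne
  have h6 : n + 1 ≤ Nat.findGreatest (fun n => b n ≤ m) m := by omega
  have h7 := hb.monotone h6
  omega

theorem fusion_exists {b : ℕ → ℕ} (hb : StrictMono b) {m : ℕ} (h : b 0 ≤ m) :
    ∃ n, b n ≤ m ∧ m < b (n + 1) := by
  refine ⟨Nat.findGreatest (fun n => b n ≤ m) m,
    Nat.findGreatest_spec (P := fun n => b n ≤ m) (Nat.zero_le m) h, ?_⟩
  by_contra hc
  have h1 : b (Nat.findGreatest (fun n => b n ≤ m) m + 1) ≤ m := not_lt.1 hc
  have h2 : Nat.findGreatest (fun n => b n ≤ m) m + 1 ≤ m := (hb.le_apply).trans h1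
  have h3 := Nat.le_findGreatest (P := fun n => b n ≤ m) h2 h1
  omega

theorem fusion_blk {b : ℕ → ℕ} (hb : StrictMono b) (n : ℕ) :
    Blk (Set.range b) (b n) (b (n + 1)) := by
  refine ⟨⟨n, rfl⟩, ⟨n + 1, rfl⟩, hb (Nat.lt_succ_self n), ?_⟩
  rintro _ h1 h2 ⟨k, rfl⟩
  rw [hb.lt_iff_lt] at h1 h2
  omega

theorem fusion_blk' {b : ℕ → ℕ} (hb : StrictMono b) {x y : ℕ} (h : Blk (Set.range b) x y) :
    ∃ n, x = b n ∧ y = b (n + 1) := by
  obtain ⟨⟨n, rfl⟩, ⟨k, rfl⟩, h1, h2⟩ := h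
  rw [hb.lt_iff_lt] at h1
  refine ⟨n, rfl, ?_⟩
  by_contra hne
  have h3 : n + 1 < k := by
    rcases Nat.lt_or_ge (n + 1) k with h | h
    · exact h
    · exfalso
      apply hne
      congr 1
      omega
  exact h2 (b (n + 1)) (hb (Nat.lt_succ_self n)) (hb h3) ⟨n + 1, rfl⟩

/-- Fusion of a sequence of steps. -/
theorem fusion (p : ℕ → Cond) (b : ℕ → ℕ) (w : ℕ → ℕ → Bool) (r : ℕ → Pt → Pt)
    (h : ∀ n, StepOK (p n) (b n) (b (n + 1)) (w n) (r n) (p (n + 1))) :
    ∃ q : Cond, StrictMono b ∧ (∀ x, x ∈ q.B ↔ ∃ n, x = b n) ∧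
      (∀ n, Blk q.B (b n) (b (n + 1))) ∧ (∀ x y, Blk q.B x y → ∃ n, x = b n ∧ y = b (n + 1)) ∧
      (∀ n, Ref (b n) q (p n)) ∧
      (∀ n m, b n ≤ m → m < b (n + 1) → q.h m = w n m) ∧
      (∀ n D m, b n ≤ m → m < b (n + 1) → q.c D m = r n D m) := by
  have hb : StrictMono b := strictMono_nat_of_lt_succ (fun n => (h n).lt)
  obtain ⟨N, hNdef⟩ : ∃ N : ℕ → ℕ, N = fun m => Nat.findGreatest (fun n => b n ≤ m) m :=
    ⟨_, rfl⟩
  have hN : ∀ n m, b n ≤ m → m < b (n + 1) → N m = n := by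
    intro n m h1 h2
    rw [hNdef]
    exact fusion_N hb h1 h2
  obtain ⟨cc, hcc⟩ : ∃ cc : Pt → Pt, cc = fun D m => if b 0 ≤ m then r (N m) D m else 0 :=
    ⟨_, rfl⟩
  have hc : ∀ n D m, b n ≤ m → m < b (n + 1) → cc D m = r n D m := by
    intro n D m h1 h2
    have h0 : b 0 ≤ m := (hb.monotone (Nat.zero_le n)).trans h1
    rw [hcc]
    show (if b 0 ≤ m then r (N m) D m else 0) = r n D m
    rw [if_pos h0, hN n m h1 h2]
  have hh : ∀ n m, b n ≤ m → m < b (n + 1) → w (N m) m = w n m := by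
    intro n m h1 h2
    rw [hN n m h1 h2]
  have R : ∀ n k, n ≤ k → Ref (b k) (p k) (p n) := by
    intro n k hk
    induction k, hk using Nat.le_induction with
    | base => exact Ref.refl (h n).hb
    | succ k hk ih => exact (h k).ref.trans' ih (h k).lt.le
  let q : Cond :=
    { B := Set.range b
      h := fun m => w (N m) m
      c := cc
      inf := Set.infinite_range_of_injective hb.injective
      loc := by
        intro x y hxy D D' hD m h1 h2
        obtain ⟨n, rfl, rfl⟩ := fusion_blk' hb hxy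
        rw [hc n D m h1 h2, hc n D' m h1 h2]
        exact (h n).loc D D' hD m h2
      aa := by
        intro D D' m
        by_cases h0 : b 0 ≤ m
        · obtain ⟨n, h1, h2⟩ := fusion_exists hb h0
          rw [hc n D m h1 h2, hc n D' m h1 h2]
          exact (h n).aa D D' m h1 h2
        · have e : ∀ D, cc D m = 0 := by
            intro D
            rw [hcc]
            exact if_neg h0
          rw [e D, e D']
      ex := by
        intro x y hxy D
        obtain ⟨n, rfl, rfl⟩ := fusion_blk' hb hxy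
        obtain ⟨m, h1, h2, h3⟩ := (h n).ex D
        exact ⟨m, h1, h2, by rw [hc n D m h1 h2]; exact h3⟩ }
  refine ⟨q, hb, ?_, fun n => fusion_blk hb n, fun x y hxy => fusion_blk' hb hxy, ?_, hh, hc⟩
  · intro x
    constructor
    · rintro ⟨n, rfl⟩
      exact ⟨n, rfl⟩
    · rintro ⟨n, rfl⟩
      exact ⟨n, rfl⟩
  · intro n
    refine ⟨⟨n, rfl⟩, ?_, ?_⟩
    · rintro _ ⟨k, rfl⟩ h1
      exact (R n k (hb.le_iff_le.1 h1)).mem'
    · intro x y hxy h1 D hD
      obtain ⟨k, rfl, rfl⟩ := fusion_blk' hb hxy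
      have hnk : n ≤ k := hb.le_iff_le.1 h1
      have hcf : Conf (p k) (b k) (b (k + 1)) D := by
        rcases hD with ⟨ε, hε⟩ | hD
        · apply HW.conf (h k).hw (ε := ε)
          intro m h2 h3
          rw [hε m h2 h3]
          show lett (xor (w (N m) m) ε) = lett (xor (w k m) ε)
          rw [hh k m h2 h3]
        · apply ((h k).cf D).congr
          intro m h3
          by_cases h2 : b k ≤ m
          · rw [hD m h2 h3]
            exact (hc k D m h2 h3).symm
          · exact ((h k).agr D m (not_le.1 h2)).symm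
      exact (R n k hnk).conf (h k).hb (h k).hb' le_rfl hcf


end Tau555
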