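import Pool.Agent.Helper555.Tau.Api
import Pool.Agent.Helper555.Tau.P_fusion

set_option autoImplicit false

open Set Filter

namespace Tau555


/-- Fusion along a step relation, with an auxiliary state of type `S`. -/
theorem fusion_principle {S : Type} (Inv : ℕ → S → Cond → ℕ → Prop)
    (Φ : ℕ → S → Cond → ℕ → (ℕ → Bool) → (Pt → Pt) → S → Cond → ℕ → Prop)
    (step : ∀ n s p b, Inv n s p b → ∃ (w : ℕ → Bool) (r : Pt → Pt) (s' : S) (p' : Cond) (b' : ℕ),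
      StepOK p b b' w r p' ∧ Inv (n + 1) s' p' b' ∧ Φ n s p b w r s' p' b')
    (s0 : S) (pp : Cond) (b0 : ℕ) (h0 : Inv 0 s0 pp b0) :
    ∃ (s : ℕ → S) (p : ℕ → Cond) (b : ℕ → ℕ) (w : ℕ → ℕ → Bool) (r : ℕ → Pt → Pt) (q : Cond),
      s 0 = s0 ∧ p 0 = pp ∧ b 0 = b0 ∧ (∀ n, Inv n (s n) (p n) (b n)) ∧
      (∀ n, StepOK (p n) (b n) (b (n + 1)) (w n) (r n) (p (n + 1))) ∧
      (∀ n, Φ n (s n) (p n) (b n) (w n) (r n) (s (n + 1)) (p (n + 1)) (b (n + 1))) ∧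
      StrictMono b ∧ (∀ x, x ∈ q.B ↔ ∃ n, x = b n) ∧
      (∀ n, Blk q.B (b n) (b (n + 1))) ∧ (∀ x y, Blk q.B x y → ∃ n, x = b n ∧ y = b (n + 1)) ∧
      (∀ n, Ref (b n) q (p n)) ∧
      (∀ n m, b n ≤ m → m < b (n + 1) → q.h m = w n m) ∧
      (∀ n D m, b n ≤ m → m < b (n + 1) → q.c D m = r n D m) := by
  have hstep : ∀ (n : ℕ) (x : {x : S × Cond × ℕ // Inv n x.1 x.2.1 x.2.2}),
      ∃ (w : ℕ → Bool) (r : Pt → Pt) (y : {y : S × Cond × ℕ // Inv (n + 1) y.1 y.2.1 y.2.2}),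
        StepOK x.1.2.1 x.1.2.2 y.1.2.2 w r y.1.2.1 ∧
        Φ n x.1.1 x.1.2.1 x.1.2.2 w r y.1.1 y.1.2.1 y.1.2.2 := by
    intro n x
    obtain ⟨w, r, s', p', b', h1, h2, h3⟩ := step n x.1.1 x.1.2.1 x.1.2.2 x.2
    exact ⟨w, r, ⟨(s', p', b'), h2⟩, h1, h3⟩
  choose fw fr fy h1 h2 using hstep
  let sq : ∀ n, {x : S × Cond × ℕ // Inv n x.1 x.2.1 x.2.2} := fun n =>
    Nat.rec (motive := fun n => {x : S × Cond × ℕ // Inv n x.1 x.2.1 x.2.2})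
      ⟨(s0, pp, b0), h0⟩ (fun n x => fy n x) n
  have hOK : ∀ n, StepOK (sq n).1.2.1 (sq n).1.2.2 (sq (n + 1)).1.2.2 (fw n (sq n)) (fr n (sq n))
      (sq (n + 1)).1.2.1 := fun n => h1 n (sq n)
  obtain ⟨q, hq⟩ := fusion (fun n => (sq n).1.2.1) (fun n => (sq n).1.2.2)
    (fun n => fw n (sq n)) (fun n => fr n (sq n)) hOK
  exact ⟨fun n => (sq n).1.1, fun n => (sq n).1.2.1, fun n => (sq n).1.2.2,
    fun n => fw n (sq n), fun n => fr n (sq n), q, rfl, rfl, rfl, fun n => (sq n).2, hOK,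
    fun n => h2 n (sq n), hq⟩


end Tau555
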