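import Pool.Agent.Helper555.Tau.Api

set_option autoImplicit false

open Set Filter

namespace Tau555


/-- Making a fusion step from the existence of suitable continuations of all nodes. -/
theorem step_mk (p : Cond) {b b' : ℕ} (hb : b ∈ p.B) (hb' : b' ∈ p.B) (hlt : b < b')
    (w : ℕ → Bool) (hw : HW p b b' w) (p' : Cond) (hp' : Ref b' p' p) (A : Set ℕ)
    (hA : ∃ m ∈ A, b ≤ m ∧ m < b') (Φ : Pt → Pt → Prop)
    (H : ∀ D, ∃ τ, Agr b D τ ∧ Conf p b b' τ ∧ (∀ m, b ≤ m → m < b' → (τ m = 2 ↔ m ∈ A)) ∧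
      Φ D τ) :
    ∃ r : Pt → Pt, StepOK p b b' w r p' ∧ (∀ D, Φ (trunc b D) (r D)) ∧
      (∀ D m, b ≤ m → m < b' → (r D m = 2 ↔ m ∈ A)) := by
  choose R hR using H
  obtain ⟨m, hmA, hbm, hmb⟩ := hA
  refine ⟨fun D => R (trunc b D), ⟨hb, hb', hlt, hw, ?_, ?_, ?_, ?_, ?_, hp'⟩, ?_, ?_⟩
  · intro D
    exact (agr_trunc b D).trans (hR (trunc b D)).1
  · intro D
    exact (hR (trunc b D)).2.1
  · intro D D' h
    show Agr b' (R (trunc b D)) (R (trunc b D'))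
    rw [trunc_eq h]
    exact Agr.refl _ _
  · intro D D' m h1 h2
    exact ((hR (trunc b D)).2.2.1 m h1 h2).trans ((hR (trunc b D')).2.2.1 m h1 h2).symm
  · intro D
    exact ⟨m, hbm, hmb, ((hR (trunc b D)).2.2.1 m hbm hmb).2 hmA⟩
  · intro D
    exact (hR (trunc b D)).2.2.2
  · intro D m h1 h2
    exact (hR (trunc b D)).2.2.1 m h1 h2


end Tau555
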