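import Pool.Agent.Helper555.Tau.Api

set_option autoImplicit false

open Set Filter

namespace Tau555


theorem uniform_win_step (p : Cond) (x : ℕ) (F : Set (Set Pt))
    (hF : ∀ U ∈ F, ∀ V ∈ F, ∃ W ∈ F, U ∪ V ⊆ W) (S : Set (Pt × Bool)) (t : Pt × Bool)
    (H : ∀ y ∈ p.B, x ≤ y → ∀ D', Agr x t.1 D' → Conf p x y D' → NoA x y D' →
      ∀ p', Ref y p' p → Win p' F y D')
    (ih : ∃ y ∈ p.B, x ≤ y ∧ ∃ w, HW p x y w ∧ ∃ p', Ref y p' p ∧ ∃ U ∈ F, ∀ t ∈ S, ∀ D ∈ Y,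
      Agr x t.1 D → (∀ m, x ≤ m → m < y → D m = lett (xor (w m) t.2)) → ConfI p' y D →
        D ∈ U) :
    ∃ y ∈ p.B, x ≤ y ∧ ∃ w, HW p x y w ∧ ∃ p', Ref y p' p ∧ ∃ U ∈ F, ∀ t' ∈ insert t S, ∀ D ∈ Y,
      Agr x t'.1 D → (∀ m, x ≤ m → m < y → D m = lett (xor (w m) t'.2)) → ConfI p' y D →
        D ∈ U := by
  classical
  obtain ⟨y, hy, hxy, w, hw, p', hp', U, hU, hS⟩ := ih
  set D' : Pt := fun m => if m < x then t.1 m else lett (xor (w m) t.2) with hD'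
  have hD'lt : ∀ m, m < x → D' m = t.1 m := fun m hm => by simp [hD', hm]
  have hD'ge : ∀ m, x ≤ m → D' m = lett (xor (w m) t.2) := fun m hm => by
    simp [hD', not_lt.2 hm]
  have hD'w : ∀ m, x ≤ m → m < y → D' m = lett (xor (w m) t.2) := fun m hm _ => hD'ge m hm
  obtain ⟨y1, hy1, hyy1, D1, hag, hconf1, hno1, V, hV, q, hq, hqV⟩ :=
    H y hy hxy D' (fun m hm => (hD'lt m hm).symm) (hw.conf hD'w) (noA_of_lett hD'w) p' hp'
  set w1 : ℕ → Bool := fun m => if m < y then w m else xor (decide (D1 m = 1)) t.2 with hw1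
  have hw1lt : ∀ m, m < y → w1 m = w m := fun m hm => by simp [hw1, hm]
  have hw1ge : ∀ m, y ≤ m → m < y1 → D1 m = lett (xor (w1 m) t.2) := by
    intro m h1 h2
    obtain ⟨b, hb⟩ := ne_two (hno1 m h1 h2)
    have h3 : w1 m = xor b t.2 := by
      simp only [hw1, not_lt.2 h1, if_false, hb]
      cases b <;> simp [lett]
    rw [h3, hb, Bool.xor_assoc, Bool.xor_self, Bool.xor_false]
  have hHWp' : HW p' y y1 w1 := by
    intro b b' hb h1 h2
    obtain ⟨ε, hε⟩ := hidden_of_noA hb (hconf1 b b' hb h1 h2)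
      (fun m h3 h4 => hno1 m (h1.trans h3) (h4.trans_le h2))
    refine ⟨xor ε t.2, fun m h3 h4 => ?_⟩
    have h5 := hε m h3 h4
    rw [hw1ge m (h1.trans h3) (h4.trans_le h2)] at h5
    have h6 := lett_inj h5
    rw [← Bool.xor_assoc, ← h6, Bool.xor_assoc, Bool.xor_self, Bool.xor_false]
  have hHW : HW p x y1 w1 := by
    apply HW.trans hy
    · exact hw.congr fun m _ h2 => (hw1lt m h2).symm
    · exact HW.ref hp' hp'.mem hy1 le_rfl hHWp'
  obtain ⟨W, hW, hUVW⟩ := hF U hU V hV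
  refine ⟨y1, hp'.sub hy1 hyy1, hxy.trans hyy1, w1, hHW, q, hq.trans' hp' hyy1, W, hW, ?_⟩
  rintro t' (rfl | ht') D hDY hDag hDw hDc
  · apply hUVW
    refine Or.inr (hqV D ?_ hDY hDc)
    intro m hm
    by_cases h1 : m < y
    · rw [← hag m h1]
      by_cases h2 : m < x
      · rw [hD'lt m h2, hDag m h2]
      · rw [hD'ge m (not_lt.1 h2), hDw m (not_lt.1 h2) hm, hw1lt m h1]
    · rw [hw1ge m (not_lt.1 h1) hm, hDw m (hxy.trans (not_lt.1 h1)) hm]
  · apply hUVW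
    refine Or.inl (hS t' ht' D hDY hDag ?_ ?_)
    · intro m h1 h2
      rw [hDw m h1 (h2.trans_le hyy1), hw1lt m h2]
    · apply Conf.confI hy1
      · exact hHWp'.conf (ε := t'.2) fun m h1 h2 => hDw m (hxy.trans h1) h2
      · exact hq.confI hq.mem le_rfl hDc

/-- Uniform winning lemma. -/
theorem uniform_win (p : Cond) (x : ℕ) (hx : x ∈ p.B) (F : Set (Set Pt))
    (hF : ∀ U ∈ F, ∀ V ∈ F, ∃ W ∈ F, U ∪ V ⊆ W) (hne : F.Nonempty) (T : Set (Pt × Bool))
    (H : ∀ t ∈ T, ∀ y ∈ p.B, x ≤ y → ∀ D', Agr x t.1 D' → Conf p x y D' → NoA x y D' →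
      ∀ p', Ref y p' p → Win p' F y D') :
    ∃ y ∈ p.B, x ≤ y ∧ ∃ w, HW p x y w ∧ ∃ p', Ref y p' p ∧ ∃ U ∈ F, ∀ t ∈ T, ∀ D ∈ Y,
      Agr x t.1 D → (∀ m, x ≤ m → m < y → D m = lett (xor (w m) t.2)) → ConfI p' y D →
        D ∈ U := by
  classical
  have hfinite : ∀ S : Set (Pt × Bool), S.Finite → S ⊆ T →
      ∃ y ∈ p.B, x ≤ y ∧ ∃ w, HW p x y w ∧ ∃ p', Ref y p' p ∧ ∃ U ∈ F, ∀ t ∈ S, ∀ D ∈ Y,
      Agr x t.1 D → (∀ m, x ≤ m → m < y → D m = lett (xor (w m) t.2)) → ConfI p' y D →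
        D ∈ U := by
    intro S hS
    induction S, hS using Set.Finite.induction_on with
    | empty =>
      intro _
      obtain ⟨U, hU⟩ := hne
      exact ⟨x, hx, le_rfl, p.h, HW.self p x x, p, Ref.refl hx, U, hU, fun t ht => ht.elim⟩
    | @insert t S _ _ ih =>
      intro hST
      exact uniform_win_step p x F hF S t (H t (hST (mem_insert t S)))
        (ih ((subset_insert t S).trans hST))
  let f : Pt × Bool → Pt × Bool := fun t => (trunc x t.1, t.2)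
  have hfT : (f '' T).Finite := by
    refine ((finite_trunc x).prod (Set.toFinite (univ : Set Bool))).subset ?_
    rintro _ ⟨t, _, rfl⟩
    exact ⟨⟨t.1, rfl⟩, mem_univ _⟩
  obtain ⟨y, hy, hxy, w, hw, p', hp', U, hU, hS⟩ := hfinite
    (Function.invFunOn f T '' (f '' T)) (hfT.image _) (by
      rintro _ ⟨z, hz, rfl⟩
      exact Function.invFunOn_mem hz)
  refine ⟨y, hy, hxy, w, hw, p', hp', U, hU, ?_⟩
  intro t ht D hDY hDag hDw hDc
  have hz : f t ∈ f '' T := mem_image_of_mem f ht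
  have h1 : f (Function.invFunOn f T (f t)) = f t := Function.invFunOn_eq hz
  have h2 : trunc x (Function.invFunOn f T (f t)).1 = trunc x t.1 := congrArg Prod.fst h1
  have h3 : (Function.invFunOn f T (f t)).2 = t.2 :=
    show (f (Function.invFunOn f T (f t))).2 = (f t).2 by rw [h1]
  refine hS _ (mem_image_of_mem _ hz) D hDY ?_ ?_ hDc
  · refine Agr.trans ?_ hDag
    refine (agr_trunc x _).trans ?_
    rw [h2]
    exact (agr_trunc x _).symm
  · intro m h4 h5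
    rw [h3]
    exact hDw m h4 h5


end Tau555
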