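import Pool.Agent.Helper555.Tau.Api
import Pool.Agent.Helper555.Tau.P_act_unique
import Pool.Agent.Helper555.Tau.P_exists_run
import Pool.Agent.Helper555.Tau.P_step_mk
import Pool.Agent.Helper555.Tau.P_fusion_principle
import Pool.Agent.Helper555.Tau.P_uniform_win

set_option autoImplicit false

open Set Filter

namespace Tau555


theorem ah_loc {b : ℕ → ℕ} (hb : StrictMono b) {m : ℕ} (hm : b 0 ≤ m) :
    ∃ i, b i ≤ m ∧ m < b (i + 1) := by
  classical
  have hex : ∃ i, m < b (i + 1) := ⟨m, (Nat.lt_succ_self m).trans_le (hb.le_apply)⟩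
  refine ⟨Nat.find hex, ?_, Nat.find_spec hex⟩
  rcases Nat.eq_zero_or_pos (Nat.find hex) with h0 | h0
  · rw [h0]; exact hm
  · obtain ⟨i, hi⟩ : ∃ i, Nat.find hex = i + 1 := ⟨Nat.find hex - 1, by omega⟩
    rw [hi]
    by_contra hcon
    have := Nat.find_min hex (m := i) (by omega)
    exact this (not_le.1 hcon)

/-- a single block which is active is conforming -/
theorem ah_single {p : Cond} {b z : ℕ} (hz : Blk p.B b z) {D : Pt}
    (h : ∀ m, b ≤ m → m < z → D m = p.c D m) : Conf p b z D := by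
  intro c c' hc h1 h2
  have h3 : c = b := by
    by_contra hne
    have h4 : b < c := lt_of_le_of_ne h1 (fun h => hne h.symm)
    have h5 := hz.le_of_mem hc.1 h4
    have := hc.2.2.1
    omega
  subst h3
  have h6 : c' = z := le_antisymm h2 (hz.le_of_mem hc.2.1 hc.2.2.1)
  subst h6
  exact Or.inr h

/-- one step of the fusion -/
theorem ah_step (p' p1 : Cond) (U : Set Pt) (y b : ℕ) (D : Pt) (hyb : y ≤ b) (hp1 : Ref b p1 p')
    (hwin : ∀ z ∈ p'.B, y < z → ∀ τ, Agr y D τ → Conf p' y z τ →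
      (∃ m, y ≤ m ∧ m < z ∧ τ m = 2) → ∀ q', Ref z q' p' → Win q' {U} z τ) :
    ∃ (w : ℕ → Bool) (r : Pt → Pt) (p2 : Cond) (b' : ℕ), StepOK p1 b b' w r p2 ∧
      y ≤ b' ∧ Ref b' p2 p' ∧ ∀ D'' ∈ Y, Agr y D D'' → Conf p' y b D'' → NoA y b D'' →
        (∀ m, b ≤ m → m < b' → D'' m = r D'' m) → ConfI p2 b' D'' → D'' ∈ U := by
  have hb : b ∈ p1.B := hp1.mem
  obtain ⟨z, hz⟩ := exists_blk p1 hb
  set T : Set (Pt × Bool) := {t | t.2 = false ∧ Agr y D t.1 ∧ Conf p' y b t.1 ∧ NoA y b t.1 ∧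
    ∀ m, b ≤ m → m < z → t.1 m = p1.c t.1 m} with hT
  obtain ⟨b', hb', hzb', w', hw', p2, hp2, U', hU', hall⟩ := uniform_win p1 z hz.2.1 {U}
    (by
      intro A hA B hB
      rw [mem_singleton_iff] at hA hB
      exact ⟨U, rfl, by rw [hA, hB, union_self]⟩) (singleton_nonempty U) T (by
      rintro ⟨τ, ε⟩ ⟨rfl, ht1, ht2, ht3, ht4⟩ z' hz' hzz' D' hagr hconf hnoA p'' hp''
      simp only at ht1 ht2 ht3 ht4 hagr
      have hbz : b < z := hz.2.2.1
      have hz'p' : z' ∈ p'.B := hp1.sub hz' (hbz.le.trans hzz')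
      have hagrb : Agr b τ D' := hagr.mono hbz.le
      have hagry : Agr y D D' := ht1.trans (hagr.mono (hyb.trans hbz.le))
      have hc1 : Conf p' y b D' := ht2.congr hagrb
      have hact : ∀ m, b ≤ m → m < z → D' m = p1.c D' m := by
        intro m h1 h2
        rw [← hagr m h2, ht4 m h1 h2]
        exact p1.loc b z hz τ D' hagrb m h1 h2
      have hc2 : Conf p1 b z' D' := (ah_single hz hact).trans hz.2.1 hconf
      have hc3 : Conf p' b z' D' := hp1.conf hb hz' le_rfl hc2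
      have hc4 : Conf p' y z' D' := hc1.trans hp1.mem' hc3
      obtain ⟨m, hm1, hm2, hm3⟩ := p1.ex b z hz D'
      refine hwin z' hz'p' (by omega) D' hagry hc4 ⟨m, by omega, by omega, ?_⟩ p''
        (hp''.trans' hp1 (by omega))
      rw [hact m hm1 hm2]; exact hm3)
  rw [mem_singleton_iff] at hU'
  subst hU'
  have hbz : b < z := hz.2.2.1
  obtain ⟨r, hstep, hΦ, _⟩ := step_mk p1 hb hb' (hbz.trans_le hzb') p1.h (HW.self p1 b b') p2 hp2
    {m | b ≤ m ∧ m < z ∧ p1.c (fun _ => 0) m = 2} (by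
      obtain ⟨m, hm1, hm2, hm3⟩ := p1.ex b z hz (fun _ => 0)
      exact ⟨m, ⟨hm1, hm2, hm3⟩, hm1, hm2.trans_le hzb'⟩)
    (fun _ τ => (∀ m, b ≤ m → m < z → τ m = p1.c τ m) ∧
      (∀ m, z ≤ m → m < b' → τ m = lett (w' m))) (by
      intro D1
      obtain ⟨τ0, h1, h2⟩ := exists_run p1 hb D1 (fun _ => none)
      have h3 := (h2 b z hz le_rfl).1 rfl
      set τ : Pt := fun m => if m < z then τ0 m else lett (w' m) with hτ
      have hlt : ∀ m, m < z → τ m = τ0 m := fun m hm => by simp [hτ, hm]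
      have hge : ∀ m, z ≤ m → τ m = lett (w' m) := fun m hm => by simp [hτ, not_lt.2 hm]
      have hagr0 : Agr b τ0 τ := fun m hm => (hlt m (hm.trans hbz)).symm
      have hact : ∀ m, b ≤ m → m < z → τ m = p1.c τ m := by
        intro m h4 h5
        rw [hlt m h5, h3 m h4 h5]
        exact p1.loc b z hz τ0 τ hagr0 m h4 h5
      refine ⟨τ, h1.trans hagr0, ?_, ?_, hact, fun m h4 _ => hge m h4⟩
      · refine (ah_single hz hact).trans hz.2.1 (hw'.conf (ε := false) fun m h4 _ => ?_)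
        rw [hge m h4]; simp
      · intro m h4 h5
        simp only [Set.mem_ofPred_eq]
        by_cases hmz : m < z
        · rw [hact m h4 hmz, p1.aa τ (fun _ => 0) m]
          exact ⟨fun h => ⟨h4, hmz, h⟩, fun h => h.2.2⟩
        · rw [hge m (not_lt.1 hmz)]
          exact ⟨fun h => absurd h (lett_ne _), fun h => absurd h.2.1 hmz⟩)
  refine ⟨p1.h, r, p2, b', hstep, by omega, hp2.trans' hp1 (by omega), ?_⟩
  intro D'' hY hagr hconf hnoA hr hconfI
  obtain ⟨hφ1, hφ2⟩ := hΦ D''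
  have hagrr : Agr b (r D'') D'' := (hstep.agr D'').symm
  refine hall (D'', false) ⟨rfl, hagr, hconf, hnoA, ?_⟩ D'' hY (Agr.refl _ _) ?_ hconfI
  · intro m h1 h2
    simp only
    rw [hr m h1 (h2.trans_le hzb'), hφ1 m h1 h2]
    exact p1.loc b z hz (r D'') D'' hagrr m h1 h2
  · intro m h1 h2
    rw [hr m (hbz.le.trans h1) h2, hφ2 m h1 h2]
    simp

/-- Non-winning nodes have non-winning proper continuations, for a decided condition. -/
theorem AH (p : Cond) (U : Set Pt) (x : ℕ)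
    (hdec : ∀ y ∈ p.B, x ≤ y → ∀ D, ¬ Win p {U} y D ∨ ∀ q', Ref y q' p → Win q' {U} y D)
    (y : ℕ) (hy : y ∈ p.B) (hxy : x ≤ y) (D : Pt) (hD : ¬ Win p {U} y D)
    (p' : Cond) (hp' : Ref y p' p) :
    ∃ z ∈ p'.B, y < z ∧ ∃ τ, Agr y D τ ∧ Conf p' y z τ ∧ (∃ m, y ≤ m ∧ m < z ∧ τ m = 2) ∧
      ¬ Win p {U} z τ := by
  by_contra hcon
  push Not at hcon
  have hwin : ∀ z ∈ p'.B, y < z → ∀ τ, Agr y D τ → Conf p' y z τ →
      (∃ m, y ≤ m ∧ m < z ∧ τ m = 2) → ∀ q', Ref z q' p' → Win q' {U} z τ := by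
    intro z hz hyz τ h1 h2 h3 q' hq'
    have hw := hcon z hz hyz τ h1 h2 h3
    have hzp : z ∈ p.B := hp'.sub hz hyz.le
    rcases hdec z hzp (hxy.trans hyz.le) τ with h | h
    · exact absurd hw h
    · exact h q' (hq'.trans' hp' hyz.le)
  apply hD
  -- the fusion
  obtain ⟨s, pp, b, w, r, q, _, hp0, hb0, hInv, hStep, hΦ, hbm, hqB, hblk, _, href, _, hqc⟩ :=
    fusion_principle (S := Unit) (fun _ _ p1 b => y ≤ b ∧ Ref b p1 p')
      (fun _ _ _ b _ r _ p2 b' => ∀ D'' ∈ Y, Agr y D D'' → Conf p' y b D'' → NoA y b D'' →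
        (∀ m, b ≤ m → m < b' → D'' m = r D'' m) → ConfI p2 b' D'' → D'' ∈ U)
      (by
        rintro n _ p1 b ⟨hyb, hp1⟩
        obtain ⟨w, r, p2, b', h1, h2, h3, h4⟩ := ah_step p' p1 U y b D hyb hp1 hwin
        exact ⟨w, r, (), p2, b', h1, ⟨h2, h3⟩, h4⟩)
      () p' y ⟨le_rfl, Ref.refl hp'.mem⟩
  have hqref : Ref y q p' := by
    have := href 0
    rwa [hb0, hp0] at this
  refine ⟨y, hy, le_rfl, D, Agr.refl _ _, Conf.self _ _ _, fun m h1 h2 => absurd h1 (not_le.2 h2),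
    U, rfl, q, hqref.trans hp', ?_⟩
  intro D'' hagr hY hconf
  classical
  -- the first block with a letter `2`
  have hex : ∃ n, ∃ m, b n ≤ m ∧ m < b (n + 1) ∧ D'' m = 2 := by
    obtain ⟨m, hm, hym⟩ := Set.Infinite.exists_gt hY y
    obtain ⟨i, h1, h2⟩ := ah_loc hbm (m := m) (by rw [hb0]; exact hym.le)
    exact ⟨i, m, h1, h2, hm⟩
  obtain ⟨m0, hm1, hm2, hm3⟩ := Nat.find_spec hex
  set n := Nat.find hex with hn
  have hmin : ∀ i < n, ∀ m, b i ≤ m → m < b (i + 1) → D'' m ≠ 2 := by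
    intro i hi m h1 h2 h3
    exact Nat.find_min hex hi ⟨m, h1, h2, h3⟩
  have hbn : y ≤ b n := by
    rw [← hb0]; exact hbm.monotone (Nat.zero_le n)
  have hnoA : NoA y (b n) D'' := by
    intro m h1 h2
    obtain ⟨i, h3, h4⟩ := ah_loc hbm (m := m) (by rw [hb0]; exact h1)
    refine hmin i ?_ m h3 h4
    exact hbm.lt_iff_lt.1 (h3.trans_lt h2)
  have hblkconf := hconf (b n) (b (n + 1)) (hblk n) hbn
  have hact : ∀ m, b n ≤ m → m < b (n + 1) → D'' m = r n D'' m := by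
    rcases hblkconf with ⟨ε, h⟩ | h
    · exact absurd hm3 (by rw [h m0 hm1 hm2]; exact lett_ne _)
    · intro m h1 h2
      rw [h m h1 h2, hqc n D'' m h1 h2]
  have hc1 : Conf p' y (b n) D'' := (hqref.confI hqref.mem le_rfl hconf).conf le_rfl
  have hq1 : b (n + 1) ∈ q.B := (hqB _).2 ⟨n + 1, rfl⟩
  have hc2 : ConfI (pp (n + 1)) (b (n + 1)) D'' :=
    (href (n + 1)).confI hq1 le_rfl (hconf.mono (hbn.trans (hbm.monotone (Nat.le_succ n))))
  exact hΦ n D'' hY hagr hc1 hnoA hact hc2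



end Tau555
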