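import Pool.Agent.Helper555.Tau.Api

set_option autoImplicit false

open Set Filter

namespace Tau555


/-- partial unions of finite sets -/
def FU : Type := Option (Finset ℕ)

/-- the product is the union, if the first set is below the second one -/
def fuMul : FU → FU → FU
  | some F, some G => if ∀ x ∈ F, ∀ y ∈ G, x < y then some (F ∪ G) else none
  | _, _ => none

def fuS (F : Finset ℕ) : FU := some F
def fuN : FU := none

theorem fuMul_ss (F G : Finset ℕ) :
    fuMul (fuS F) (fuS G) = if ∀ x ∈ F, ∀ y ∈ G, x < y then fuS (F ∪ G) else fuN := rfl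
theorem fuMul_n (a : FU) : fuMul a fuN = fuN := by cases a <;> rfl
theorem fuMul_n' (a : FU) : fuMul fuN a = fuN := rfl
theorem fuS_inj {F G : Finset ℕ} (h : fuS F = fuS G) : F = G := Option.some.inj h
theorem fuS_ne (F : Finset ℕ) : fuN ≠ fuS F := fun h =>
  Option.some_ne_none F (show (some F : Option (Finset ℕ)) = none from h.symm)
theorem fu_cases (a : FU) : a = fuN ∨ ∃ F, a = fuS F := by
  cases a with
  | none => exact Or.inl rfl
  | some F => exact Or.inr ⟨F, rfl⟩

theorem fuMul_assoc (a b c : FU) : fuMul (fuMul a b) c = fuMul a (fuMul b c) := by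
  rcases fu_cases a with rfl | ⟨F, rfl⟩
  · rfl
  rcases fu_cases b with rfl | ⟨G, rfl⟩
  · rw [fuMul_n, fuMul_n', fuMul_n]
  rcases fu_cases c with rfl | ⟨H, rfl⟩
  · rw [fuMul_n, fuMul_n, fuMul_n]
  rw [fuMul_ss, fuMul_ss]
  by_cases h1 : ∀ x ∈ F, ∀ y ∈ G, x < y
  · rw [if_pos h1, fuMul_ss]
    by_cases h2 : ∀ x ∈ G, ∀ y ∈ H, x < y
    · rw [if_pos h2, fuMul_ss]
      by_cases h3 : ∀ x ∈ F, ∀ y ∈ H, x < y
      · rw [if_pos, if_pos, Finset.union_assoc]
        · intro x hx y hy
          rcases Finset.mem_union.1 hy with h | h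
          · exact h1 x hx y h
          · exact h3 x hx y h
        · intro x hx y hy
          rcases Finset.mem_union.1 hx with h | h
          · exact h3 x h y hy
          · exact h2 x h y hy
      · rw [if_neg, if_neg]
        · exact fun h => h3 fun x hx y hy => h x hx y (Finset.mem_union_right _ hy)
        · exact fun h => h3 fun x hx y hy => h x (Finset.mem_union_left _ hx) y hy
    · rw [if_neg h2, fuMul_n, if_neg]
      exact fun h => h2 fun x hx y hy => h x (Finset.mem_union_right _ hx) y hy
  · rw [if_neg h1, fuMul_n']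
    by_cases h2 : ∀ x ∈ G, ∀ y ∈ H, x < y
    · rw [if_pos h2, fuMul_ss, if_neg]
      exact fun h => h1 fun x hx y hy => h x hx y (Finset.mem_union_left _ hy)
    · rw [if_neg h2, fuMul_n]

instance fuSemigroup : Semigroup FU where
  mul := fuMul
  mul_assoc := fuMul_assoc

theorem fu_mul_def (a b : FU) : a * b = fuMul a b := rfl

theorem fu_FP (a : Stream' FU) (m : FU) (h : m ∈ Hindman.FP a) :
    ∀ n : ℕ, (∀ i, a.get i = fuS {n + i}) →
      ∃ F : Finset ℕ, m = fuS F ∧ F.Nonempty ∧ ∀ x ∈ F, n ≤ x := by
  induction h with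
  | head' a =>
    intro n hn
    refine ⟨{n}, hn 0, Finset.singleton_nonempty _, ?_⟩
    intro x hx
    rw [Finset.mem_singleton] at hx
    exact hx.ge
  | tail' a m _ ih =>
    intro n hn
    obtain ⟨F, h1, h2, h3⟩ := ih (n + 1) (by
      intro i
      have := hn (i + 1)
      rw [show n + 1 + i = n + (i + 1) by ring]
      exact this)
    exact ⟨F, h1, h2, fun x hx => (Nat.le_succ n).trans (h3 x hx)⟩
  | cons' a m _ ih =>
    intro n hn
    obtain ⟨F, h1, h2, h3⟩ := ih (n + 1) (by
      intro i
      have := hn (i + 1)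
      rw [show n + 1 + i = n + (i + 1) by ring]
      exact this)
    refine ⟨{n} ∪ F, ?_, Finset.Nonempty.mono Finset.subset_union_right h2, ?_⟩
    · have h4 : a.head = fuS {n} := hn 0
      rw [h4, h1, fu_mul_def, fuMul_ss, if_pos]
      intro x hx y hy
      rw [Finset.mem_singleton] at hx
      have := h3 y hy
      omega
    · intro x hx
      rcases Finset.mem_union.1 hx with h | h
      · rw [Finset.mem_singleton] at h
        exact h.ge
      · exact (Nat.le_succ n).trans (h3 x h)

/-- Hindman's finite unions theorem. -/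
theorem finite_unions {κ : Type} [Finite κ] (χ : Finset ℕ → κ) :
    ∃ F : ℕ → Finset ℕ, (∀ i, (F i).Nonempty) ∧ (∀ i, ∀ x ∈ F i, ∀ y ∈ F (i + 1), x < y) ∧
      ∃ c : κ, ∀ I : Finset ℕ, I.Nonempty → χ (I.biUnion F) = c := by
  classical
  let a : Stream' FU := fun i => fuS {i}
  let cls : κ → Set FU := fun k => {m | ∃ F : Finset ℕ, m = fuS F ∧ F.Nonempty ∧ χ F = k}
  obtain ⟨s, ⟨c, rfl⟩, b, hb⟩ := Hindman.FP_partition_regular (M := FU) a (Set.range cls)
    (Set.finite_range _) (by
      intro m hm
      obtain ⟨F, h1, h2, -⟩ := fu_FP a m hm 0 (by intro i; rw [zero_add]; rfl)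
      exact ⟨cls (χ F), ⟨χ F, rfl⟩, ⟨F, h1, h2, rfl⟩⟩)
  have hget : ∀ i, ∃ F : Finset ℕ, b.get i = fuS F ∧ F.Nonempty ∧ χ F = c := fun i =>
    hb (Hindman.FP.singleton b i)
  choose F hF1 hF2 hF3 using hget
  refine ⟨F, hF2, ?_, c, ?_⟩
  · intro i
    obtain ⟨G, h1, -, -⟩ := hb (Hindman.FP.mul_two b i (i + 1) (Nat.lt_succ_self i))
    rw [hF1, hF1, fu_mul_def, fuMul_ss] at h1
    by_contra hcon
    rw [if_neg hcon] at h1
    exact fuS_ne _ h1
  · have hsub : ∀ j k : ℕ, j ≤ k → Hindman.FP (b.drop k) ⊆ Hindman.FP (b.drop j) := by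
      intro j k hjk
      obtain ⟨d, rfl⟩ := Nat.exists_eq_add_of_le hjk
      have := Hindman.FP_drop_subset_FP (b.drop j) d
      rw [Stream'.drop_drop] at this
      have e : d + j = j + d := add_comm d j
      first
        | exact this
        | (rw [e] at this; exact this)
    have key : ∀ n : ℕ, ∀ I : Finset ℕ, I.card = n + 1 → ∀ j, (∀ i ∈ I, j ≤ i) →
        fuS (I.biUnion F) ∈ Hindman.FP (b.drop j) := by
      intro n
      induction n with
      | zero =>
        intro I hI j hj
        obtain ⟨i, rfl⟩ := Finset.card_eq_one.1 hI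
        rw [Finset.singleton_biUnion, ← hF1]
        refine hsub j i (hj i (Finset.mem_singleton_self _)) ?_
        rw [← Stream'.head_drop]
        exact Hindman.FP.head _
      | succ n ih =>
        intro I hI j hj
        have hne : I.Nonempty := by
          rw [← Finset.card_pos, hI]; omega
        set i0 := I.min' hne with hi0
        have hmem : i0 ∈ I := I.min'_mem hne
        have hc' : (I.erase i0).card = n + 1 := by
          rw [Finset.card_erase_of_mem hmem, hI]; rfl
        have h1 := ih (I.erase i0) hc' (i0 + 1) (by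
          intro i hi
          exact Nat.succ_le_of_lt (Finset.min'_lt_of_mem_erase_min' I hne hi))
        have h2 : (b.drop i0).head * fuS ((I.erase i0).biUnion F) ∈ Hindman.FP (b.drop i0) := by
          apply Hindman.FP.cons
          rw [Stream'.tail_eq_drop, Stream'.drop_drop]
          first
            | exact h1
            | (rw [add_comm]; exact h1)
        rw [Stream'.head_drop, hF1] at h2
        obtain ⟨G, h3, -, -⟩ := hb (Hindman.FP_drop_subset_FP b i0 h2)
        rw [fu_mul_def, fuMul_ss] at h3 h2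
        have hcond : ∀ x ∈ F i0, ∀ y ∈ (I.erase i0).biUnion F, x < y := by
          by_contra hcon
          rw [if_neg hcon] at h3
          exact fuS_ne _ h3
        rw [if_pos hcond] at h2
        have h4 : F i0 ∪ (I.erase i0).biUnion F = I.biUnion F := by
          conv_rhs => rw [← Finset.insert_erase hmem]
          rw [Finset.biUnion_insert]
        rw [h4] at h2
        exact hsub j i0 (hj i0 hmem) h2
    intro I hI
    have hcard : I.card = (I.card - 1) + 1 := by
      have := Finset.card_pos.2 hI
      omega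
    obtain ⟨G, h1, -, h2⟩ := hb (Hindman.FP_drop_subset_FP b 0 (key _ I hcard 0 (fun i _ => Nat.zero_le i)))
    rw [fuS_inj h1]
    exact h2


end Tau555
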