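import Pool.Agent.Helper555.Tau.Api
import Pool.Agent.Helper555.Tau.P_exists_run

set_option autoImplicit false

open Set Filter

namespace Tau555


/-- A conforming pattern can be transferred to any other node. -/
theorem transfer (p : Cond) {x y : ℕ} (hx : x ∈ p.B) (hy : y ∈ p.B) (hxy : x ≤ y) {τ : Pt}
    (hτ : Conf p x y τ) (D : Pt) :
    ∃ τ', Agr x D τ' ∧ Conf p x y τ' ∧ ∀ m, x ≤ m → m < y → (τ' m = 2 ↔ τ m = 2) := by
  classical
  let t : ℕ → Option Bool := fun b1 =>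
    if ∃ b2, Blk p.B b1 b2 ∧ ∃ m, b1 ≤ m ∧ m < b2 ∧ τ m = 2 then none else some false
  obtain ⟨τ', hag, hrun⟩ := exists_run p hx D t
  refine ⟨τ', hag, ?_, ?_⟩
  · intro b b' hb h1 h2
    rcases hrun b b' hb h1 with ⟨hr1, hr2⟩
    rcases ht : t b with _ | ε
    · exact Or.inr (hr1 ht)
    · exact Or.inl ⟨ε, hr2 ε ht⟩
  · intro m hm hmy
    obtain ⟨b1, b2, hb, h1, h2, h3⟩ := find_blk p hx hm
    have h4 : b2 ≤ y := hb.le_of_mem hy (by omega)
    rcases hrun b1 b2 hb h1 with ⟨hr1, hr2⟩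
    by_cases ha : ∃ b2, Blk p.B b1 b2 ∧ ∃ m, b1 ≤ m ∧ m < b2 ∧ τ m = 2
    · have ht : t b1 = none := if_pos ha
      have hc := hr1 ht m h2 h3
      obtain ⟨b3, hb3, m', h5, h6, h7⟩ := ha
      have h8 : b3 ≤ b2 := hb3.le_of_mem hb.2.1 hb.2.2.1
      rcases a_iff hb (hτ b1 b2 hb h1 h4) with h9 | h9
      · exact absurd h7 (h9 m' h5 (h6.trans_le h8))
      · rw [hc]
        exact (h9 τ' m h2 h3).symm
    · have ht : t b1 = some false := if_neg ha
      have hc := hr2 false ht m h2 h3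
      constructor
      · intro h5
        rw [hc] at h5
        exact absurd h5 (lett_ne _)
      · intro h5
        exact absurd ⟨b2, hb, m, h2, h3, h5⟩ ha


end Tau555
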