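import Pool.Agent.Helper555.Tau.Api
import Pool.Agent.Helper555.Tau.P_act_unique
import Pool.Agent.Helper555.Tau.P_exists_run
import Pool.Agent.Helper555.Tau.P_transfer
import Pool.Agent.Helper555.Tau.P_step_mk
import Pool.Agent.Helper555.Tau.P_fusion
import Pool.Agent.Helper555.Tau.P_finite_unions

set_option autoImplicit false

open Set Filter

namespace Tau555



theorem hc_blk_unique {B : Set ℕ} {b b' c c' m : ℕ} (h1 : Blk B b b') (h2 : Blk B c c')
    (h3 : b ≤ m) (h4 : m < b') (h5 : c ≤ m) (h6 : m < c') : b = c ∧ b' = c' := by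
  have e1 : b ≤ c := h2.ge_of_mem h1.1 (by omega)
  have e2 : c ≤ b := h1.ge_of_mem h2.1 (by omega)
  have e3 : b = c := le_antisymm e1 e2
  have e4 : b' ≤ c' := h1.le_of_mem h2.2.1 (by omega)
  have e5 : c' ≤ b' := h2.le_of_mem h1.2.1 (by omega)
  exact ⟨e3, le_antisymm e4 e5⟩

/-- the active letters of the blocks meeting `S` -/
def hcA (p : Cond) (S : Finset ℕ) : Set ℕ :=
  {m | p.c (fun _ => 0) m = 2 ∧ ∃ b1 b2, Blk p.B b1 b2 ∧ b1 ≤ m ∧ m < b2 ∧
    ∃ m' ∈ S, b1 ≤ m' ∧ m' < b2}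

theorem hc_run (p : Cond) (S : Finset ℕ) {b y : ℕ} (hb : b ∈ p.B) (D : Pt) :
    ∃ τ, Agr b D τ ∧ Conf p b y τ ∧ ∀ m, b ≤ m → m < y → (τ m = 2 ↔ m ∈ hcA p S) := by
  classical
  obtain ⟨τ, h1, h2⟩ := exists_run p hb D
    (fun b1 => if ∃ b2, Blk p.B b1 b2 ∧ ∃ m' ∈ S, b1 ≤ m' ∧ m' < b2 then none else some false)
  refine ⟨τ, h1, ?_, ?_⟩
  · intro b1 b2 hB h3 _
    obtain ⟨h4, h5⟩ := h2 b1 b2 hB h3
    by_cases hc : ∃ b2, Blk p.B b1 b2 ∧ ∃ m' ∈ S, b1 ≤ m' ∧ m' < b2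
    · exact Or.inr (h4 (if_pos hc))
    · exact Or.inl ⟨false, h5 false (if_neg hc)⟩
  · intro m hm _
    obtain ⟨b1, b2, hB, h3, h4, h5⟩ := find_blk p hb hm
    obtain ⟨h6, h7⟩ := h2 b1 b2 hB h3
    by_cases hc : ∃ b2, Blk p.B b1 b2 ∧ ∃ m' ∈ S, b1 ≤ m' ∧ m' < b2
    · have h8 := h6 (if_pos hc) m h4 h5
      rw [h8, p.aa τ (fun _ => 0) m]
      obtain ⟨b2', hB', m', hm', h9, h10⟩ := hc
      have h11 : b2' = b2 := by
        have e1 := hB.le_of_mem hB'.2.1 hB'.2.2.1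
        have e2 := hB'.le_of_mem hB.2.1 hB.2.2.1
        omega
      subst h11
      exact ⟨fun h => ⟨h, b1, b2', hB, h4, h5, m', hm', h9, h10⟩, fun h => h.1⟩
    · have h8 := h7 false (if_neg hc) m h4 h5
      rw [h8]
      constructor
      · intro h
        exact absurd h (lett_ne _)
      · rintro ⟨_, c1, c2, hB', h9, h10, hS⟩
        obtain ⟨e1, e2⟩ := hc_blk_unique hB hB' h4 h5 h9 h10
        subst e1
        exact absurd ⟨c2, hB', hS⟩ hc

theorem hc_ex (p : Cond) (S : Finset ℕ) {b y m' : ℕ} (hb : b ∈ p.B) (hy : y ∈ p.B)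
    (hm : m' ∈ S) (h1 : b ≤ m') (h2 : m' < y) : ∃ m ∈ hcA p S, b ≤ m ∧ m < y := by
  obtain ⟨b1, b2, hB, h3, h4, h5⟩ := find_blk p hb h1
  obtain ⟨m, h6, h7, h8⟩ := p.ex b1 b2 hB (fun _ => 0)
  have h9 : b2 ≤ y := hB.le_of_mem hy (by omega)
  exact ⟨m, ⟨h8, b1, b2, hB, h6, h7, m', hm, h4, h5⟩, by omega, by omega⟩

/-- the colour of a finite set -/
def hcC (p : Cond) (x : ℕ) (G : ℕ → Pt → Prop) (S : Finset ℕ) : Set ↥(Set.range (trunc x)) :=
  {s | ∃ y ∈ p.B, x < y ∧ (∀ m ∈ S, m < y) ∧ ∃ τ, Agr x s.1 τ ∧ Conf p x y τ ∧ G y τ ∧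
    ∀ m, x ≤ m → m < y → (τ m = 2 ↔ m ∈ hcA p S)}

/-- Homogeneous continuation lemma (from the finite unions theorem). -/
theorem HC (p : Cond) (x : ℕ) (hx : x ∈ p.B) (V : Set Pt) (G : ℕ → Pt → Prop)
    (hG : ∀ y D D', Agr y D D' → G y D → G y D')
    (hG' : ∀ y ∈ p.B, x ≤ y → ∀ z ∈ p.B, y ≤ z → ∀ D, G y D → Conf p y z D → NoA y z D → G z D)
    (H : ∀ σ ∈ V, ∀ p', Ref x p' p → ∃ y ∈ p'.B, x < y ∧ ∃ τ, Agr x σ τ ∧ Conf p' x y τ ∧
      (∃ m, x ≤ m ∧ m < y ∧ τ m = 2) ∧ G y τ) :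
    ∃ y ∈ p.B, x < y ∧ ∃ A : Set ℕ, (∃ m ∈ A, x ≤ m ∧ m < y) ∧
      ∀ σ, ∃ τ, Agr x σ τ ∧ Conf p x y τ ∧ (∀ m, x ≤ m → m < y → (τ m = 2 ↔ m ∈ A)) ∧
        (σ ∈ V → G y τ) := by
  classical
  have hfin : Finite ↥(Set.range (trunc x)) := (finite_trunc x).to_subtype
  obtain ⟨F, hne, hlt, c, hc⟩ := finite_unions (hcC p x G)
  have hge : ∀ i, ∀ a ∈ F i, i ≤ a := by
    intro i
    induction i with
    | zero => intro a _; exact Nat.zero_le a
    | succ i ih =>
      intro a ha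
      obtain ⟨b, hb⟩ := hne i
      have := ih b hb
      have := hlt i b hb a ha
      omega
  -- the boundaries
  have hnx : ∀ b : ℕ, ∃ y ∈ p.B, ∀ m ∈ F b, m < y := by
    intro b
    obtain ⟨y, hy, h1⟩ := exists_next p ((F b).sup id)
    refine ⟨y, hy, fun m hm => ?_⟩
    have : m ≤ (F b).sup id := Finset.le_sup (f := id) hm
    omega
  choose nx hnxB hnxF using hnx
  set e : ℕ → ℕ := fun n => Nat.rec x (fun _ z => nx z) n with he
  have he0 : e 0 = x := rfl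
  have heS : ∀ n, e (n + 1) = nx (e n) := fun n => rfl
  have heB : ∀ n, e n ∈ p.B := by
    intro n
    cases n with
    | zero => exact hx
    | succ n => rw [heS]; exact hnxB _
  have heF : ∀ n, ∀ m ∈ F (e n), e n ≤ m ∧ m < e (n + 1) := by
    intro n m hm
    exact ⟨hge _ m hm, by rw [heS]; exact hnxF _ m hm⟩
  have helt : ∀ n, e n < e (n + 1) := by
    intro n
    obtain ⟨m, hm⟩ := hne (e n)
    have := heF n m hm
    omega
  have hemono : StrictMono e := strictMono_nat_of_lt_succ helt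
  -- the steps
  have hstep : ∀ n, ∃ r : Pt → Pt, StepOK p (e n) (e (n + 1)) p.h r p ∧
      (∀ D, (fun _ _ : Pt => True) (trunc (e n) D) (r D)) ∧
      (∀ D m, e n ≤ m → m < e (n + 1) → (r D m = 2 ↔ m ∈ hcA p (F (e n)))) := by
    intro n
    refine step_mk p (heB n) (heB (n + 1)) (helt n) p.h (HW.self p _ _) p (Ref.refl (heB (n + 1)))
      (hcA p (F (e n))) ?_ (fun _ _ => True) ?_
    · obtain ⟨m', hm'⟩ := hne (e n)
      have h1 := heF n m' hm'
      exact hc_ex p _ (heB n) (heB (n + 1)) hm' h1.1 h1.2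
    · intro D
      obtain ⟨τ, h1, h2, h3⟩ := hc_run p (F (e n)) (y := e (n + 1)) (heB n) D
      exact ⟨τ, h1, h2, h3, trivial⟩
  choose r hr1 _ hr2 using hstep
  obtain ⟨q, _, hqB, hqblk, _, hqref, _, hqc⟩ := fusion (fun _ => p) e (fun _ => p.h) r hr1
  -- locate a position
  have hloc : ∀ n m, x ≤ m → m < e n → ∃ i < n, e i ≤ m ∧ m < e (i + 1) := by
    intro n
    induction n with
    | zero => intro m h1 h2; rw [he0] at h2; omega
    | succ n ih =>
      intro m h1 h2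
      by_cases h3 : m < e n
      · obtain ⟨i, hi, h4⟩ := ih m h1 h3
        exact ⟨i, by omega, h4⟩
      · exact ⟨n, by omega, by omega, h2⟩
  have huniq : ∀ i k m, e i ≤ m → m < e (i + 1) → e k ≤ m → m < e (k + 1) → i = k := by
    intro i k m h1 h2 h3 h4
    rcases lt_trichotomy i k with h | h | h
    · have := hemono.monotone (show i + 1 ≤ k from h)
      omega
    · exact h
    · have := hemono.monotone (show k + 1 ≤ i from h)
      omega
  -- all truncations are in the colour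
  have hcol : ∀ σ ∈ V, (⟨trunc x σ, ⟨σ, rfl⟩⟩ : ↥(Set.range (trunc x))) ∈ c := by
    intro σ hσ
    have href : Ref x q p := hqref 0
    obtain ⟨y, hy, hxy, τ, h1, h2, ⟨m0, hm0, hm1, hm2⟩, h4⟩ := H σ hσ q href
    obtain ⟨n, rfl⟩ := (hqB y).1 hy
    set I : Finset ℕ := (Finset.range n).filter (fun i => ∃ m, e i ≤ m ∧ m < e (i + 1) ∧ τ m = 2)
      with hI
    have hIne : I.Nonempty := by
      obtain ⟨i, hi, h5, h6⟩ := hloc n m0 hm0 hm1
      exact ⟨i, Finset.mem_filter.2 ⟨Finset.mem_range.2 hi, m0, h5, h6, hm2⟩⟩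
    rw [← hc (I.image e) (hIne.image e)]
    have hmem : ∀ m, m ∈ (I.image e).biUnion F ↔ ∃ k ∈ I, m ∈ F (e k) := by
      intro m
      simp only [Finset.mem_biUnion, Finset.mem_image]
      constructor
      · rintro ⟨_, ⟨k, hk, rfl⟩, hm⟩
        exact ⟨k, hk, hm⟩
      · rintro ⟨k, hk, hm⟩
        exact ⟨_, ⟨k, hk, rfl⟩, hm⟩
    -- an element of the active set lies in the right interval
    have hkey : ∀ i m, e i ≤ m → m < e (i + 1) → m ∈ hcA p ((I.image e).biUnion F) →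
        i ∈ I ∧ m ∈ hcA p (F (e i)) := by
      intro i m h5 h6 hm
      obtain ⟨h7, b1, b2, hB, h8, h9, m', hm', h10, h11⟩ := hm
      obtain ⟨k, hk, hk2⟩ := (hmem m').1 hm'
      have h12 := heF k m' hk2
      have h13 : e k ≤ b1 := hB.ge_of_mem (heB k) (by omega)
      have h14 : b2 ≤ e (k + 1) := hB.le_of_mem (heB (k + 1)) (by omega)
      have h15 : i = k := huniq i k m h5 h6 (by omega) (by omega)
      subst h15
      exact ⟨hk, h7, b1, b2, hB, h8, h9, m', hk2, h10, h11⟩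
    refine ⟨e n, heB n, hxy, ?_, τ, (agr_trunc x σ).symm.trans h1,
      href.conf href.mem hy le_rfl h2, h4, ?_⟩
    · intro m hm
      obtain ⟨k, hk, hk2⟩ := (hmem m).1 hm
      have h5 := heF k m hk2
      have h6 : k < n := Finset.mem_range.1 (Finset.mem_filter.1 hk).1
      have := hemono.monotone (show k + 1 ≤ n from h6)
      omega
    · intro m h5 h6
      obtain ⟨i, hi, h7, h8⟩ := hloc n m h5 h6
      have hcf : conf q (e i) (e (i + 1)) τ := by
        apply h2 _ _ (hqblk i)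
        · rw [← he0]; exact hemono.monotone (Nat.zero_le i)
        · exact hemono.monotone (show i + 1 ≤ n from hi)
      rcases a_iff (hqblk i) hcf with h9 | h9
      · constructor
        · intro h; exact absurd h (h9 m h7 h8)
        · intro h
          obtain ⟨h10, _⟩ := hkey i m h7 h8 h
          obtain ⟨_, m', h11, h12, h13⟩ := Finset.mem_filter.1 h10
          exact absurd h13 (h9 m' h11 h12)
      · have h10 : τ m = 2 ↔ m ∈ hcA p (F (e i)) := by
          rw [h9 (fun _ => 0) m h7 h8, hqc i _ m h7 h8]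
          exact hr2 i _ m h7 h8
        have hiI : i ∈ I := by
          obtain ⟨m', h11, h12, h13⟩ := q.ex _ _ (hqblk i) (fun _ => 0)
          exact Finset.mem_filter.2 ⟨Finset.mem_range.2 hi, m', h11, h12,
            (h9 (fun _ => 0) m' h11 h12).2 h13⟩
        rw [h10]
        constructor
        · rintro ⟨h11, b1, b2, hB, h12, h13, m', hm', h14, h15⟩
          exact ⟨h11, b1, b2, hB, h12, h13, m', (hmem m').2 ⟨i, hiI, hm'⟩, h14, h15⟩
        · intro h
          exact (hkey i m h7 h8 h).2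
  have hcx : hcC p x G (F x) = c := by
    have := hc {x} (Finset.singleton_nonempty x)
    rwa [Finset.singleton_biUnion] at this
  rw [← hcx] at hcol
  -- a common bound
  have hbd : ∃ N : ℕ, ∀ s ∈ hcC p x G (F x), ∃ y ∈ p.B, x < y ∧ y ≤ N ∧ (∀ m ∈ F x, m < y) ∧
      ∃ τ, Agr x s.1 τ ∧ Conf p x y τ ∧ G y τ ∧
        ∀ m, x ≤ m → m < y → (τ m = 2 ↔ m ∈ hcA p (F x)) := by
    have h1 : ∀ s : ↥(Set.range (trunc x)), ∃ y : ℕ, s ∈ hcC p x G (F x) →
        y ∈ p.B ∧ x < y ∧ (∀ m ∈ F x, m < y) ∧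
        ∃ τ, Agr x s.1 τ ∧ Conf p x y τ ∧ G y τ ∧
          ∀ m, x ≤ m → m < y → (τ m = 2 ↔ m ∈ hcA p (F x)) := by
      intro s
      by_cases hs : s ∈ hcC p x G (F x)
      · obtain ⟨y, hy, h⟩ := hs
        exact ⟨y, fun _ => ⟨hy, h⟩⟩
      · exact ⟨0, fun h => absurd h hs⟩
    choose Yf hYf using h1
    obtain ⟨N, hN⟩ := (Set.finite_range Yf).bddAbove
    refine ⟨N, fun s hs => ?_⟩
    obtain ⟨h2, h3, h4, h5⟩ := hYf s hs
    exact ⟨Yf s, h2, h3, hN ⟨s, rfl⟩, h4, h5⟩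
  obtain ⟨N, hN⟩ := hbd
  obtain ⟨y, hy, hyN⟩ := exists_next p (max N (max x ((F x).sup id)))
  have hyN1 : N < y := lt_of_le_of_lt (le_max_left _ _) hyN
  have hyx : x < y := lt_of_le_of_lt ((le_max_left _ _).trans (le_max_right _ _)) hyN
  have hyF : ∀ m ∈ F x, m < y := by
    intro m hm
    have h1 : m ≤ (F x).sup id := Finset.le_sup (f := id) hm
    have h2 : (F x).sup id ≤ max N (max x ((F x).sup id)) :=
      (le_max_right _ _).trans (le_max_right _ _)
    omega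
  refine ⟨y, hy, hyx, hcA p (F x), ?_, ?_⟩
  · obtain ⟨m', hm'⟩ := hne x
    exact hc_ex p _ hx hy hm' (hge x m' hm') (hyF m' hm')
  · intro σ
    by_cases hσ : σ ∈ V
    · obtain ⟨z, hz, hxz, hzN, hzF, τ, h1, h2, h3, h4⟩ := hN _ (hcol σ hσ)
      have h1' : Agr x σ τ := (agr_trunc x σ).trans h1
      obtain ⟨τ', h5, h6⟩ := exists_run p hz τ (fun _ => some false)
      have hzy : z ≤ y := by omega
      have h7 : ∀ b1 b2, Blk p.B b1 b2 → z ≤ b1 → ∀ m, b1 ≤ m → m < b2 →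
          τ' m = lett (xor (p.h m) false) := fun b1 b2 hB hb => (h6 b1 b2 hB hb).2 false rfl
      have hcf : Conf p z y τ' := fun b1 b2 hB hb _ => Or.inl ⟨false, h7 b1 b2 hB hb⟩
      have hno : ∀ m, z ≤ m → τ' m ≠ 2 := by
        intro m hm
        obtain ⟨b1, b2, hB, h8, h9, h10⟩ := find_blk p hz hm
        rw [h7 b1 b2 hB h8 m h9 h10]
        exact lett_ne _
      refine ⟨τ', h1'.trans (h5.mono hxz.le), (h2.congr h5).trans hz hcf, ?_, fun _ => ?_⟩
      · intro m h8 h9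
        by_cases h10 : m < z
        · rw [← h5 m h10]
          exact h4 m h8 h10
        · constructor
          · intro h; exact absurd h (hno m (by omega))
          · rintro ⟨_, b1, b2, hB, h11, h12, m', hm', h13, h14⟩
            have h15 := hzF m' hm'
            have h16 := hB.le_of_mem hz (by omega)
            omega
      · exact hG' z hz hxz.le y hy hzy τ' (hG z τ τ' h5 h3) hcf (fun m h8 _ => hno m h8)
    · obtain ⟨τ, h1, h2, h3⟩ := hc_run p (F x) (y := y) hx σ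
      exact ⟨τ, h1, h2, h3, fun h => absurd h hσ⟩


end Tau555
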