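import Pool.Agent.Helper555.Tau.Api
import Pool.Agent.Helper555.Tau.P_act_unique
import Pool.Agent.Helper555.Tau.P_exists_run
import Pool.Agent.Helper555.Tau.P_step_mk
import Pool.Agent.Helper555.Tau.P_fusion_principle

set_option autoImplicit false

open Set Filter

namespace Tau555


/-- decided at a position -/
def DecAt (P : Cond → ℕ → Pt → Prop) (q : Cond) (y : ℕ) : Prop :=
  ∀ D, P q y D ∨ ∀ q', Ref y q' q → ¬ P q' y D

theorem DecAt.ref {P : Cond → ℕ → Pt → Prop}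
    (hP' : ∀ p q x D, Ref x q p → P p x D → P q x D) {q q' : Cond} {y : ℕ}
    (h : Ref y q' q) (hd : DecAt P q y) : DecAt P q' y := by
  intro D
  rcases hd D with h1 | h1
  · exact Or.inl (hP' _ _ _ _ h h1)
  · exact Or.inr fun q'' h2 => h1 q'' (h2.trans h)

theorem decision_finset (P : Cond → ℕ → Pt → Prop)
    (hP' : ∀ p q x D, Ref x q p → P p x D → P q x D)
    (p : Cond) (y : ℕ) (hy : y ∈ p.B) (F : Finset Pt) :
    ∃ p', Ref y p' p ∧ ∀ σ ∈ F, P p' y σ ∨ ∀ q', Ref y q' p' → ¬ P q' y σ := by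
  classical
  induction F using Finset.induction_on with
  | empty => exact ⟨p, Ref.refl hy, fun σ hσ => absurd hσ (Finset.notMem_empty σ)⟩
  | insert σ F _ ih =>
    obtain ⟨p', h1, h2⟩ := ih
    by_cases h : ∃ q', Ref y q' p' ∧ P q' y σ
    · obtain ⟨q', h3, h4⟩ := h
      refine ⟨q', h3.trans h1, fun τ hτ => ?_⟩
      rcases Finset.mem_insert.1 hτ with rfl | hτ
      · exact Or.inl h4
      · rcases h2 τ hτ with h5 | h5
        · exact Or.inl (hP' _ _ _ _ h3 h5)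
        · exact Or.inr fun q'' h6 => h5 q'' (h6.trans h3)
    · refine ⟨p', h1, fun τ hτ => ?_⟩
      rcases Finset.mem_insert.1 hτ with rfl | hτ
      · exact Or.inr fun q' h3 h4 => h ⟨q', h3, h4⟩
      · exact h2 τ hτ

theorem decision_one (P : Cond → ℕ → Pt → Prop)
    (hP : ∀ p x D D', Agr x D D' → P p x D → P p x D')
    (hP' : ∀ p q x D, Ref x q p → P p x D → P q x D)
    (p : Cond) (y : ℕ) (hy : y ∈ p.B) : ∃ p', Ref y p' p ∧ DecAt P p' y := by
  obtain ⟨p', h1, h2⟩ := decision_finset P hP' p y hy (finite_trunc y).toFinset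
  refine ⟨p', h1, fun D => ?_⟩
  rcases h2 (trunc y D) ((Set.Finite.mem_toFinset _).2 ⟨D, rfl⟩) with h3 | h3
  · exact Or.inl (hP _ _ _ _ (agr_trunc y D).symm h3)
  · exact Or.inr fun q' h4 h5 => h3 q' h4 (hP _ _ _ _ (agr_trunc y D) h5)

theorem decision_step (P : Cond → ℕ → Pt → Prop)
    (hP : ∀ p x D D', Agr x D D' → P p x D → P p x D')
    (hP' : ∀ p q x D, Ref x q p → P p x D → P q x D)
    (p : Cond) (b : ℕ) (hb : b ∈ p.B) :
    ∃ (w : ℕ → Bool) (r : Pt → Pt) (p' : Cond) (b' : ℕ),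
      StepOK p b b' w r p' ∧ b' ∈ p'.B ∧ DecAt P p' b' := by
  obtain ⟨b', hblk⟩ := exists_blk p hb
  obtain ⟨p', h1, h2⟩ := decision_one P hP hP' p b' hblk.2.1
  obtain ⟨r, hr, -⟩ := step_mk p hb hblk.2.1 hblk.2.2.1 p.h (HW.self p b b') p' h1
    {m | p.c (fun _ => 0) m = 2}
    (by
      obtain ⟨m, h3, h4, h5⟩ := p.ex b b' hblk (fun _ => 0)
      exact ⟨m, h5, h3, h4⟩) (fun _ _ => True)
    (by
      intro D
      obtain ⟨D', h3, h4⟩ := exists_run p hb D (fun _ => none)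
      refine ⟨D', h3, ?_, ?_, trivial⟩
      · intro b1 b2 hb12 h5 _
        exact Or.inr ((h4 b1 b2 hb12 h5).1 rfl)
      · intro m h5 h6
        rw [(h4 b b' hblk le_rfl).1 rfl m h5 h6]
        exact p.aa _ _ m)
  exact ⟨p.h, r, p', b', hr, h1.mem, h2⟩

/-- Decision lemma. -/
theorem decision (P : Cond → ℕ → Pt → Prop)
    (hP : ∀ p x D D', Agr x D D' → P p x D → P p x D')
    (hP' : ∀ p q x D, Ref x q p → P p x D → P q x D)
    (p : Cond) (x : ℕ) (hx : x ∈ p.B) :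
    ∃ q, Ref x q p ∧ ∀ y ∈ q.B, x ≤ y → ∀ D, P q y D ∨ ∀ q', Ref y q' q → ¬ P q' y D := by
  obtain ⟨pp, hpp, hd⟩ := decision_one P hP hP' p x hx
  obtain ⟨s, p₁, b, w, r, q, -, hp0, hb0, hInv, -, -, -, hqB, -, -, hRef, -, -⟩ :=
    fusion_principle (S := Unit) (fun _ _ p b => b ∈ p.B ∧ DecAt P p b)
      (fun _ _ _ _ _ _ _ _ _ => True)
      (by
        intro n s p b hInv
        obtain ⟨w, r, p', b', h1, h2, h3⟩ := decision_step P hP hP' p b hInv.1
        exact ⟨w, r, (), p', b', h1, ⟨h2, h3⟩, trivial⟩)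
      () pp x ⟨hpp.mem, hd⟩
  refine ⟨q, ?_, ?_⟩
  · have h := hRef 0
    rw [hp0, hb0] at h
    exact h.trans hpp
  · intro y hy _
    obtain ⟨n, rfl⟩ := (hqB y).1 hy
    exact (hInv n).2.ref hP' (hRef n)


end Tau555
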