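import Pool.Agent.Helper555.Tau.Api
import Pool.Agent.Helper555.Tau.P_act_unique
import Pool.Agent.Helper555.Tau.P_exists_run
import Pool.Agent.Helper555.Tau.P_step_mk
import Pool.Agent.Helper555.Tau.P_fusion
import Pool.Agent.Helper555.Tau.P_decision
import Pool.Agent.Helper555.Tau.P_HC
import Pool.Agent.Helper555.Tau.P_AH

set_option autoImplicit false

open Set Filter

namespace Tau555


theorem avoid_open {U : Set Pt} (hU : IsOpen U) {D : Pt} (hD : D ∈ U) :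
    ∃ M, ∀ D', Agr M D D' → D' ∈ U := by
  rw [isOpen_pi_iff] at hU
  obtain ⟨I, u, hu, hsub⟩ := hU D hD
  refine ⟨I.sup id + 1, fun D' h => hsub ?_⟩
  intro a ha
  have h1 : a ≤ I.sup id := Finset.le_sup (f := id) ha
  rw [← h a (by omega)]
  exact (hu a ha).2

/-- Avoidance lemma. -/
theorem avoid (p : Cond) (x : ℕ) (hx : x ∈ p.B) (U : Set Pt) (hU : IsOpen U) (V : Set Pt)
    (hV : ∀ D ∈ V, ¬ Win p {U} x D) :
    ∃ q, Ref x q p ∧ ∀ D ∈ V, ∀ D' ∈ Y, Agr x D D' → ConfI q x D' → D' ∉ U := by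
  obtain ⟨p1, hp1, hdec0⟩ := decision (fun p y D => ¬ Win p {U} y D)
    (fun p x D D' h hn hw => hn (hw.congr h.symm))
    (fun p q x D hr hn hw => hn (hw.ref hr)) p x hx
  have hdec : ∀ y ∈ p1.B, x ≤ y → ∀ D, ¬ Win p1 {U} y D ∨ ∀ q', Ref y q' p1 → Win q' {U} y D := by
    intro y hy hxy D
    rcases hdec0 y hy hxy D with h | h
    · exact Or.inl h
    · exact Or.inr fun q' hq' => not_not.1 (h q' hq')
  have hhid : ∀ y ∈ p1.B, ∀ z ∈ p1.B, y ≤ z → ∀ D, ¬ Win p1 {U} y D → Conf p1 y z D →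
      NoA y z D → ¬ Win p1 {U} z D := by
    intro y _ z hz hyz D hn hc hno hw
    exact hn (hw.hidden hyz hz (Agr.refl _ _) hc hno)
  have hnext : ∀ b : {b // b ∈ p1.B ∧ x ≤ b}, ∃ y : {b // b ∈ p1.B ∧ x ≤ b}, b.1 < y.1 ∧
      ∃ A : Set ℕ, (∃ m ∈ A, b.1 ≤ m ∧ m < y.1) ∧
      ∀ σ, ∃ τ, Agr b.1 σ τ ∧ Conf p1 b.1 y.1 τ ∧
        (∀ m, b.1 ≤ m → m < y.1 → (τ m = 2 ↔ m ∈ A)) ∧
        (¬ Win p1 {U} b.1 σ → ¬ Win p1 {U} y.1 τ) := by
    rintro ⟨b, hb, hxb⟩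
    obtain ⟨y, hy, hby, A, hA, h⟩ := HC p1 b hb {D | ¬ Win p1 {U} b D}
      (fun y D => ¬ Win p1 {U} y D)
      (fun y D D' h hn hw => hn (hw.congr h.symm))
      (fun y hy _ z hz hyz D hn hc hno => hhid y hy z hz hyz D hn hc hno)
      (fun σ hσ p' hp' => AH p1 U x hdec b hb hxb σ hσ p' hp')
    exact ⟨⟨y, hy, hxb.trans hby.le⟩, hby, A, hA, h⟩
  choose nxt hlt A hA hcont using hnext
  let s : ℕ → {b // b ∈ p1.B ∧ x ≤ b} := fun n =>
    Nat.rec ⟨x, hp1.mem, le_rfl⟩ (fun _ b => nxt b) n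
  have hs : ∀ n, s (n + 1) = nxt (s n) := fun n => rfl
  have hs0 : (s 0).1 = x := rfl
  have hstep : ∀ n, ∃ r : Pt → Pt, StepOK p1 (s n).1 (s (n + 1)).1 p1.h r p1 ∧
      (∀ D, (¬ Win p1 {U} (s n).1 (trunc (s n).1 D) → ¬ Win p1 {U} (s (n + 1)).1 (r D))) := by
    intro n
    obtain ⟨r, h1, h2, _⟩ := step_mk p1 (s n).2.1 (s (n + 1)).2.1
      (by rw [hs]; exact hlt (s n)) p1.h (HW.self _ _ _) p1 (Ref.refl (s (n + 1)).2.1)
      (A (s n)) (by rw [hs]; exact hA (s n))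
      (fun D τ => ¬ Win p1 {U} (s n).1 D → ¬ Win p1 {U} (s (n + 1)).1 τ)
      (by intro D; rw [hs]; exact hcont (s n) D)
    exact ⟨r, h1, h2⟩
  choose r hr1 hr2 using hstep
  obtain ⟨q, hmono, hqB, hblk, _, href, hqh, hqc⟩ := fusion (fun _ => p1) (fun n => (s n).1)
    (fun _ => p1.h) r hr1
  have hrefx : Ref x q p1 := href 0
  refine ⟨q, hrefx.trans hp1, ?_⟩
  intro D hD D' _ hag hconf hDU
  have hind : ∀ n, ¬ Win p1 {U} (s n).1 D' := by
    intro n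
    induction n with
    | zero =>
      intro hw
      exact hV D hD ((hw.ref hp1).congr hag.symm)
    | succ n ih =>
      have hc := hconf _ _ (hblk n) (s n).2.2
      have hle : (s n).1 ≤ (s (n + 1)).1 := hmono.monotone (Nat.le_succ n)
      rcases hc with ⟨ε, hε⟩ | hc
      · have h1 : ∀ m, (s n).1 ≤ m → m < (s (n + 1)).1 → D' m = lett (xor (p1.h m) ε) := by
          intro m h2 h3
          rw [hε m h2 h3, hqh n m h2 h3]
        exact hhid _ (s n).2.1 _ (s (n + 1)).2.1 hle D' ih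
          ((HW.self p1 _ _).conf h1) (noA_of_lett h1)
      · have h1 : Agr (s (n + 1)).1 (r n D') D' := by
          intro m hm
          by_cases h2 : m < (s n).1
          · exact ((hr1 n).agr D' m h2).symm
          · rw [hc m (not_lt.1 h2) hm, hqc n D' m (not_lt.1 h2) hm]
        have h2 := hr2 n D' (fun hw => ih (hw.congr (agr_trunc _ _).symm))
        exact fun hw => h2 (hw.congr h1.symm)
  obtain ⟨M, hM⟩ := avoid_open hU hDU
  have hMs : M ≤ (s M).1 := hmono.id_le M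
  apply hind M
  refine ⟨(s M).1, (s M).2.1, le_rfl, D', Agr.refl _ _, Conf.self _ _ _, ?_, U,
    Set.mem_singleton U, p1, Ref.refl (s M).2.1, ?_⟩
  · intro m h1 h2
    omega
  · intro D'' h1 _ _
    exact hM D'' (h1.mono hMs)


end Tau555
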