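import Pool.Agent.Helper555.Tau.Api
import Pool.Agent.Helper555.Tau.P_exists_run

set_option autoImplicit false

open Set Filter

namespace Tau555


/-- The positions of the letter `2` decrease (eventually) under refinement. -/
theorem cset {q p : Cond} (h : LEs q p) : ∃ M, ∀ m ≥ M, ∀ D, q.c D m = 2 → p.c D m = 2 := by
  obtain ⟨x, hx⟩ := h
  refine ⟨x, fun m hm D hD => ?_⟩
  obtain ⟨b1, b2, hb, hxb1, hb1m, hmb2⟩ := find_blk q hx.mem hm
  obtain ⟨D', hD'1, hD'2⟩ := exists_run q hb.1 D (fun _ => none)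
  have h1 : ∀ m, b1 ≤ m → m < b2 → D' m = q.c D' m := (hD'2 b1 b2 hb le_rfl).1 rfl
  have h2 : D' m = 2 := by
    rw [h1 m hb1m hmb2]
    exact (q.aa D D' m).1 hD
  have h3 : Conf p b1 b2 D' := hx.2.2 b1 b2 hb hxb1 D' (Or.inr h1)
  have b1p : b1 ∈ p.B := hx.sub hb.1 hxb1
  have b2p : b2 ∈ p.B := hx.sub hb.2.1 (hxb1.trans hb.2.2.1.le)
  obtain ⟨c1, c2, hc, h4, h5, h6⟩ := find_blk p b1p hb1m
  have h7 := h3 c1 c2 hc h4 (hc.le_of_mem b2p (lt_of_le_of_lt h5 hmb2))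
  rcases a_iff hc h7 with h8 | h8
  · exact absurd h2 (h8 m h5 h6)
  · exact (h8 D m h5 h6).1 h2


end Tau555
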