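import Pool.Agent.Helper555.Tau.Api

set_option autoImplicit false

open Set Filter

namespace Tau555


theorem ec_cset {p : Cond} {D : Pt} (h : EC p D) : ∃ M, ∀ m ≥ M, D m = 2 → ∀ D', p.c D' m = 2 := by
  obtain ⟨b, hb, hD⟩ := h
  refine ⟨b, fun m hm hm2 D' => ?_⟩
  obtain ⟨b1, b2, hblk, h1, h2, h3⟩ := find_blk p hb hm
  rcases a_iff hblk (hD b1 b2 hblk h1) with h4 | h4
  · exact absurd hm2 (h4 m h2 h3)
  · exact (h4 D' m h2 h3).1 hm2


end Tau555
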