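import Pool.Agent.Helper555.Tau.Api

set_option autoImplicit false

open Set Filter

namespace Tau555


/-- Under CH: a well-order with countable initial segments that maps onto every nonempty type
of size at most the continuum. -/
theorem exists_index (h : Cardinal.aleph 1 = Cardinal.continuum) :
    ∃ (ι : Type) (_ : LinearOrder ι) (_ : WellFoundedLT ι), (∀ β : ι, (Set.Iio β).Countable) ∧
      ∀ T : Type, Nonempty T → Cardinal.mk T ≤ Cardinal.continuum →
        ∃ f : ι → T, Function.Surjective f := by
  have h0 : Cardinal.aleph.{0} 1 = Cardinal.continuum.{0} := by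
    apply Cardinal.lift_injective
    rw [Cardinal.lift_aleph, Cardinal.lift_continuum, Ordinal.lift_one]
    exact h
  refine ⟨(Cardinal.aleph.{0} 1).ord.ToType, inferInstance, inferInstance, ?_, ?_⟩
  · intro β
    have h1 := Cardinal.mk_Iio_lt β (by simp)
    rw [Cardinal.mk_ord_toType] at h1
    have h2 : Cardinal.mk (Set.Iio β) < Order.succ Cardinal.aleph0 := by
      rw [Cardinal.succ_aleph0]; exact h1
    exact Cardinal.le_aleph0_iff_set_countable.1 (Order.lt_succ_iff.1 h2)
  · intro T hT hle
    have h2 : Cardinal.mk T ≤ Cardinal.mk (Cardinal.aleph 1).ord.ToType := by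
      rw [Cardinal.mk_ord_toType, h0]
      exact hle
    obtain ⟨i⟩ := (Cardinal.le_def _ _).1 h2
    exact ⟨Function.invFun i, Function.invFun_surjective i.injective⟩


end Tau555
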