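import Pool.Agent.Helper555.Tau.Api
import Pool.Agent.Helper555.Tau.P_exists_run
import Pool.Agent.Helper555.Tau.P_step_mk
import Pool.Agent.Helper555.Tau.P_fusion

set_option autoImplicit false

open Set Filter

namespace Tau555


theorem step_all (p : Cond) {b b' : ℕ} (hb : b ∈ p.B) (hb' : b' ∈ p.B) (hlt : b < b')
    (p' : Cond) (hp' : Ref b' p' p) : ∃ r : Pt → Pt, StepOK p b b' p.h r p' := by
  obtain ⟨c, hc⟩ := exists_blk p hb
  obtain ⟨r, hr, _, _⟩ := step_mk p hb hb' hlt p.h (HW.self p b b') p' hp'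
    {m | p.c (fun _ => 0) m = 2}
    (by
      obtain ⟨m, h1, h2, h3⟩ := p.ex b c hc (fun _ => 0)
      exact ⟨m, h3, h1, h2.trans_le (hc.le_of_mem hb' hlt)⟩)
    (fun _ _ => True)
    (by
      intro D
      obtain ⟨D', h1, h2⟩ := exists_run p hb D (fun _ => none)
      refine ⟨D', h1, ?_, ?_, trivial⟩
      · intro b1 b2 hB h3 _
        exact Or.inr ((h2 b1 b2 hB h3).1 rfl)
      · intro m h3 _
        obtain ⟨b1, b2, hB, h5, h6, h7⟩ := find_blk p hb h3
        rw [(h2 b1 b2 hB h5).1 rfl m h6 h7]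
        exact p.aa _ _ _)
  exact ⟨r, hr⟩

theorem lower_bound {ι : Type} [Countable ι] (P : ι → Cond)
    (hP : ∀ i j, LEs (P i) (P j) ∨ LEs (P j) (P i)) : ∃ q, ∀ i, LEs q (P i) := by
  classical
  rcases isEmpty_or_nonempty ι with he | hne
  · exact ⟨p0, fun i => he.elim i⟩
  obtain ⟨e, he⟩ := exists_surjective_nat ι
  let s : ℕ → ι := fun n => Nat.rec (e 0)
    (fun n i => if LEs (P i) (P (e (n + 1))) then i else e (n + 1)) n
  have s0 : s 0 = e 0 := rfl
  have s1 : ∀ n, s (n + 1) = if LEs (P (s n)) (P (e (n + 1))) then s n else e (n + 1) :=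
    fun n => rfl
  have hdec : ∀ n, LEs (P (s (n + 1))) (P (s n)) := by
    intro n
    rw [s1]
    split_ifs with h
    · exact LEs.refl _
    · exact (hP (s n) (e (n + 1))).resolve_left h
  have hle : ∀ n, LEs (P (s n)) (P (e n)) := by
    intro n
    cases n with
    | zero => rw [s0]; exact LEs.refl _
    | succ n =>
      rw [s1]
      split_ifs with h
      · exact h
      · exact LEs.refl _
  choose x hx using hdec
  obtain ⟨b00, hb00, _⟩ := exists_next (P (s 0)) 0
  have hnext : ∀ n (y : ℕ), ∃ z ∈ (P (s (n + 1))).B, max y (x n) < z :=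
    fun n y => exists_next _ _
  choose f hf1 hf2 using hnext
  let b : ℕ → ℕ := fun n => Nat.rec b00 (fun n y => f n y) n
  have hb1 : ∀ n, b (n + 1) = f n (b n) := fun n => rfl
  have hbB : ∀ n, b n ∈ (P (s n)).B := by
    intro n
    cases n with
    | zero => exact hb00
    | succ n => rw [hb1]; exact hf1 n (b n)
  have hlt : ∀ n, b n < b (n + 1) := by
    intro n
    rw [hb1]; exact (le_max_left _ _).trans_lt (hf2 n (b n))
  have hxb : ∀ n, x n ≤ b (n + 1) := by
    intro n
    rw [hb1]; exact ((le_max_right _ _).trans_lt (hf2 n (b n))).le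
  have href : ∀ n, Ref (b (n + 1)) (P (s (n + 1))) (P (s n)) :=
    fun n => (hx n).mono (hbB (n + 1)) (hxb n)
  have hstep : ∀ n, ∃ r : Pt → Pt, StepOK (P (s n)) (b n) (b (n + 1)) (P (s n)).h r (P (s (n + 1))) :=
    fun n => step_all _ (hbB n) (href n).mem' (hlt n) _ (href n)
  choose r hr using hstep
  obtain ⟨q, _, _, _, _, hq, _, _⟩ := fusion (fun n => P (s n)) b (fun n => (P (s n)).h) r hr
  refine ⟨q, fun i => ?_⟩
  obtain ⟨n, rfl⟩ := he i
  exact (hq n).lEs.trans (hle n)


end Tau555
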