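import Pool.Agent.Helper555.Tau.Api
import Pool.Agent.Helper555.Tau.P_exists_run
import Pool.Agent.Helper555.Tau.P_step_mk
import Pool.Agent.Helper555.Tau.P_fusion

set_option autoImplicit false

open Set Filter

namespace Tau555


/-- the sequences `e, n, f` -/
theorem pair_seq (p : Cond) (N : Set ℕ) (hN : N.Infinite) (g : ℕ → ℕ) :
    ∃ e n f : ℕ → ℕ, (∀ k, e k ∈ p.B) ∧ (∀ k, n k ∈ N) ∧ (∀ k, e k ≤ n k) ∧ (∀ k, n k < f k) ∧
      (∀ k, g (n k) < f k) ∧ ∀ k, Blk p.B (f k) (e (k + 1)) := by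
  have step : ∀ x : {x // x ∈ p.B}, ∃ n f e', n ∈ N ∧ x.1 ≤ n ∧ n < f ∧ g n < f ∧
      Blk p.B f e' := by
    intro x
    obtain ⟨n, hn, hxn⟩ := hN.exists_gt x.1
    obtain ⟨f, hf, hnf⟩ := exists_next p (max n (g n))
    obtain ⟨e', he'⟩ := exists_blk p hf
    exact ⟨n, f, e', hn, hxn.le, lt_of_le_of_lt (le_max_left _ _) hnf,
      lt_of_le_of_lt (le_max_right _ _) hnf, he'⟩
  choose nn ff ee h using step
  obtain ⟨e0, he0, -⟩ := exists_next p 0
  let E : ℕ → {x // x ∈ p.B} := fun k => Nat.rec ⟨e0, he0⟩ (fun _ x => ⟨ee x, (h x).2.2.2.2.2.1⟩) k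
  refine ⟨fun k => (E k).1, fun k => nn (E k), fun k => ff (E k), fun k => (E k).2,
    fun k => (h (E k)).1, fun k => (h (E k)).2.1, fun k => (h (E k)).2.2.1,
    fun k => (h (E k)).2.2.2.1, fun k => (h (E k)).2.2.2.2⟩

/-- uniqueness of the index -/
theorem pair_idx {e : ℕ → ℕ} (he : StrictMono e) {k k' x : ℕ} (h1 : e k ≤ x)
    (h2 : x < e (k + 1)) (h3 : e k' ≤ x) (h4 : x < e (k' + 1)) : k = k' := by
  rcases lt_trichotomy k k' with h | h | h
  · have := he.monotone (Nat.succ_le_of_lt h)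
    simp only [Nat.succ_eq_add_one] at this
    omega
  · exact h
  · have := he.monotone (Nat.succ_le_of_lt h)
    simp only [Nat.succ_eq_add_one] at this
    omega

/-- every position is in an interval -/
theorem pair_find {e : ℕ → ℕ} (he : StrictMono e) {x : ℕ} (h : e 0 ≤ x) :
    ∃ k, e k ≤ x ∧ x < e (k + 1) := by
  classical
  have hex : ∃ k, x < e k := ⟨x + 1, lt_of_lt_of_le (Nat.lt_succ_self x) (he.id_le (x + 1))⟩
  have h1 : x < e (Nat.find hex) := Nat.find_spec hex
  have h2 : Nat.find hex ≠ 0 := by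
    intro h3
    rw [h3] at h1
    omega
  obtain ⟨k, hk⟩ := Nat.exists_eq_succ_of_ne_zero h2
  refine ⟨k, ?_, ?_⟩
  · have := Nat.find_min hex (m := k) (by omega)
    omega
  · rw [hk] at h1; exact h1

theorem pair (p : Cond) (N : Set ℕ) (hN : N.Infinite) (g : ℕ → ℕ) :
    ∃ (q : Cond) (D0 D1 : Pt), LEs q p ∧ D0 ∈ Y ∧ D1 ∈ Y ∧ EC p D0 ∧ EC p D1 ∧
      {m | D0 m = 2} = {m | D1 m = 2} ∧ (∃ M, ∀ m ≥ M, ∀ D, q.c D m = 2 → D0 m = 2) ∧
      {n | n ∈ N ∧ D0 ∈ OO n (g n) ∧ D1 ∉ OO n (g n)}.Infinite ∧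
      {n | n ∈ N ∧ D1 ∈ OO n (g n) ∧ D0 ∉ OO n (g n)}.Infinite := by
  classical
  obtain ⟨e, n, f, heB, hnN, hen, hnf, hgf, hblk⟩ := pair_seq p N hN g
  have hfe : ∀ k, f k < e (k + 1) := fun k => (hblk k).2.2.1
  have hfB : ∀ k, f k ∈ p.B := fun k => (hblk k).1
  have hmono : StrictMono e := strictMono_nat_of_lt_succ fun k => by
    have := hen k; have := hnf k; have := hfe k; omega
  -- a block starting in an active interval is the active block
  have hact : ∀ k b1 b2 m, Blk p.B b1 b2 → b1 ≤ m → m < b2 → f k ≤ m → m < e (k + 1) →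
      b1 = f k := by
    intro k b1 b2 m hb h1 h2 h3 h4
    have h5 : f k ≤ b1 := hb.ge_of_mem (hfB k) (lt_of_le_of_lt h3 h2)
    have h6 : b1 ≤ f k := (hblk k).ge_of_mem hb.1 (lt_of_le_of_lt h1 h4)
    exact le_antisymm h6 h5
  have hact2 : ∀ k b2, Blk p.B (f k) b2 → b2 = e (k + 1) := by
    intro k b2 hb
    have h5 : e (k + 1) ≤ b2 := (hblk k).le_of_mem hb.2.1 hb.2.2.1
    have h6 : b2 ≤ e (k + 1) := hb.le_of_mem (hblk k).2.1 (hblk k).2.2.1
    exact le_antisymm h6 h5
  let Dz : Pt := fun _ => 0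
  -- the steps of the fusion
  have hstep : ∀ k, ∃ r : Pt → Pt, StepOK p (e k) (e (k + 1)) p.h r p ∧
      (∀ D m, e k ≤ m → m < e (k + 1) → (r D m = 2 ↔ m ∈ {m | f k ≤ m ∧ p.c Dz m = 2})) := by
    intro k
    have hek : e k < e (k + 1) := hmono (Nat.lt_succ_self k)
    obtain ⟨m0, hm1, hm2, hm3⟩ := p.ex (f k) (e (k + 1)) (hblk k) Dz
    obtain ⟨r, hr, -, hr2⟩ := step_mk p (heB k) (heB (k + 1)) hek p.h (HW.self p _ _) p
      (Ref.refl (heB (k + 1))) {m | f k ≤ m ∧ p.c Dz m = 2}
      ⟨m0, ⟨hm1, hm3⟩, by have := hen k; have := hnf k; omega, hm2⟩ (fun _ _ => True) (by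
        intro D
        obtain ⟨D', hD1, hD2⟩ := exists_run p (heB k) D
          (fun b1 => if b1 = f k then none else some false)
        refine ⟨D', hD1, ?_, ?_, trivial⟩
        · intro b1 b2 hb h1 h2
          by_cases hbf : b1 = f k
          · exact Or.inr ((hD2 b1 b2 hb h1).1 (by simp [hbf]))
          · exact Or.inl ⟨false, (hD2 b1 b2 hb h1).2 false (by simp [hbf])⟩
        · intro m h1 h2
          obtain ⟨b1, b2, hb, h3, h4, h5⟩ := find_blk p (heB k) h1
          by_cases hbf : b1 = f k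
          · have h6 := (hD2 b1 b2 hb h3).1 (by simp [hbf]) m h4 h5
            have h7 : p.c D' m = 2 ↔ p.c Dz m = 2 := p.aa D' Dz m
            constructor
            · intro h8
              exact ⟨hbf ▸ h4, h7.1 (h6 ▸ h8)⟩
            · rintro ⟨-, h8⟩
              rw [h6]; exact h7.2 h8
          · have h6 := (hD2 b1 b2 hb h3).2 false (by simp [hbf]) m h4 h5
            constructor
            · intro h8
              exact absurd (h6 ▸ h8) (lett_ne _)
            · rintro ⟨h8, -⟩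
              exact absurd (hact k b1 b2 m hb h4 h5 h8 h2) hbf)
    exact ⟨r, hr, hr2⟩
  choose r hr hr2 using hstep
  obtain ⟨q, -, hqB, hqblk, hqblk', hqref, hqh, hqc⟩ := fusion (fun _ => p) e (fun _ => p.h) r hr
  -- the words
  let par : ℕ → Bool := fun k => decide (k % 2 = 1)
  let u : ℕ → Bool := fun b1 =>
    if h : ∃ k, e k ≤ b1 ∧ b1 ≤ n k ∧ (∀ x ∈ p.B, b1 < x → n k < x) then
      xor (p.h (n h.choose)) (par h.choose) else false
  let t : Bool → ℕ → Option Bool := fun s b1 =>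
    if ∃ k, b1 = f k then none else some (xor s (u b1))
  have hW : ∀ s : Bool, ∃ D : Pt, Agr (e 0) Dz D ∧ ∀ b1 b2, Blk p.B b1 b2 → e 0 ≤ b1 →
      (t s b1 = none → ∀ m, b1 ≤ m → m < b2 → D m = p.c D m) ∧
      (∀ ε, t s b1 = some ε → ∀ m, b1 ≤ m → m < b2 → D m = lett (xor (p.h m) ε)) :=
    fun s => exists_run p (heB 0) Dz (t s)
  choose W hW1 hW2 using hW
  -- letters 2
  have htwo : ∀ s m, W s m = 2 ↔ ∃ k, f k ≤ m ∧ m < e (k + 1) ∧ p.c Dz m = 2 := by
    intro s m
    by_cases hm : m < e 0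
    · have h1 : W s m = 0 := (hW1 s m hm).symm
      constructor
      · intro h2; rw [h1] at h2; exact absurd h2 (by decide)
      · rintro ⟨k, h2, -⟩
        have h3 := hmono.monotone (Nat.zero_le k)
        have := hen k; have := hnf k
        omega
    · obtain ⟨b1, b2, hb, h3, h4, h5⟩ := find_blk p (heB 0) (not_lt.1 hm)
      by_cases hbf : ∃ k, b1 = f k
      · have h6 := (hW2 s b1 b2 hb h3).1 (by simp only [t]; rw [if_pos hbf]) m h4 h5
        have h7 : p.c (W s) m = 2 ↔ p.c Dz m = 2 := p.aa (W s) Dz m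
        obtain ⟨k, hk⟩ := hbf
        subst hk
        have h8 := hact2 k b2 hb
        subst h8
        constructor
        · intro h8
          exact ⟨k, h4, h5, h7.1 (h6 ▸ h8)⟩
        · rintro ⟨-, -, -, h8⟩
          rw [h6]; exact h7.2 h8
      · have h6 := (hW2 s b1 b2 hb h3).2 _ (by simp only [t]; rw [if_neg hbf]) m h4 h5
        constructor
        · intro h8
          exact absurd (h6 ▸ h8) (lett_ne _)
        · rintro ⟨k, h8, h9, -⟩
          exact absurd ⟨k, hact k b1 b2 m hb h4 h5 h8 h9⟩ hbf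
  have hY : ∀ s, W s ∈ Y := by
    intro s
    refine Set.infinite_of_forall_exists_gt fun x => ?_
    obtain ⟨m, h1, h2, h3⟩ := p.ex (f (x + 1)) (e (x + 1 + 1)) (hblk (x + 1)) Dz
    refine ⟨m, ?_, ?_⟩
    · change W s m = 2
      rw [htwo]
      exact ⟨x + 1, h1, h2, h3⟩
    · have h4 := hmono.id_le (x + 1)
      have h5 := hen (x + 1)
      have h6 := hnf (x + 1)
      simp only [id] at h4
      omega
  have hEC : ∀ s, EC p (W s) := by
    intro s
    refine ⟨e 0, heB 0, ?_⟩
    intro b1 b2 hb h1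
    by_cases hbf : ∃ k, b1 = f k
    · exact Or.inr ((hW2 s b1 b2 hb h1).1 (by simp only [t]; rw [if_pos hbf]))
    · exact Or.inl ⟨_, (hW2 s b1 b2 hb h1).2 _ (by simp only [t]; rw [if_neg hbf])⟩
  -- the values at `n k`
  have hval : ∀ s k, W s (n k) = lett (xor s (par k)) := by
    intro s k
    have h0 : e 0 ≤ n k := (hmono.monotone (Nat.zero_le k)).trans (hen k)
    obtain ⟨b1, b2, hb, h3, h4, h5⟩ := find_blk p (heB k) (hen k)
    have h30 : e 0 ≤ b1 := (hmono.monotone (Nat.zero_le k)).trans h3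
    have hbf : ¬ ∃ k', b1 = f k' := by
      rintro ⟨k', rfl⟩
      have h6 := hact2 k' b2 hb
      subst h6
      have h7 : k = k' := pair_idx hmono (x := f k') h3
        (by have := hnf k; have := hfe k; omega)
        (by have := hen k'; have := hnf k'; omega) (hfe k')
      subst h7
      have := hnf k
      omega
    have h6 := (hW2 s b1 b2 hb h30).2 _ (by simp only [t]; rw [if_neg hbf]) (n k) h4 h5
    have hex : ∃ k', e k' ≤ b1 ∧ b1 ≤ n k' ∧ (∀ x ∈ p.B, b1 < x → n k' < x) :=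
      ⟨k, h3, h4, fun x hx hx' => lt_of_lt_of_le h5 (hb.le_of_mem hx hx')⟩
    have hu : u b1 = xor (p.h (n k)) (par k) := by
      have h7 := hex.choose_spec
      have h8 : hex.choose = k := by
        refine pair_idx hmono (x := b1) h7.1 ?_ h3 ?_
        · have := h7.2.1; have := hnf hex.choose; have := hfe hex.choose; omega
        · have := hnf k; have := hfe k; omega
      simp only [u]
      rw [dif_pos hex, h8]
    rw [h6, hu]
    congr 1
    cases s <;> cases p.h (n k) <;> cases par k <;> rfl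
  have hninj : Function.Injective n := by
    intro a b hab
    refine pair_idx hmono (x := n a) (hen a) ?_ ?_ ?_
    · have := hnf a; have := hfe a; omega
    · rw [hab]; exact hen b
    · rw [hab]; have := hnf b; have := hfe b; omega
  -- membership in `OO`
  have hO1 : ∀ s k, xor s (par k) = false → W s ∈ OO (n k) (g (n k)) := by
    intro s k h
    refine Or.inl ?_
    change W s (n k) ≠ 1
    rw [hval, h]; decide
  have hO2 : ∀ s k, xor s (par k) = true → W s ∉ OO (n k) (g (n k)) := by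
    intro s k h hmem
    rcases hmem with h1 | ⟨j, h1, h2, h3⟩
    · apply h1
      rw [hval, h]; decide
    · rw [htwo] at h3
      obtain ⟨k', h4, h5, -⟩ := h3
      have h6 : k = k' := by
        refine pair_idx hmono (x := j) ?_ ?_ ?_ h5
        · have := hen k; omega
        · have := hgf k; have := hfe k; omega
        · have := hen k'; have := hnf k'; omega
      subst h6
      have := hgf k
      omega
  have hinf : ∀ (s s' : Bool) (c : ℕ), (∀ k, xor s (par (2 * k + c)) = false) →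
      (∀ k, xor s' (par (2 * k + c)) = true) →
      {m | m ∈ N ∧ W s ∈ OO m (g m) ∧ W s' ∉ OO m (g m)}.Infinite := by
    intro s s' c h1 h2
    have h3 : Function.Injective (fun k => n (2 * k + c)) := by
      intro a b hab
      have := hninj hab
      omega
    refine (Set.infinite_range_of_injective h3).mono ?_
    rintro _ ⟨k, rfl⟩
    exact ⟨hnN _, hO1 s _ (h1 k), hO2 s' _ (h2 k)⟩
  have hpar0 : ∀ k, par (2 * k + 0) = false := by
    intro k; simp only [par, decide_eq_false_iff_not]; omega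
  have hpar1 : ∀ k, par (2 * k + 1) = true := by
    intro k; simp only [par, decide_eq_true_eq]; omega
  refine ⟨q, W false, W true, (hqref 0).lEs, hY _, hY _, hEC _, hEC _, ?_, ?_, ?_, ?_⟩
  · ext m
    simp only [Set.mem_setOf_eq]
    rw [htwo, htwo]
  · refine ⟨e 0, fun m hm D hD => ?_⟩
    obtain ⟨k, h1, h2⟩ := pair_find hmono hm
    rw [hqc k D m h1 h2] at hD
    have h3 := (hr2 k D m h1 h2).1 hD
    rw [htwo]
    exact ⟨k, h3.1, h2, h3.2⟩
  · exact hinf false true 0 (fun k => by rw [hpar0]; rfl) (fun k => by rw [hpar0]; rfl)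
  · exact hinf true false 1 (fun k => by rw [hpar1]; rfl) (fun k => by rw [hpar1]; rfl)


end Tau555
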