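import Pool.Agent.Helper555.Tau.Api
import Pool.Agent.Helper555.Tau.P_exists_run
import Pool.Agent.Helper555.Tau.P_HC

set_option autoImplicit false

open Set Filter

namespace Tau555


theorem stage_HC {O : ℕ → ℕ → Set Pt} {x : ℕ} {p1 p2 : Cond} (C : Ctx O x p1 p2)
    (p : Cond) (b : ℕ) (hxb : x ≤ b) (hp : Ref b p p2) :
    ∃ y ∈ p.B, b < y ∧ ∃ A : Set ℕ, (∃ m ∈ A, b ≤ m ∧ m < y) ∧ ∀ σ, ∃ τ, Agr b σ τ ∧
      Conf p b y τ ∧ (∀ m, b ≤ m → m < y → (τ m = 2 ↔ m ∈ A)) ∧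
      (NN O p1 y τ ∨ Dd O p1 p2 y τ) := by
  have hG : ∀ y D D', Agr y D D' → (NN O p1 y D ∨ Dd O p1 p2 y D) →
      (NN O p1 y D' ∨ Dd O p1 p2 y D') := by
    intro y D D' h hh
    rcases hh with hh | hh
    · exact Or.inl (hh.congr h)
    · exact Or.inr (hh.congr h)
  have hG' : ∀ y ∈ p.B, b ≤ y → ∀ z ∈ p.B, y ≤ z → ∀ D, (NN O p1 y D ∨ Dd O p1 p2 y D) →
      Conf p y z D → NoA y z D → (NN O p1 z D ∨ Dd O p1 p2 z D) := by
    intro y hy hby z hz hyz D hD hc hn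
    have hy2 : y ∈ p2.B := hp.sub hy hby
    have hz2 : z ∈ p2.B := hp.sub hz (hby.trans hyz)
    have hc2 : Conf p2 y z D := hp.conf hy hz hby hc
    have hc1 : Conf p1 y z D := C.ref.conf hy2 hz2 (hxb.trans hby) hc2
    have hz1 : z ∈ p1.B := C.ref.sub hz2 (hxb.trans (hby.trans hyz))
    rcases hD with hD | hD
    · exact Or.inl (NN.hidden hyz hz1 (Agr.refl _ _) hc1 hn hD)
    · exact Or.inr (Dd.ext hyz hz2 (Agr.refl _ _) hc2 hD)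
  have H : ∀ σ ∈ (univ : Set Pt), ∀ p', Ref b p' p → ∃ y ∈ p'.B, b < y ∧ ∃ τ, Agr b σ τ ∧
      Conf p' b y τ ∧ (∃ m, b ≤ m ∧ m < y ∧ τ m = 2) ∧ (NN O p1 y τ ∨ Dd O p1 p2 y τ) := by
    intro σ _ p' hp'
    have hp'2 : Ref b p' p2 := hp'.trans hp
    obtain ⟨z, hbz⟩ := exists_blk p' hp'.mem
    obtain ⟨s, hs, hsrun⟩ := exists_run p' hp'.mem σ (fun _ => none)
    have hlt : b < z := hbz.2.2.1
    have hzB : z ∈ p'.B := hbz.2.1
    have hcs : Conf p' b z s := by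
      intro b1 b2 hblk h1 _
      exact Or.inr ((hsrun b1 b2 hblk h1).1 rfl)
    obtain ⟨m, hm1, hm2, hm3⟩ := p'.ex b z hbz s
    have hsm : s m = 2 := by
      rw [(hsrun b z hbz le_rfl).1 rfl m hm1 hm2]
      exact hm3
    have hz2 : z ∈ p2.B := hp'2.sub hzB hlt.le
    rcases C.dec2 z hz2 (hxb.trans hlt.le) s with hd | hd
    · exact ⟨z, hzB, hlt, s, hs, hcs, ⟨m, hm1, hm2, hsm⟩, Or.inr hd⟩
    · have h1 := hd p' (hp'2.mono hzB hlt.le)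
      unfold Dd at h1
      push Not at h1
      obtain ⟨z', hz', hzz', τ, hτ, hcτ, hN⟩ := h1
      refine ⟨z', hz', lt_of_lt_of_le hlt hzz', τ, hs.trans (hτ.mono hlt.le),
        (hcs.congr hτ).trans hzB hcτ, ⟨m, hm1, lt_of_lt_of_le hm2 hzz', ?_⟩, Or.inl hN⟩
      rw [← hτ m hm2]
      exact hsm
  obtain ⟨y, hy, hby, A, hA, hmain⟩ := HC p b hp.mem univ
    (fun y D => NN O p1 y D ∨ Dd O p1 p2 y D) hG hG' H
  refine ⟨y, hy, hby, A, hA, fun σ => ?_⟩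
  obtain ⟨τ, h1, h2, h3, h4⟩ := hmain σ
  exact ⟨τ, h1, h2, h3, h4 (mem_univ _)⟩


end Tau555
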