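import Pool.Agent.Helper555.Tau.Api
import Pool.Agent.Helper555.Tau.P_avoid

set_option autoImplicit false

open Set Filter

namespace Tau555


theorem stage_avoid {O : ℕ → ℕ → Set Pt} {x : ℕ} {p1 p2 : Cond} (C : Ctx O x p1 p2)
    (p : Cond) (b y : ℕ) (hxb : x ≤ b) (hby : b ≤ y) (hb : b ∈ p2.B) (hp : Ref y p p2)
    (w : ℕ → Bool) (hw : HW p2 b y w) (k : ℕ)
    (hk : ∀ D, NN O p1 b D → ¬ Win p1 (Fam O k) b D) (W : Set Pt) (hW : W ∈ Fam O k) :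
    ∃ q, Ref y q p ∧ ∀ D ∈ Y, NN O p1 b D → ∀ ε : Bool,
      (∀ m, b ≤ m → m < y → D m = lett (xor (w m) ε)) → ConfI q y D → D ∉ W := by
  have hWo : IsOpen W := by
    obtain ⟨I, hI, g, rfl⟩ := hW
    exact isOpen_biUnion fun n _ => C.op n (g n)
  have hyB : y ∈ p.B := hp.mem 
  have hyp2 : y ∈ p2.B := hp.mem'
  have hr1 : Ref y p p1 := Ref.trans' hp C.ref (hxb.trans hby)
  obtain ⟨q, hq, h⟩ := avoid p y hyB W hWo
    {D | NN O p1 b D ∧ ∃ ε : Bool, ∀ m, b ≤ m → m < y → D m = lett (xor (w m) ε)} (by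
    rintro D ⟨hN, ε, hε⟩ hwin
    have h1 : Win p1 {W} y D := Win.ref hr1 hwin
    have h2 : Win p1 (Fam O k) y D := Win.fam (by
      intro V hV
      rw [Set.mem_singleton_iff] at hV
      exact hV ▸ hW) h1
    have hwp1 : HW p1 b y w := HW.ref C.ref hb hyp2 hxb hw
    exact hk D hN (Win.hidden hby (C.ref.sub hyp2 (hxb.trans hby)) (Agr.refl _ _)
      (hwp1.conf hε) (noA_of_lett hε) h2))
  exact ⟨q, hq, fun D hDY hN ε hε hc => h D ⟨hN, ε, hε⟩ D hDY (Agr.refl _ _) hc⟩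


end Tau555
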