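import Pool.Agent.Helper555.Tau.Api
import Pool.Agent.Helper555.Tau.P_act_unique
import Pool.Agent.Helper555.Tau.P_exists_run

set_option autoImplicit false

open Set Filter

namespace Tau555


theorem exists_cyl_aux {U : Set Pt} (hU : IsOpen U) {x : Pt} (hx : x ∈ U) :
    ∃ z, ∀ D, Agr z x D → D ∈ U := by
  obtain ⟨I, u, h1, h2⟩ := isOpen_pi_iff.1 hU x hx
  refine ⟨I.sup id + 1, fun D hD => h2 ?_⟩
  intro a ha
  have h3 := hD a (Nat.lt_succ_of_le (Finset.le_sup (f := id) ha))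
  rw [← h3]
  exact (h1 a ha).2

theorem stage_cover (O : ℕ → ℕ → Set Pt) (hop : ∀ n m, IsOpen (O n m))
    (hmono : ∀ n, Monotone (O n)) (p : Cond) (hcov : ∀ D ∈ Tail p, ∀ n, ∃ m, D ∈ O n m)
    (b y : ℕ) (hby : b ≤ y) (hy : y ∈ p.B) (w : ℕ → Bool) (e : ℕ → Pt)
    (he : ∀ j n, ∃ m, e j ∈ O n m) (i n : ℕ) :
    ∃ m, (∀ j ≤ i, e j ∈ O n m) ∧ ∃ z ∈ p.B, y < z ∧ ∀ D,
      (∀ m', b ≤ m' → m' < y → D m' = lett (w m')) →
      (∀ m', y ≤ m' → m' < z → D m' = p.c D m') → D ∈ O n m := by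
  classical
  have key : ∀ s : Pt, ∃ x : Pt, Agr b s x ∧ (∀ m, b ≤ m → m < y → x m = lett (w m)) ∧
      (∀ m, y ≤ m → x m = p.c x m) := by
    intro s
    obtain ⟨x, h1, h2⟩ := exists_run p hy
      (fun m => if m < b then s m else lett (w m)) (fun _ => none)
    refine ⟨x, ?_, ?_, ?_⟩
    · intro m hm
      have h3 := h1 m (hm.trans_le hby)
      simpa [hm] using h3
    · intro m hm hm'
      have h3 := h1 m hm'
      have h4 : ¬ m < b := not_lt.2 hm
      simpa [h4] using h3.symm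
    · intro m hm
      obtain ⟨b1, b2, hb, h3, h4, h5⟩ := find_blk p hy hm
      exact (h2 b1 b2 hb h3).1 rfl m h4 h5
  choose x hx1 hx2 hx3 using key
  have hT : ∀ s, x s ∈ Tail p := fun s => ⟨y, hy, hx3 s⟩
  choose M hM using fun s => hcov (x s) (hT s) n
  choose Z hZ using fun s => exists_cyl_aux (hop n (M s)) (hM s)
  choose Me hMe using fun j => he j n
  set F := (finite_trunc b).toFinset with hF
  obtain ⟨z, hz, hz'⟩ := exists_next p (max y (F.sup Z))
  refine ⟨max (F.sup M) ((Finset.range (i + 1)).sup Me), fun j hj =>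
    hmono n (le_trans (Finset.le_sup (f := Me) (Finset.mem_range.2 (Nat.lt_succ_of_le hj)))
      (le_max_right _ _)) (hMe j), z, hz, lt_of_le_of_lt (le_max_left _ _) hz', ?_⟩
  intro D hD1 hD2
  have hs : trunc b D ∈ F := (finite_trunc b).mem_toFinset.2 ⟨D, rfl⟩
  have hag : Agr y (x (trunc b D)) D := by
    intro m hm
    by_cases h : m < b
    · rw [← hx1 (trunc b D) m h]
      exact (agr_trunc b D m h).symm
    · rw [hx2 (trunc b D) m (not_lt.1 h) hm, hD1 m (not_lt.1 h) hm]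
  have h1 := act_unique p hy hz hag (fun m hm _ => hx3 _ m hm) hD2
  have h2 := hZ (trunc b D) D (h1.mono (le_trans (Finset.le_sup (f := Z) hs)
    ((le_max_right _ _).trans hz'.le)))
  exact hmono n (le_trans (Finset.le_sup (f := M) hs) (le_max_left _ _)) h2


end Tau555
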