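import Pool.Agent.Helper555.Tau.Api
import Pool.Agent.Helper555.Tau.P_uniform_win

set_option autoImplicit false

open Set Filter

namespace Tau555


theorem stage_dead {O : ℕ → ℕ → Set Pt} {x : ℕ} {p1 p2 : Cond} (C : Ctx O x p1 p2)
    (p : Cond) (b : ℕ) (hxb : x ≤ b) (hp : Ref b p p2) (k : ℕ) :
    ∃ y ∈ p.B, b ≤ y ∧ ∃ w, HW p b y w ∧ ∃ p', Ref y p' p ∧ ∃ U ∈ Fam O k, ∀ D ∈ Y,
      Dd O p1 p2 b D → ∀ ε : Bool, (∀ m, b ≤ m → m < y → D m = lett (xor (w m) ε)) →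
        ConfI p' y D → D ∈ U := by
  obtain ⟨y, hy, hby, w, hw, p', hp', U, hU, h⟩ := uniform_win p b hp.mem (Fam O k)
    (fun U hU V hV => Fam.union C.mono hU hV) ⟨_, ∅, by simp, fun _ => 0, rfl⟩
    {t | Dd O p1 p2 b t.1} (by
      intro t ht y hy hby D' hagr hconf hnoA p' hp'
      have hy2 : y ∈ p2.B := hp.sub hy hby
      have hconf2 : Conf p2 b y D' := hp.conf hp.mem hy le_rfl hconf
      have hdd : Dd O p1 p2 y D' := Dd.ext hby hy2 hagr hconf2 ht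
      have hxy : x ≤ y := hxb.trans hby
      rcases C.dec1 y (C.ref.sub hy2 hxy) hxy D' with hnn | hall
      · exact absurd hnn (Dd.not_NN hy2 hdd)
      · exact hall p' ((hp'.trans' hp hby).trans' C.ref hxy) k)
  exact ⟨y, hy, hby, w, hw, p', hp', U, hU, fun D hDY hDd ε hD hC =>
    h (D, ε) hDd D hDY (Agr.refl _ _) hD hC⟩


end Tau555
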