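import Pool.Agent.Helper555.Tau.Api

set_option autoImplicit false

open Set Filter

namespace Tau555


theorem stage_k (O : ℕ → ℕ → Set Pt) (p1 : Cond) (b k : ℕ) :
    ∃ k', k ≤ k' ∧ ∀ D, NN O p1 b D → ¬ Win p1 (Fam O k') b D := by
  classical
  have h : ∀ t : Pt, ∃ kt, NN O p1 b t → ¬ Win p1 (Fam O kt) b t := by
    intro t
    by_cases ht : NN O p1 b t
    · obtain ⟨kt, hkt⟩ := ht
      exact ⟨kt, fun _ => hkt⟩
    · exact ⟨0, fun h => absurd h ht⟩
  choose K hK using h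
  have hfin := finite_trunc b
  obtain ⟨B, hB⟩ := (hfin.image K).bddAbove
  refine ⟨max k B, le_max_left _ _, ?_⟩
  intro D hD hW
  have h1 : NN O p1 b (trunc b D) := hD.congr (agr_trunc b D)
  apply hK _ h1
  have h2 : K (trunc b D) ≤ max k B := le_trans (hB ⟨_, ⟨D, rfl⟩, rfl⟩) (le_max_right _ _)
  exact (hW.fam (Fam.anti O h2)).congr (agr_trunc b D)


end Tau555
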