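import Pool.Agent.Helper555.Tau.Api
import Pool.Agent.Helper555.Tau.P_act_unique
import Pool.Agent.Helper555.Tau.P_exists_run
import Pool.Agent.Helper555.Tau.P_transfer
import Pool.Agent.Helper555.Tau.P_step_mk
import Pool.Agent.Helper555.Tau.P_stage_k
import Pool.Agent.Helper555.Tau.P_stage_dead
import Pool.Agent.Helper555.Tau.P_stage_cover
import Pool.Agent.Helper555.Tau.P_stage_HC
import Pool.Agent.Helper555.Tau.P_stage_avoid

set_option autoImplicit false

open Set Filter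

namespace Tau555


/-- active on a longer interval, moved along agreement -/
theorem stage_act {p : Cond} {y z : ℕ} (hy : y ∈ p.B) {D D' : Pt} (h : Agr z D D')
    (hD : ∀ m, y ≤ m → m < z → D m = p.c D m) : ∀ m, y ≤ m → m < z → D' m = p.c D' m := by
  intro m h1 h2
  obtain ⟨b1, b2, hb, h3, h4, h5⟩ := find_blk p hy h1
  rw [← h m h2, hD m h1 h2]
  exact p.loc b1 b2 hb D D' (h.mono (h4.trans h2.le)) m h4 h5

theorem stage {O : ℕ → ℕ → Set Pt} {x : ℕ} {p1 p2 : Cond} (C : Ctx O x p1 p2)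
    (e : ℕ → Pt) (he : ∀ j n, ∃ m, e j ∈ O n m) (p : Cond) (b : ℕ) (hxb : x ≤ b)
    (hp : Ref b p p2) (i k : ℕ) :
    ∃ (w : ℕ → Bool) (r : Pt → Pt) (k' : ℕ) (p' : Cond) (b' : ℕ), StepOK p b b' w r p' ∧
      k < k' ∧ ∃ (I : Finset ℕ) (g : ℕ → ℕ), (∀ n ∈ I, k ≤ n ∧ n < k') ∧
        (∀ j ≤ i, e j ∈ ⋃ n ∈ I, O n (g n)) ∧
        (∀ D, (∀ m, b ≤ m → m < b' → D m = r D m) → D ∈ ⋃ n ∈ I, O n (g n)) ∧
        (∀ D, (∀ m, b ≤ m → m < b' → D m = r D m) → NN O p1 b' D ∨ Dd O p1 p2 b' D) ∧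
        (∀ D ∈ Y, ∀ ε : Bool, (∀ m, b ≤ m → m < b' → D m = lett (xor (w m) ε)) →
          ConfI p' b' D → (Dd O p1 p2 b D → D ∈ ⋃ n ∈ I, O n (g n)) ∧
            (NN O p1 b D → D ∉ ⋃ n ∈ I, O n (g n))) := by
  classical
  obtain ⟨k1, hk1, hk1W⟩ := stage_k O p1 b k
  obtain ⟨y1, hy1, hby1, w1, hw1, pA, hpA, U, hU, hUD⟩ := stage_dead C p b hxb hp k1
  have hA2 : Ref y1 pA p2 := hpA.trans' hp hby1
  obtain ⟨ms, hme, y2, hy2, hy12, hcovD⟩ := stage_cover O C.op C.mono pA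
    (C.cov pA hA2.lEs) b y1 hby1 hpA.mem w1 e he i k1
  have hA22 : Ref y2 pA p2 := hA2.mono hy2 hy12.le
  obtain ⟨y3, hy3, hy23, A3, hA3, HC⟩ := stage_HC C pA y2 (hxb.trans (hby1.trans hy12.le)) hA22
  have h13 : y1 ≤ y3 := hy12.le.trans hy23.le
  have hb3 : b < y3 := by omega
  have hy3p : y3 ∈ p.B := hpA.sub hy3 h13
  have hA23 : Ref y3 pA p2 := hA22.mono hy3 hy23.le
  obtain ⟨J, hJ, f, hUeq⟩ := hU
  set I : Finset ℕ := insert k1 J with hI
  set g : ℕ → ℕ := fun n => max (f n) ms with hg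
  have hUW : U ⊆ ⋃ n ∈ I, O n (g n) := by
    rw [hUeq]
    intro D hD
    obtain ⟨n, hn, h⟩ := Set.mem_iUnion₂.1 hD
    exact Set.mem_iUnion₂.2 ⟨n, Finset.mem_insert_of_mem hn, C.mono n (le_max_left _ _) h⟩
  have hOW : O k1 ms ⊆ ⋃ n ∈ I, O n (g n) := by
    intro D hD
    exact Set.mem_iUnion₂.2 ⟨k1, Finset.mem_insert_self _ _, C.mono k1 (le_max_right _ _) hD⟩
  have hWF : (⋃ n ∈ I, O n (g n)) ∈ Fam O k1 := by
    refine ⟨I, ?_, g, rfl⟩
    intro n hn
    rcases Finset.mem_insert.1 hn with h | h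
    · exact h ▸ le_rfl
    · exact hJ n h
  -- the hidden word
  set w : ℕ → Bool := fun m => if m < y1 then w1 m else pA.h m with hw
  have hw_lt : ∀ m, m < y1 → w m = w1 m := fun m hm => by simp [hw, hm]
  have hw_ge : ∀ m, y1 ≤ m → w m = pA.h m := fun m hm => by simp [hw, not_lt.2 hm]
  have hHWA : HW pA y1 y3 w := (HW.self pA y1 y3).congr fun m h1 _ => (hw_ge m h1).symm
  have hHWp : HW p b y3 w := by
    refine HW.trans hy1 (hw1.congr fun m _ h2 => (hw_lt m h2).symm) ?_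
    exact HW.ref hpA hpA.mem hy3 le_rfl hHWA
  have hHW2 : HW p2 b y3 w := HW.ref hp hp.mem hy3p le_rfl hHWp
  obtain ⟨p', hp', hav⟩ := stage_avoid C pA b y3 hxb hb3.le hp.mem' hA23 w hHW2 k1 hk1W
    (⋃ n ∈ I, O n (g n)) hWF
  have hp'p : Ref y3 p' p := hp'.trans' hpA h13
  let D0 : Pt := fun _ => 0
  obtain ⟨m3, hm3, hm3a, hm3b⟩ := hA3
  obtain ⟨r, hstep, hΦ, -⟩ := step_mk p hp.mem hy3p hb3 w hHWp p' hp'p
    ({m | y1 ≤ m ∧ m < y2 ∧ pA.c D0 m = 2} ∪ {m | m ∈ A3 ∧ y2 ≤ m})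
    ⟨m3, Or.inr ⟨hm3, hm3a⟩, by omega, hm3b⟩
    (fun _ τ => (∀ m, b ≤ m → m < y1 → τ m = lett (w1 m)) ∧
      (∀ m, y1 ≤ m → m < y2 → τ m = pA.c τ m) ∧ (NN O p1 y3 τ ∨ Dd O p1 p2 y3 τ))
    (by
      intro D
      let D1 : Pt := fun m => if b ≤ m ∧ m < y1 then lett (w1 m) else D m
      obtain ⟨D2, hD12, hD2⟩ := exists_run pA hpA.mem D1 (fun _ => none)
      obtain ⟨τ, hτ, hτc, hτA, hτN⟩ := HC D2
      have hD2a : ∀ m, y1 ≤ m → D2 m = pA.c D2 m := by
        intro m hm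
        obtain ⟨b1, b2, hb12, h3, h4, h5⟩ := find_blk pA hpA.mem hm
        exact (hD2 b1 b2 hb12 h3).1 rfl m h4 h5
      have hτact : ∀ m, y1 ≤ m → m < y2 → τ m = pA.c τ m :=
        stage_act hpA.mem hτ fun m h1 _ => hD2a m h1
      have hτlow : ∀ m, b ≤ m → m < y1 → τ m = lett (w1 m) := by
        intro m h1 h2
        rw [← hτ m (by omega), ← hD12 m h2]
        simp only [D1]
        rw [if_pos ⟨h1, h2⟩]
      have hAgr : Agr b D τ := by
        intro m hm
        rw [← hτ m (by omega), ← hD12 m (by omega)]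
        simp only [D1]
        rw [if_neg (by omega)]
      have hC1 : Conf p b y1 τ := by
        refine hw1.conf (ε := false) fun m h1 h2 => ?_
        rw [hτlow m h1 h2, Bool.xor_false]
      have hC2 : Conf pA y1 y2 τ := fun b1 b2 _ h1 h2 =>
        Or.inr fun m h3 h4 => hτact m (h1.trans h3) (h4.trans_le h2)
      have hC3 : Conf pA y1 y3 τ := hC2.trans hy2 hτc
      refine ⟨τ, hAgr, hC1.trans hy1 (hpA.conf hpA.mem hy3 le_rfl hC3), ?_, hτlow, hτact, hτN⟩
      intro m h1 h2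
      by_cases hm1 : m < y1
      · rw [hτlow m h1 hm1]
        constructor
        · intro h
          exact absurd h (lett_ne _)
        · rintro (⟨h, _⟩ | ⟨_, h⟩)
          · omega
          · omega
      · by_cases hm2 : m < y2
        · rw [hτact m (not_lt.1 hm1) hm2, pA.aa τ D0 m]
          constructor
          · intro h
            exact Or.inl ⟨not_lt.1 hm1, hm2, h⟩
          · rintro (⟨_, _, h⟩ | ⟨_, h⟩)
            · exact h
            · omega
        · rw [hτA m (not_lt.1 hm2) h2]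
          constructor
          · intro h
            exact Or.inr ⟨h, not_lt.1 hm2⟩
          · rintro (⟨_, h, _⟩ | ⟨h, _⟩)
            · exact absurd h hm2
            · exact h)
  have hIk : ∀ n ∈ I, k1 ≤ n := by
    intro n hn
    rcases Finset.mem_insert.1 hn with h | h
    · exact h ▸ le_rfl
    · exact hJ n h
  have hfull : ∀ D, (∀ m, b ≤ m → m < y3 → D m = r D m) → Agr y3 (r D) D := by
    intro D hD m hm
    by_cases hmb : m < b
    · exact (hstep.agr D m hmb).symm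
    · exact (hD m (not_lt.1 hmb) hm).symm
  refine ⟨w, r, I.sup id + k + 1, p', y3, hstep, by omega, I, g, ?_, ?_, ?_, ?_, ?_⟩
  · intro n hn
    have h1 : n ≤ I.sup id := Finset.le_sup (f := id) hn
    exact ⟨hk1.trans (hIk n hn), by omega⟩
  · intro j hj
    exact hOW (hme j hj)
  · intro D hD
    have h1 := hfull D hD
    obtain ⟨h2, h3, -⟩ := hΦ D
    refine hOW (hcovD D ?_ ?_)
    · intro m h4 h5
      rw [← h1 m (by omega)]
      exact h2 m h4 h5
    · exact stage_act hpA.mem (h1.mono hy23.le) h3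
  · intro D hD
    have h1 := hfull D hD
    obtain ⟨-, -, h2⟩ := hΦ D
    rcases h2 with h2 | h2
    · exact Or.inl (h2.congr h1)
    · exact Or.inr (h2.congr h1)
  · intro D hDY ε hD hDc
    constructor
    · intro hDd
      refine hUW (hUD D hDY hDd ε ?_ ?_)
      · intro m h1 h2
        rw [hD m h1 (by omega), hw_lt m h2]
      · refine Conf.confI hy3 (hHWA.conf (ε := ε) fun m h1 h2 => hD m (by omega) h2) ?_
        exact hp'.confI hp'.mem le_rfl hDc
    · intro hNN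
      exact hav D hDY hNN ε hD hDc


end Tau555
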