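import Pool.Agent.Helper555.Tau.Api
import Pool.Agent.Helper555.Tau.P_exists_run
import Pool.Agent.Helper555.Tau.P_fusion_principle
import Pool.Agent.Helper555.Tau.P_stage

set_option autoImplicit false

open Set Filter

namespace Tau555


theorem main_construction {O : ℕ → ℕ → Set Pt} {x : ℕ} {p1 p2 : Cond} (C : Ctx O x p1 p2)
    (e : ℕ → Pt) (he : ∀ j n, ∃ m, e j ∈ O n m) :
    ∃ q, Ref x q p2 ∧ Solved q O (Set.range e) := by
  classical
  obtain ⟨s, p, b, w, r, q, hs0, hp0, hb0, hInv, hStep, hΦ, hbm, hqB, hqBlk, -, hRef, hqh, hqc⟩ :=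
    fusion_principle (S := ℕ) (fun _ _ p b => x ≤ b ∧ Ref b p p2)
      (fun i k p b w r k' p' b' => k < k' ∧ ∃ (I : Finset ℕ) (g : ℕ → ℕ),
        (∀ n ∈ I, k ≤ n ∧ n < k') ∧
        (∀ j ≤ i, e j ∈ ⋃ n ∈ I, O n (g n)) ∧
        (∀ D, (∀ m, b ≤ m → m < b' → D m = r D m) → D ∈ ⋃ n ∈ I, O n (g n)) ∧
        (∀ D, (∀ m, b ≤ m → m < b' → D m = r D m) → NN O p1 b' D ∨ Dd O p1 p2 b' D) ∧
        (∀ D ∈ Y, ∀ ε : Bool, (∀ m, b ≤ m → m < b' → D m = lett (xor (w m) ε)) →
          ConfI p' b' D → (Dd O p1 p2 b D → D ∈ ⋃ n ∈ I, O n (g n)) ∧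
            (NN O p1 b D → D ∉ ⋃ n ∈ I, O n (g n))))
      (by
        intro n k p b hInv
        obtain ⟨w, r, k', p', b', hst, hk, I, g, h1⟩ := stage C e he p b hInv.1 hInv.2 n k
        exact ⟨w, r, k', p', b', hst, ⟨hInv.1.trans hst.lt.le, hst.ref.trans' hInv.2 hst.lt.le⟩,
          hk, I, g, h1⟩)
      0 p2 x ⟨le_rfl, Ref.refl C.ref.mem⟩
  have hsm : StrictMono s := strictMono_nat_of_lt_succ (fun n => (hΦ n).1)
  choose I g' hI hE h3 h4 h5 using fun n => (hΦ n).2
  have huniq : ∀ i i' n, s i ≤ n → n < s (i + 1) → s i' ≤ n → n < s (i' + 1) → i = i' := by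
    intro i i' n h1 h2 h3 h4
    have h5 : i < i' + 1 := hsm.lt_iff_lt.1 (h1.trans_lt h4)
    have h6 : i' < i + 1 := hsm.lt_iff_lt.1 (h3.trans_lt h2)
    omega
  let g : ℕ → ℕ := fun n => if h : ∃ i, s i ≤ n ∧ n < s (i + 1) then g' h.choose n else 0
  have hg : ∀ i, ∀ n ∈ I i, g n = g' i n := by
    intro i n hn
    have h : ∃ i, s i ≤ n ∧ n < s (i + 1) := ⟨i, hI i n hn⟩
    have h6 : g n = g' h.choose n := dif_pos h
    rw [h6, huniq h.choose i n h.choose_spec.1 h.choose_spec.2 (hI i n hn).1 (hI i n hn).2]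
  have hW : ∀ i, (⋃ n ∈ I i, O n (g n)) = ⋃ n ∈ I i, O n (g' i n) := by
    intro i
    apply Set.iUnion₂_congr
    intro n hn
    rw [hg i n hn]
  have hRx : Ref x q p2 := by
    have := hRef 0
    rwa [hb0, hp0] at this
  have hRx1 : Ref x q p1 := hRx.trans C.ref
  have hxb : ∀ i, x ≤ b i := by
    intro i
    rw [← hb0]
    exact hbm.monotone (Nat.zero_le i)
  have hbq : ∀ i, b i ∈ q.B := fun i => (hqB (b i)).2 ⟨i, rfl⟩
  refine ⟨q, hRx, b, s, I, g, hbm, hsm, hI, ?_, ?_⟩
  · rintro _ ⟨j, rfl⟩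
    filter_upwards [eventually_ge_atTop j] with i hi
    rw [hW i]
    exact hE i j hi
  · intro D hDY hDE
    obtain ⟨bb, hbb, hD⟩ := hDE
    obtain ⟨j0, rfl⟩ := (hqB bb).1 hbb
    have hDi : ∀ i, j0 ≤ i → ConfI q (b i) D := fun i hi => hD.mono (hbm.monotone hi)
    -- each block is hidden or active
    have hblk : ∀ i, j0 ≤ i →
        (∃ ε : Bool, ∀ m, b i ≤ m → m < b (i + 1) → D m = lett (xor (w i m) ε)) ∨
        (∀ m, b i ≤ m → m < b (i + 1) → D m = r i D m) := by
      intro i hi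
      rcases hDi i hi (b i) (b (i + 1)) (hqBlk i) le_rfl with ⟨ε, hε⟩ | hc
      · left
        refine ⟨ε, fun m h1 h2 => ?_⟩
        rw [hε m h1 h2, hqh i m h1 h2]
      · right
        intro m h1 h2
        rw [hc m h1 h2, hqc i D m h1 h2]
    have hcf2 : ∀ i, j0 ≤ i → Conf p2 (b i) (b (i + 1)) D := fun i hi =>
      hRx.conf (hbq i) (hbq (i + 1)) (hxb i) ((hDi i hi).conf le_rfl)
    have hcf1 : ∀ i, j0 ≤ i → Conf p1 (b i) (b (i + 1)) D := fun i hi =>
      hRx1.conf (hbq i) (hbq (i + 1)) (hxb i) ((hDi i hi).conf le_rfl)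
    have hbp2 : ∀ i, b i ∈ p2.B := fun i => hRx.sub (hbq i) (hxb i)
    have hbp1 : ∀ i, b i ∈ p1.B := fun i => hRx1.sub (hbq i) (hxb i)
    have hble : ∀ i, b i ≤ b (i + 1) := fun i => (hbm (Nat.lt_succ_self i)).le
    have hnext : ∀ i, j0 ≤ i → ConfI (p (i + 1)) (b (i + 1)) D := fun i hi =>
      (hRef (i + 1)).confI (hbq (i + 1)) le_rfl (hDi (i + 1) (by omega))
    -- some block is active
    obtain ⟨i0, hi0, hact⟩ : ∃ i0, j0 ≤ i0 ∧
        (∀ m, b i0 ≤ m → m < b (i0 + 1) → D m = r i0 D m) := by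
      obtain ⟨m, hm2, hm⟩ := hDY.exists_gt (b j0)
      have hm2' : D m = 2 := hm2
      -- the block containing m
      have hex : ∃ i, m < b (i + 1) := ⟨m, lt_of_lt_of_le (Nat.lt_succ_self m) (hbm.le_apply)⟩
      set i := Nat.find hex with hi
      have h1 : m < b (i + 1) := Nat.find_spec hex
      have h2 : b i ≤ m := by
        by_cases hi0 : i = 0
        · rw [hi0]
          exact (hbm.monotone (Nat.zero_le j0)).trans hm.le
        · have h3 := Nat.find_min hex (m := i - 1) (by omega)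
          have h4 : i - 1 + 1 = i := by omega
          rw [h4] at h3
          exact not_lt.1 h3
      have h3 : j0 ≤ i := by
        have h4 : b j0 < b (i + 1) := hm.trans h1
        have h5 := hbm.lt_iff_lt.1 h4
        omega
      refine ⟨i, h3, ?_⟩
      rcases hblk i h3 with ⟨ε, hε⟩ | hc
      · exfalso
        have h6 := hε m h2 h1
        rw [hm2'] at h6
        exact lett_ne _ h6.symm
      · exact hc
    -- NN or Dd
    have hND : ∀ i, i0 + 1 ≤ i → NN O p1 (b i) D ∨ Dd O p1 p2 (b i) D := by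
      intro i hi
      induction i, hi using Nat.le_induction with
      | base => exact h4 i0 D hact
      | succ i hi ih =>
        rcases hblk i (by omega) with ⟨ε, hε⟩ | hc
        · rcases ih with ih | ih
          · left
            exact ih.hidden (hble i) (hbp1 (i + 1)) (Agr.refl _ _) (hcf1 i (by omega))
              (noA_of_lett hε)
          · right
            exact ih.ext (hble i) (hbp2 (i + 1)) (Agr.refl _ _) (hcf2 i (by omega))
        · exact h4 i D hc
    by_cases hA : ∃ i1, i0 + 1 ≤ i1 ∧ Dd O p1 p2 (b i1) D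
    · obtain ⟨i1, hi1, hd1⟩ := hA
      left
      have hdd : ∀ i, i1 ≤ i → Dd O p1 p2 (b i) D := by
        intro i hi
        induction i, hi using Nat.le_induction with
        | base => exact hd1
        | succ i hi ih =>
          exact ih.ext (hble i) (hbp2 (i + 1)) (Agr.refl _ _) (hcf2 i (by omega))
      filter_upwards [eventually_ge_atTop i1] with i hi
      rw [hW i]
      rcases hblk i (by omega) with ⟨ε, hε⟩ | hc
      · exact (h5 i D hDY ε hε (hnext i (by omega))).1 (hdd i hi)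
      · exact h3 i D hc
    · right
      have hNN : ∀ i, i0 + 1 ≤ i → NN O p1 (b i) D := by
        intro i hi
        rcases hND i hi with h | h
        · exact h
        · exact absurd ⟨i, hi, h⟩ hA
      filter_upwards [eventually_ge_atTop (i0 + 1)] with i hi
      rw [hW i]
      rcases hblk i (by omega) with ⟨ε, hε⟩ | hc
      · constructor
        · intro h6
          exact absurd h6 ((h5 i D hDY ε hε (hnext i (by omega))).2 (hNN i hi))
        · rintro ⟨m, h6, h7, h8⟩
          exact absurd h8 (noA_of_lett hε m h6 h7)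
      · constructor
        · intro _
          obtain ⟨m, h6, h7, h8⟩ := (hStep i).ex D
          exact ⟨m, h6, h7, by rw [hc m h6 h7, h8]⟩
        · intro _
          exact h3 i D hc


end Tau555
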