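import Pool.Agent.Helper555.Tau.Api
import Pool.Agent.Helper555.Tau.P_decision
import Pool.Agent.Helper555.Tau.P_main_construction

set_option autoImplicit false

open Set Filter

namespace Tau555


theorem task (p : Cond) (O : ℕ → ℕ → Set Pt) (hop : ∀ n m, IsOpen (O n m))
    (hmono : ∀ n, Monotone (O n)) (e : ℕ → Pt) (he : ∀ j n, ∃ m, e j ∈ O n m) :
    ∃ q, LEs q p ∧ ((∃ D ∈ Tail q, ∃ n, ∀ m, D ∉ O n m) ∨ Solved q O (Set.range e)) := by
  by_cases hq : ∃ q, LEs q p ∧ ∃ D ∈ Tail q, ∃ n, ∀ m, D ∉ O n m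
  · obtain ⟨q, hqp, hD⟩ := hq
    exact ⟨q, hqp, Or.inl hD⟩
  · obtain ⟨x, hx, -⟩ := exists_next p 0
    obtain ⟨p1, hp1, hd1⟩ := decision (fun p y D => NN O p y D)
      (fun p x D D' h hn => hn.congr h)
      (fun p q x D hr hn => by
        obtain ⟨k, hk⟩ := hn
        exact ⟨k, fun hw => hk (hw.ref hr)⟩) p x hx
    obtain ⟨p2, hp2, hd2⟩ := decision (fun q y D => Dd O p1 q y D)
      (fun p x D D' h hn => hn.congr h)
      (fun p q x D hr hn => Dd.ref hr hn) p1 x hp1.1
    have C : Ctx O x p1 p2 := {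
      ref := hp2
      op := hop
      mono := hmono
      cov := by
        intro q hq' D hD n
        by_contra hcon
        exact hq ⟨q, hq'.trans (hp2.lEs.trans hp1.lEs), D, hD, n,
          fun m hm => hcon ⟨m, hm⟩⟩
      dec1 := by
        intro y hy hxy D
        rcases hd1 y hy hxy D with h | h
        · exact Or.inl h
        · refine Or.inr fun q' hq' k => ?_
          by_contra hw
          exact h q' hq' ⟨k, hw⟩
      dec2 := hd2 }
    obtain ⟨q, hq1, hq2⟩ := main_construction C e he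
    exact ⟨q, (hq1.trans (hp2.trans hp1)).lEs, Or.inr hq2⟩


end Tau555
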