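import Pool.Agent.Helper555.Tau.Api
import Pool.Agent.Helper555.Tau.P_cset
import Pool.Agent.Helper555.Tau.P_lower_bound
import Pool.Agent.Helper555.Tau.P_pair
import Pool.Agent.Helper555.Tau.P_task

set_option autoImplicit false

open Set Filter

namespace Tau555


theorem one_step {ι : Type} [Countable ι] (Q : ι → Cond)
    (hQ : ∀ i j, LEs (Q i) (Q j) ∨ LEs (Q j) (Q i)) (A : Set Pt) (hA : A.Countable)
    (O : ℕ → ℕ → Set Pt) (hop : ∀ n m, IsOpen (O n m)) (hmono : ∀ n, Monotone (O n))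
    (N : Set ℕ) (hN : N.Infinite) (g : ℕ → ℕ) :
    ∃ (q : Cond) (D0 D1 : Pt), (∀ i, LEs q (Q i)) ∧ D0 ∈ Y ∧ D1 ∈ Y ∧
      (∀ i, EC (Q i) D0 ∧ EC (Q i) D1) ∧ {m | D0 m = 2} = {m | D1 m = 2} ∧
      (∃ M, ∀ m ≥ M, ∀ D, q.c D m = 2 → D0 m = 2) ∧
      {n | n ∈ N ∧ D0 ∈ OO n (g n) ∧ D1 ∉ OO n (g n)}.Infinite ∧
      {n | n ∈ N ∧ D1 ∈ OO n (g n) ∧ D0 ∉ OO n (g n)}.Infinite ∧
      ((∃ D ∈ A ∪ {D0, D1}, ∃ n, ∀ m, D ∉ O n m) ∨ (∃ D ∈ Tail q, ∃ n, ∀ m, D ∉ O n m) ∨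
        Solved q O (A ∪ {D0, D1})) := by
  obtain ⟨P, hP⟩ := lower_bound Q hQ
  obtain ⟨q', D0, D1, hq', h0, h1, e0, e1, heq, ⟨M, hM⟩, hinf0, hinf1⟩ := pair P N hN g
  by_cases hbad : ∃ D ∈ A ∪ {D0, D1}, ∃ n, ∀ m, D ∉ O n m
  · exact ⟨q', D0, D1, fun i => hq'.trans (hP i), h0, h1,
      fun i => ⟨EC.mono (hP i) e0, EC.mono (hP i) e1⟩, heq, ⟨M, hM⟩, hinf0, hinf1, Or.inl hbad⟩
  · push Not at hbad
    have hc : (A ∪ {D0, D1}).Countable := hA.union (by simp)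
    obtain ⟨e, he⟩ := hc.exists_eq_range ⟨D0, by simp⟩
    obtain ⟨q, hq, hs⟩ := task q' O hop hmono e
      (fun j n => hbad (e j) (he ▸ Set.mem_range_self j) n)
    obtain ⟨M', hM'⟩ := cset hq
    refine ⟨q, D0, D1, fun i => (hq.trans hq').trans (hP i), h0, h1,
      fun i => ⟨EC.mono (hP i) e0, EC.mono (hP i) e1⟩, heq, ⟨max M M', fun m hm D h =>
        hM m (le_trans (le_max_left _ _) hm) D (hM' m (le_trans (le_max_right _ _) hm) D h)⟩,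
      hinf0, hinf1, ?_⟩
    rcases hs with h | h
    · exact Or.inr (Or.inl h)
    · refine Or.inr (Or.inr ?_)
      rw [he]
      exact h


end Tau555
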