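import Pool.Agent.Helper555.Tau.Api
import Pool.Agent.Helper555.Tau.P_act_unique

set_option autoImplicit false

open Set Filter

namespace Tau555


theorem tail_countable (p : Cond) : (Tail p).Countable := by
  have h : Tail p ⊆ ⋃ b : ℕ, {D : Pt | b ∈ p.B ∧ ∀ m, b ≤ m → D m = p.c D m} := by
    rintro D ⟨b, hb, hD⟩
    exact Set.mem_iUnion.2 ⟨b, hb, hD⟩
  refine Set.Countable.mono h (Set.countable_iUnion fun b => Set.Finite.countable ?_)
  refine Set.Finite.of_finite_image (f := trunc b) ?_ ?_
  · refine (finite_trunc b).subset ?_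
    rintro _ ⟨D, _, rfl⟩
    exact ⟨D, rfl⟩
  · rintro D ⟨hb, hD⟩ D' ⟨_, hD'⟩ hDD
    have h0 : Agr b D D' := by
      intro m hm
      have := congrFun hDD m
      simpa [trunc, hm] using this
    funext m
    obtain ⟨z, hz, hmz⟩ := exists_next p m
    exact act_unique p hb hz h0 (fun m h1 _ => hD m h1) (fun m h1 _ => hD' m h1) m hmz


end Tau555
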