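import Pool.Agent.Helper555.Tau.Api
import Pool.Agent.Helper555.Tau.P_tail_countable
import Pool.Agent.Helper555.Tau.P_one_step

set_option autoImplicit false

open Set Filter

namespace Tau555


theorem recursion_wf_11552 {ι St : Type} [LinearOrder ι] [WellFoundedLT ι] [Nonempty St]
    (R : ∀ β : ι, (∀ γ, γ < β → St) → St → Prop)
    (hstep : ∀ β (H : ∀ γ, γ < β → St),
      (∀ γ (h : γ < β), R γ (fun δ hδ => H δ (hδ.trans h)) (H γ h)) → ∃ s, R β H s) :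
    ∃ F : ι → St, ∀ β, R β (fun γ _ => F γ) (F β) := by
  classical
  let G : ∀ β : ι, (∀ γ, γ < β → St) → St := fun β H =>
    if h : ∃ s, R β H s then h.choose else Classical.arbitrary St
  let F : ι → St := (wellFounded_lt (α := ι)).fix G
  have hF : ∀ β, F β = G β (fun γ _ => F γ) := fun β => WellFounded.fix_eq _ G β
  refine ⟨F, fun β => ?_⟩
  induction β using WellFoundedLT.induction with
  | ind β ih =>
    have h := hstep β (fun γ _ => F γ) (fun γ h => ih γ h)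
    have h2 : G β (fun γ _ => F γ) = h.choose := dif_pos h
    rw [hF β, h2]
    exact h.choose_spec

/-- the early points -/
def recursion_A_11552 {ι : Type} [LinearOrder ι] (β : ι) (H : ∀ γ, γ < β → Cond × Pt × Pt) :
    Set Pt :=
  Tail p0 ∪ ⋃ (γ : ι) (h : γ < β), ({(H γ h).2.1, (H γ h).2.2} ∪ Tail (H γ h).1)

theorem recursion_A_countable_11552 {ι : Type} [LinearOrder ι] (β : ι)
    (hc : (Set.Iio β).Countable) (H : ∀ γ, γ < β → Cond × Pt × Pt) :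
    (recursion_A_11552 β H).Countable := by
  unfold recursion_A_11552
  refine (tail_countable p0).union ?_
  exact Set.Countable.biUnion (s := Set.Iio β)
    (t := fun γ h => ({(H γ h).2.1, (H γ h).2.2} ∪ Tail (H γ h).1)) hc
    (fun γ h => (Set.to_countable _).union (tail_countable _))

/-- the properties of the state at `β` -/
structure recursion_R_11552 {ι : Type} [LinearOrder ι] (O : ι → ℕ → ℕ → Set Pt) (N : ι → Set ℕ)
    (g : ι → ℕ → ℕ) (β : ι) (H : ∀ γ, γ < β → Cond × Pt × Pt) (s : Cond × Pt × Pt) : Prop where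
  le : ∀ γ (h : γ < β), LEs s.1 (H γ h).1
  y0 : s.2.1 ∈ Y
  y1 : s.2.2 ∈ Y
  ec : ∀ γ (h : γ < β), EC (H γ h).1 s.2.1 ∧ EC (H γ h).1 s.2.2
  eq : {m | s.2.1 m = 2} = {m | s.2.2 m = 2}
  ev : ∃ M, ∀ m ≥ M, ∀ D, s.1.c D m = 2 → s.2.1 m = 2
  i0 : {n | n ∈ N β ∧ s.2.1 ∈ OO n (g β n) ∧ s.2.2 ∉ OO n (g β n)}.Infinite
  i1 : {n | n ∈ N β ∧ s.2.2 ∈ OO n (g β n) ∧ s.2.1 ∉ OO n (g β n)}.Infinite
  sol : (∃ D ∈ recursion_A_11552 β H ∪ {s.2.1, s.2.2}, ∃ n, ∀ m, D ∉ O β n m) ∨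
    (∃ D ∈ Tail s.1, ∃ n, ∀ m, D ∉ O β n m) ∨
      Solved s.1 (O β) (recursion_A_11552 β H ∪ {s.2.1, s.2.2})

/-- The transfinite recursion. -/
theorem recursion {ι : Type} [LinearOrder ι] [WellFoundedLT ι]
    (hc : ∀ β : ι, (Set.Iio β).Countable)
    (O : ι → ℕ → ℕ → Set Pt) (hop : ∀ β n m, IsOpen (O β n m))
    (hmono : ∀ β n, Monotone (O β n)) (N : ι → Set ℕ) (hN : ∀ β, (N β).Infinite)
    (g : ι → ℕ → ℕ) :
    ∃ (q : ι → Cond) (D0 D1 : ι → Pt), (∀ γ β, γ < β → LEs (q β) (q γ)) ∧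
      (∀ β, D0 β ∈ Y ∧ D1 β ∈ Y) ∧ (∀ γ β, γ < β → EC (q γ) (D0 β) ∧ EC (q γ) (D1 β)) ∧
      (∀ β, {m | D0 β m = 2} = {m | D1 β m = 2}) ∧
      (∀ β, ∃ M, ∀ m ≥ M, ∀ D, (q β).c D m = 2 → D0 β m = 2) ∧
      (∀ β, {n | n ∈ N β ∧ D0 β ∈ OO n (g β n) ∧ D1 β ∉ OO n (g β n)}.Infinite) ∧
      (∀ β, {n | n ∈ N β ∧ D1 β ∈ OO n (g β n) ∧ D0 β ∉ OO n (g β n)}.Infinite) ∧
      (∀ β, (∃ D ∈ (Tail p0 ∪ ⋃ γ ∈ Set.Iio β, ({D0 γ, D1 γ} ∪ Tail (q γ))) ∪ {D0 β, D1 β},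
          ∃ n, ∀ m, D ∉ O β n m) ∨
        (∃ D ∈ Tail (q β), ∃ n, ∀ m, D ∉ O β n m) ∨
        Solved (q β) (O β)
          ((Tail p0 ∪ ⋃ γ ∈ Set.Iio β, ({D0 γ, D1 γ} ∪ Tail (q γ))) ∪ {D0 β, D1 β})) := by
  haveI : Nonempty (Cond × Pt × Pt) := ⟨(p0, fun _ => 0, fun _ => 0)⟩
  obtain ⟨F, hF⟩ := recursion_wf_11552 (ι := ι) (St := Cond × Pt × Pt)
    (recursion_R_11552 O N g) (by
      intro β H hH
      haveI : Countable {γ : ι // γ < β} := (hc β).to_subtype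
      obtain ⟨q, D0, D1, h1, h2, h3, h4, h5, h6, h7, h8, h9⟩ :=
        one_step (ι := {γ : ι // γ < β}) (fun γ => (H γ.1 γ.2).1)
          (by
            rintro ⟨i, hi⟩ ⟨j, hj⟩
            rcases lt_trichotomy i j with h | h | h
            · exact Or.inr ((hH j hj).le i h)
            · subst h
              exact Or.inl (LEs.refl _)
            · exact Or.inl ((hH i hi).le j h))
          (recursion_A_11552 β H) (recursion_A_countable_11552 β (hc β) H) (O β) (hop β)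
          (hmono β) (N β) (hN β) (g β)
      exact ⟨(q, D0, D1), ⟨fun γ h => h1 ⟨γ, h⟩, h2, h3, fun γ h => h4 ⟨γ, h⟩, h5, h6, h7, h8,
        h9⟩⟩)
  refine ⟨fun β => (F β).1, fun β => (F β).2.1, fun β => (F β).2.2,
    fun γ β h => (hF β).le γ h, fun β => ⟨(hF β).y0, (hF β).y1⟩,
    fun γ β h => (hF β).ec γ h, fun β => (hF β).eq, fun β => (hF β).ev, fun β => (hF β).i0,
    fun β => (hF β).i1, fun β => (hF β).sol⟩


end Tau555
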