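import Pool.Agent.Helper555.Tau.Api

set_option autoImplicit false

open Set Filter

namespace Tau555


theorem aux_open_card : Cardinal.mk {U : Set Pt // IsOpen U} ≤ Cardinal.continuum := by
  classical
  let B := TopologicalSpace.countableBasis Pt
  have hB : TopologicalSpace.IsTopologicalBasis B := TopologicalSpace.isBasis_countableBasis Pt
  have hinj : Function.Injective
      (fun U : {U : Set Pt // IsOpen U} => {b : B | (b : Set Pt) ⊆ U.1}) := by
    intro U V h
    have key : ∀ W : {U : Set Pt // IsOpen U}, W.1 = ⋃ b ∈ {b : B | (b : Set Pt) ⊆ W.1}, (b : Set Pt) := by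
      intro W
      ext x
      simp only [Set.mem_iUnion, Set.mem_setOf_eq]
      constructor
      · intro hx
        obtain ⟨b, hb, hxb, hbW⟩ := hB.exists_subset_of_mem_open hx W.2
        exact ⟨⟨b, hb⟩, hbW, hxb⟩
      · rintro ⟨b, hb, hxb⟩
        exact hb hxb
    apply Subtype.ext
    rw [key U, key V]
    have h' : {b : B | (b : Set Pt) ⊆ U.1} = {b : B | (b : Set Pt) ⊆ V.1} := h
    rw [h']
  have hc : Countable B := (TopologicalSpace.countable_countableBasis Pt).to_subtype
  have h1 : Cardinal.mk B ≤ Cardinal.aleph0 := Cardinal.mk_le_aleph0_iff.2 hc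
  calc Cardinal.mk {U : Set Pt // IsOpen U} ≤ Cardinal.mk (Set B) := Cardinal.mk_le_of_injective hinj
    _ = 2 ^ Cardinal.mk B := Cardinal.mk_set
    _ ≤ 2 ^ Cardinal.aleph0 := Cardinal.power_le_power_left two_ne_zero h1
    _ = Cardinal.continuum := Cardinal.two_power_aleph0

theorem aux_arr {β : Type} (h : Cardinal.mk β ≤ Cardinal.continuum) :
    Cardinal.mk (ℕ → β) ≤ Cardinal.continuum := by
  have : Cardinal.mk (ℕ → β) = Cardinal.mk β ^ Cardinal.aleph0 := by
    simp [Cardinal.mk_pi]
  rw [this]
  calc Cardinal.mk β ^ Cardinal.aleph0 ≤ Cardinal.continuum ^ Cardinal.aleph0 :=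
        Cardinal.power_le_power_right h
    _ = Cardinal.continuum := Cardinal.continuum_power_aleph0

theorem task_card : Cardinal.mk ({O : ℕ → ℕ → Set Pt // (∀ n m, IsOpen (O n m)) ∧
      ∀ n, Monotone (O n)} × {N : Set ℕ // N.Infinite} × (ℕ → ℕ)) ≤ Cardinal.continuum := by
  have h1 : Cardinal.mk {O : ℕ → ℕ → Set Pt // (∀ n m, IsOpen (O n m)) ∧
      ∀ n, Monotone (O n)} ≤ Cardinal.continuum := by
    have hi : Function.Injective (fun O : {O : ℕ → ℕ → Set Pt // (∀ n m, IsOpen (O n m)) ∧
      ∀ n, Monotone (O n)} => (fun n m => (⟨O.1 n m, O.2.1 n m⟩ : {U : Set Pt // IsOpen U}))) := by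
      intro O O' h
      apply Subtype.ext
      funext n m
      have := congrFun (congrFun h n) m
      exact congrArg Subtype.val this
    exact (Cardinal.mk_le_of_injective hi).trans (aux_arr (aux_arr aux_open_card))
  have h2 : Cardinal.mk {N : Set ℕ // N.Infinite} ≤ Cardinal.continuum := by
    refine (Cardinal.mk_subtype_le _).trans ?_
    rw [Cardinal.mk_set, Cardinal.mk_nat, Cardinal.two_power_aleph0]
  have h3 : Cardinal.mk (ℕ → ℕ) ≤ Cardinal.continuum := by
    apply aux_arr
    rw [Cardinal.mk_nat]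
    exact Cardinal.aleph0_le_continuum
  rw [Cardinal.mk_prod, Cardinal.mk_prod]
  simp only [Cardinal.lift_id]
  calc _ ≤ Cardinal.continuum * (Cardinal.continuum * Cardinal.continuum) :=
        mul_le_mul' h1 (mul_le_mul' h2 h3)
    _ = Cardinal.continuum := by simp [Cardinal.continuum_mul_self]


end Tau555
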