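import Pool.Agent.Helper555.Tau.Api
import Pool.Agent.Helper555.Tau.P_cset
import Pool.Agent.Helper555.Tau.P_ec_cset
import Pool.Agent.Helper555.Tau.P_recursion
import Pool.Agent.Helper555.Tau.P_exists_index
import Pool.Agent.Helper555.Tau.P_task_card

set_option autoImplicit false

open Set Filter

namespace Tau555


/-- eventual inclusion -/
def exists_XOK_le (S T : Set ℕ) : Prop := ∃ M, ∀ m ≥ M, m ∈ S → m ∈ T

theorem exists_XOK_le_refl (S : Set ℕ) : exists_XOK_le S S := ⟨0, fun _ _ h => h⟩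

theorem exists_XOK_le_trans {S T U : Set ℕ} (h : exists_XOK_le S T) (h' : exists_XOK_le T U) :
    exists_XOK_le S U := by
  obtain ⟨M, hM⟩ := h
  obtain ⟨M', hM'⟩ := h'
  exact ⟨max M M', fun m hm hS => hM' m ((le_max_right _ _).trans hm)
    (hM m ((le_max_left _ _).trans hm) hS)⟩

theorem exists_XOK_tail {p : Cond} {D : Pt} (h : D ∈ Tail p) :
    exists_XOK_le {m | D m = 2} {m | ∀ D', p.c D' m = 2} ∧
      exists_XOK_le {m | ∀ D', p.c D' m = 2} {m | D m = 2} := by
  obtain ⟨b, hb, hD⟩ := h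
  constructor
  · refine ⟨b, fun m hm h2 D' => ?_⟩
    have h3 : D m = 2 := h2
    rw [hD m hm] at h3
    exact (p.aa D D' m).1 h3
  · refine ⟨b, fun m hm h2 => ?_⟩
    show D m = 2
    rw [hD m hm]
    exact h2 D

theorem exists_XOK (h : Cardinal.aleph 1 = Cardinal.continuum) : ∃ X : Set Pt, XOK X := by
  classical
  obtain ⟨ι, hLO, hWF, hctbl, hsurj⟩ := exists_index h
  let T := {O : ℕ → ℕ → Set Pt // (∀ n m, IsOpen (O n m)) ∧
      ∀ n, Monotone (O n)} × {N : Set ℕ // N.Infinite} × (ℕ → ℕ)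
  let O₀ : {O : ℕ → ℕ → Set Pt // (∀ n m, IsOpen (O n m)) ∧ ∀ n, Monotone (O n)} :=
    ⟨fun _ _ => univ, fun _ _ => isOpen_univ, fun _ => monotone_const⟩
  let N₀ : {N : Set ℕ // N.Infinite} := ⟨univ, infinite_univ⟩
  obtain ⟨f, hf⟩ := hsurj T ⟨(O₀, N₀, fun _ => 0)⟩ task_card
  obtain ⟨q, D0, D1, hle, hY, hEC, hset, hev, hp1, hp2, hsol⟩ := recursion hctbl
    (fun β => (f β).1.1) (fun β => (f β).1.2.1) (fun β => (f β).1.2.2)
    (fun β => (f β).2.1.1) (fun β => (f β).2.1.2) (fun β => (f β).2.2)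
  have hmem : ∀ D : Pt, D ∈ (Tail p0 ∪ ⋃ β, ({D0 β, D1 β} ∪ Tail (q β))) ↔
      D ∈ Tail p0 ∨ ∃ β, (D = D0 β ∨ D = D1 β) ∨ D ∈ Tail (q β) := by
    intro D
    simp only [mem_union, mem_iUnion, mem_insert_iff, mem_singleton_iff]
  have hsub : (Tail p0 ∪ ⋃ β, ({D0 β, D1 β} ∪ Tail (q β))) ⊆ Y := by
    intro D hD
    rcases (hmem D).1 hD with h1 | ⟨β, (rfl | rfl) | h1⟩
    · exact Tail.mem_Y h1
    · exact (hY β).1
    · exact (hY β).2
    · exact Tail.mem_Y h1
  refine ⟨Tail p0 ∪ ⋃ β, ({D0 β, D1 β} ∪ Tail (q β)), subset_union_left, hsub, ?_, ?_, ?_⟩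
  · -- comparability
    let A : ι → Set ℕ := fun β => {m | D0 β m = 2}
    let Cc : ι → Set ℕ := fun β => {m | ∀ D', (q β).c D' m = 2}
    have hCA : ∀ β, exists_XOK_le (Cc β) (A β) := by
      intro β
      obtain ⟨M, hM⟩ := hev β
      exact ⟨M, fun m hm hC => hM m hm (D0 β) (hC _)⟩
    have hAC : ∀ γ δ, γ < δ → exists_XOK_le (A δ) (Cc γ) := by
      intro γ δ hlt
      obtain ⟨M, hM⟩ := ec_cset (hEC γ δ hlt).1
      exact ⟨M, fun m hm hA => hM m hm hA⟩
    let S : Option (ι × Bool) → Set ℕ := fun s =>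
      match s with
      | none => univ
      | some (β, true) => A β
      | some (β, false) => Cc β
    have hSA : ∀ β b, exists_XOK_le (S (some (β, b))) (A β) := by
      rintro β (_ | _)
      · exact hCA β
      · exact exists_XOK_le_refl _
    have hCS : ∀ β b, exists_XOK_le (Cc β) (S (some (β, b))) := by
      rintro β (_ | _)
      · exact exists_XOK_le_refl _
      · exact hCA β
    have hlt' : ∀ γ δ b c, γ < δ → exists_XOK_le (S (some (δ, b))) (S (some (γ, c))) := by
      intro γ δ b c hlt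
      exact exists_XOK_le_trans (hSA δ b) (exists_XOK_le_trans (hAC γ δ hlt) (hCS γ c))
    have htot : ∀ s t, exists_XOK_le (S s) (S t) ∨ exists_XOK_le (S t) (S s) := by
      rintro (_ | ⟨β, b⟩) (_ | ⟨γ, c⟩)
      · left; exact exists_XOK_le_refl _
      · right; exact ⟨0, fun m _ _ => mem_univ m⟩
      · left; exact ⟨0, fun m _ _ => mem_univ m⟩
      · rcases lt_trichotomy β γ with hlt | heq | hgt
        · right; exact hlt' β γ c b hlt
        · subst heq
          cases b <;> cases c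
          · left; exact exists_XOK_le_refl _
          · left; exact hCA β
          · right; exact hCA β
          · left; exact exists_XOK_le_refl _
        · left; exact hlt' γ β b c hgt
    have hrep : ∀ D ∈ (Tail p0 ∪ ⋃ β, ({D0 β, D1 β} ∪ Tail (q β))),
        ∃ s, exists_XOK_le {m | D m = 2} (S s) ∧ exists_XOK_le (S s) {m | D m = 2} := by
      intro D hD
      rcases (hmem D).1 hD with h1 | ⟨β, (rfl | rfl) | h1⟩
      · refine ⟨none, ⟨0, fun m _ _ => mem_univ m⟩, ?_⟩
        obtain ⟨b, hb, hD'⟩ := h1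
        refine ⟨b, fun m hm _ => ?_⟩
        show D m = 2
        rw [hD' m hm]
        rfl
      · exact ⟨some (β, true), exists_XOK_le_refl _, exists_XOK_le_refl _⟩
      · refine ⟨some (β, true), ?_, ?_⟩
        · rw [← hset β]; exact exists_XOK_le_refl _
        · rw [← hset β]; exact exists_XOK_le_refl _
      · exact ⟨some (β, false), (exists_XOK_tail h1).1, (exists_XOK_tail h1).2⟩
    intro D hD D' hD'
    obtain ⟨s, hs1, hs2⟩ := hrep D hD
    obtain ⟨t, ht1, ht2⟩ := hrep D' hD'
    rcases htot s t with hst | hst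
    · left; exact exists_XOK_le_trans hs1 (exists_XOK_le_trans hst ht2)
    · right; exact exists_XOK_le_trans ht1 (exists_XOK_le_trans hst hs2)
  · -- pairs
    intro N hN g
    obtain ⟨β, hβ⟩ := hf (O₀, ⟨N, hN⟩, g)
    refine ⟨D0 β, (hmem _).2 (Or.inr ⟨β, Or.inl (Or.inl rfl)⟩), D1 β,
      (hmem _).2 (Or.inr ⟨β, Or.inl (Or.inr rfl)⟩), ?_, ?_⟩
    · have := hp1 β
      simp only [hβ] at this
      exact this
    · have := hp2 β
      simp only [hβ] at this
      exact this
  · -- solving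
    intro O hop hmono hcov
    obtain ⟨β, hβ⟩ := hf (⟨O, hop, hmono⟩, N₀, fun _ => 0)
    have h0 := hsol β
    simp only [hβ] at h0
    have hearly : ∀ D, D ∈ ((Tail p0 ∪ ⋃ γ ∈ Set.Iio β, ({D0 γ, D1 γ} ∪ Tail (q γ))) ∪
        {D0 β, D1 β}) → D ∈ (Tail p0 ∪ ⋃ β, ({D0 β, D1 β} ∪ Tail (q β))) := by
      intro D hD
      rw [hmem]
      rcases hD with (hD | hD) | hD
      · exact Or.inl hD
      · simp only [mem_iUnion, exists_prop] at hD
        obtain ⟨γ, _, hD⟩ := hD
        right
        refine ⟨γ, ?_⟩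
        rcases hD with hD | hD
        · left; simpa using hD
        · right; exact hD
      · right
        refine ⟨β, Or.inl ?_⟩
        simpa using hD
    rcases h0 with ⟨D, hD, n, hn⟩ | ⟨D, hD, n, hn⟩ | hS
    · obtain ⟨m, hm⟩ := hcov D (hearly D hD) n
      exact absurd hm (hn m)
    · obtain ⟨m, hm⟩ := hcov D ((hmem D).2 (Or.inr ⟨β, Or.inr hD⟩)) n
      exact absurd hm (hn m)
    · obtain ⟨b, k, I, g, hb, hk, hI, hE, hYY⟩ := hS
      refine ⟨b, k, I, g, hb, hk, hI, fun D hD => ?_⟩
      by_cases hDE : D ∈ ((Tail p0 ∪ ⋃ γ ∈ Set.Iio β, ({D0 γ, D1 γ} ∪ Tail (q γ))) ∪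
        {D0 β, D1 β})
      · exact Or.inl (hE D hDE)
      · apply hYY D (hsub hD)
        rcases (hmem D).1 hD with h1 | ⟨γ, h1⟩
        · exact absurd (Or.inl (Or.inl h1)) hDE
        · rcases lt_trichotomy γ β with hlt | heq | hgt
          · exfalso
            apply hDE
            left; right
            simp only [mem_iUnion, exists_prop]
            refine ⟨γ, hlt, ?_⟩
            rcases h1 with h1 | h1
            · left; simpa using h1
            · right; exact h1
          · subst heq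
            rcases h1 with h1 | h1
            · exfalso
              apply hDE
              right
              simpa using h1
            · exact Tail.ec h1
          · rcases h1 with (rfl | rfl) | h1
            · exact (hEC β γ hgt).1
            · exact (hEC β γ hgt).2
            · exact EC.mono (hle β γ hgt) (Tail.ec h1)


end Tau555
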