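import Pool.Agent.Helper555.Tau.Api

set_option autoImplicit false

open Set Filter

namespace Tau555


theorem exists_embedding : ∃ f : Pt → ℝ, Topology.IsEmbedding f := by
  let g : Pt → (ℕ → Bool) := fun D k =>
    if k % 2 = 0 then decide (D (k / 2) = 1) else decide (D (k / 2) = 2)
  have hgc : Continuous g := by
    apply continuous_pi
    intro k
    have h1 : Continuous (fun D : Pt => D (k / 2)) := continuous_apply _
    by_cases hk : k % 2 = 0
    · simp only [g, hk, if_true]
      exact (continuous_of_discreteTopology (f := fun a : Fin 3 => decide (a = 1))).comp h1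
    · simp only [g, hk, if_false]
      exact (continuous_of_discreteTopology (f := fun a : Fin 3 => decide (a = 2))).comp h1
  have hgi : Function.Injective g := by
    intro D D' h
    funext m
    have h1 := congrFun h (2 * m)
    have h2 := congrFun h (2 * m + 1)
    have e1 : (2 * m) % 2 = 0 := by omega
    have e2 : (2 * m) / 2 = m := by omega
    have e3 : ¬ (2 * m + 1) % 2 = 0 := by omega
    have e4 : (2 * m + 1) / 2 = m := by omega
    simp only [g, e1, e2, e3, e4, if_true, if_false, decide_eq_decide] at h1 h2
    revert h1 h2
    generalize D m = a
    generalize D' m = b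
    revert a b
    decide
  have hge : Topology.IsEmbedding g := (hgc.isClosedEmbedding hgi).isEmbedding
  exact ⟨fun D => ((cantorSetHomeomorphNatToBool.symm (g D) : cantorSet) : ℝ),
    Topology.IsEmbedding.subtypeVal.comp
      (cantorSetHomeomorphNatToBool.symm.isEmbedding.comp hge)⟩


end Tau555
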