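import Pool.Agent.Helper555.Tau.Api

set_option autoImplicit false

open Set Filter

namespace Tau555


theorem merged_fin {p : ℕ → Prop} (h : ∀ᶠ l in atTop, ¬ p l) : {l | p l}.Finite := by
  rw [← Nat.cofinite_eq_atTop, Filter.eventually_cofinite] at h
  simpa using h

theorem merged {X : Set Pt} (hX : XOK X) {α : Type} [TopologicalSpace α] (f : α → Pt)
    (hf : Topology.IsInducing f) (hr : Set.range f = X) : MergedUfinTau α := by
  classical
  intro U hU _
  have hsc : SecondCountableTopology α := hf.secondCountableTopology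
  obtain ⟨D0, hD0⟩ : X.Nonempty := ⟨fun _ => 2, hX.tail ⟨0, mem_univ _, fun _ _ => rfl⟩⟩
  obtain ⟨x0, hx0⟩ : ∃ x, f x = D0 := by
    rw [← hr] at hD0
    exact hD0
  have hfX : ∀ x, f x ∈ X := fun x => hr ▸ mem_range_self x
  -- countable subcovers
  have hV : ∀ n, ∃ V : ℕ → Set α, (∀ j, V j ∈ U n) ∧ ⋃ j, V j = univ := by
    intro n
    obtain ⟨T, hTc, hTU, hTeq⟩ := TopologicalSpace.isOpen_sUnion_countable (U n) (hU n).1
    rw [(hU n).2.1] at hTeq
    have hTne : T.Nonempty := by
      have hx : x0 ∈ ⋃₀ T := by rw [hTeq]; exact mem_univ _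
      obtain ⟨t, ht, -⟩ := hx
      exact ⟨t, ht⟩
    obtain ⟨V, hVr⟩ := hTc.exists_eq_range hTne
    refine ⟨V, fun j => hTU (by rw [hVr]; exact mem_range_self j), ?_⟩
    rw [← sUnion_range, ← hVr, hTeq]
  choose V hVU hVc using hV
  have hV' : ∀ n j, ∃ t : Set Pt, IsOpen t ∧ f ⁻¹' t = V n j := fun n j =>
    hf.isOpen_iff.1 ((hU n).1 _ (hVU n j))
  choose V' hV'o hV'e using hV'
  have hVm : ∀ n j x, x ∈ V n j ↔ f x ∈ V' n j := by
    intro n j x
    rw [← hV'e n j]
    rfl
  set O : ℕ → ℕ → Set Pt := fun n m => {D | ∃ j, j ≤ m ∧ D ∈ V' n j} with hO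
  have hOo : ∀ n m, IsOpen (O n m) := by
    intro n m
    have h1 : O n m = ⋃ j, ⋃ (_ : j ≤ m), V' n j := by
      ext D
      simp [hO]
    rw [h1]
    exact isOpen_iUnion fun j => isOpen_iUnion fun _ => hV'o n j
  have hOm : ∀ n, Monotone (O n) := by
    rintro n m m' hmm D ⟨j, hj, hD⟩
    exact ⟨j, hj.trans hmm, hD⟩
  have hOc : ∀ D ∈ X, ∀ n, ∃ m, D ∈ O n m := by
    intro D hD n
    rw [← hr] at hD
    obtain ⟨x, rfl⟩ := hD
    have hx : x ∈ ⋃ j, V n j := by rw [hVc n]; exact mem_univ _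
    obtain ⟨j, hj⟩ := mem_iUnion.1 hx
    exact ⟨j, j, le_rfl, (hVm n j x).1 hj⟩
  obtain ⟨b, k, I, g, hb, hk, hI, hsol⟩ := hX.solve O hOo hOm hOc
  set W : ℕ → Set Pt := fun i => ⋃ n ∈ I i, O n (g n) with hW
  have hWm : ∀ i D, D ∈ W i ↔ ∃ n ∈ I i, D ∈ O n (g n) := by
    intro i D
    simp [hW]
  -- properties of the sets `W`
  have hWo : ∀ i, IsOpen (W i) := by
    intro i
    exact isOpen_biUnion fun n _ => hOo n _
  have hble : ∀ l, l ≤ b l := fun l => hb.id_le l
  have hWinf : ∀ D ∈ X, {l | D ∈ W l}.Infinite := by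
    intro D hD
    rcases hsol D hD with h | h
    · intro hfin
      obtain ⟨N, hN⟩ := eventually_atTop.1 h
      obtain ⟨M, hM⟩ := hfin.bddAbove
      have h1 : max N (M + 1) ∈ {l | D ∈ W l} := hN _ (le_max_left _ _)
      have h2 := hM h1
      have h3 := le_max_right N (M + 1)
      omega
    · obtain ⟨N, hN⟩ := eventually_atTop.1 h
      refine Set.infinite_of_forall_exists_gt fun n => ?_
      set n' := max N (n + 1) with hn'
      obtain ⟨m, hm, hmb⟩ := (hX.sub hD : {m | D m = 2}.Infinite).exists_gt (b n')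
      -- find the block of `m`
      have hex : ∃ l, m < b l := ⟨m + 1, lt_of_lt_of_le (Nat.lt_succ_self m) (hble (m + 1))⟩
      obtain ⟨hl1, hl2⟩ : m < b (Nat.find hex) ∧ ∀ l < Nat.find hex, ¬ m < b l :=
        ⟨Nat.find_spec hex, fun l hl => Nat.find_min hex hl⟩
      set l := Nat.find hex with hl
      have hn'l : n' < l := by
        by_contra hcon
        have h1 : b l ≤ b n' := hb.monotone (not_lt.1 hcon)
        omega
      have hl0 : l - 1 + 1 = l := by omega
      have h2 : b (l - 1) ≤ m := not_lt.1 (hl2 (l - 1) (by omega))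
      refine ⟨l - 1, ?_, ?_⟩
      · have h3 := hN (l - 1) (by have := le_max_left N (n + 1); omega)
        change D ∈ W (l - 1)
        refine h3.2 ⟨m, h2, ?_, hm⟩
        rw [hl0]
        exact hl1
      · have := le_max_right N (n + 1)
        omega
  have hWcmp : ∀ D ∈ X, ∀ D' ∈ X, {l | D ∈ W l ∧ D' ∉ W l}.Finite ∨
      {l | D' ∈ W l ∧ D ∉ W l}.Finite := by
    have key : ∀ D D' : Pt, (∀ᶠ i in atTop, (D ∈ W i ↔ ∃ m, b i ≤ m ∧ m < b (i + 1) ∧ D m = 2)) →
        (∀ᶠ i in atTop, (D' ∈ W i ↔ ∃ m, b i ≤ m ∧ m < b (i + 1) ∧ D' m = 2)) →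
        (∃ M, ∀ m ≥ M, D m = 2 → D' m = 2) → {l | D ∈ W l ∧ D' ∉ W l}.Finite := by
      rintro D D' h1 h2 ⟨M, hM⟩
      apply merged_fin
      filter_upwards [h1, h2, eventually_ge_atTop M] with l e1 e2 e3
      rintro ⟨h3, h4⟩
      obtain ⟨m, hm1, hm2, hm3⟩ := e1.1 h3
      have := hble l
      exact h4 (e2.2 ⟨m, hm1, hm2, hM m (by omega) hm3⟩)
    intro D hD D' hD'
    rcases hsol D' hD' with h' | h'
    · left
      apply merged_fin
      filter_upwards [h'] with l hl
      exact fun h => h.2 hl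
    · rcases hsol D hD with h | h
      · right
        apply merged_fin
        filter_upwards [h] with l hl
        exact fun h => h.2 hl
      · rcases hX.cmp D hD D' hD' with hc | hc
        · exact Or.inl (key D D' h h' hc)
        · exact Or.inr (key D' D h' h hc)
  -- the intervals
  set a : ℕ → ℕ := fun l => if l = 0 then 0 else k l with ha
  have ha0 : a 0 = 0 := by simp [ha]
  have ha1 : ∀ l, a (l + 1) = k (l + 1) := by intro l; simp [ha]
  have hale : ∀ l, a l ≤ k l := by
    intro l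
    rcases Nat.eq_zero_or_pos l with rfl | h
    · rw [ha0]; exact Nat.zero_le _
    · obtain ⟨l', rfl⟩ := Nat.exists_eq_succ_of_ne_zero h.ne'
      exact (ha1 l').le
  have hamono : StrictMono a := by
    apply strictMono_nat_of_lt_succ
    intro l
    rw [ha1]
    exact lt_of_le_of_lt (hale l) (hk (Nat.lt_succ_self l))
  have huniq : ∀ l i n, n ∈ I i → a l ≤ n → n < a (l + 1) → i = l := by
    intro l i n hn h1 h2
    obtain ⟨h3, h4⟩ := hI i n hn
    rw [ha1] at h2
    have h5 : i < l + 1 := hk.lt_iff_lt.1 (lt_of_le_of_lt h3 h2)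
    rcases Nat.eq_zero_or_pos l with rfl | h
    · omega
    · obtain ⟨l', rfl⟩ := Nat.exists_eq_succ_of_ne_zero h.ne'
      rw [Nat.succ_eq_add_one, ha1] at h1
      have h6 : l' + 1 < i + 1 := hk.lt_iff_lt.1 (lt_of_le_of_lt h1 h4)
      omega
  -- the finite families
  set F : Set ℕ → ℕ → Finset (Set α) := fun S n =>
    if ∃ l ∈ S, n ∈ I l then (Finset.range (g n + 1)).image (V n) else ∅ with hF
  have hFU : ∀ S n, (↑(F S n) : Set (Set α)) ⊆ U n := by
    intro S n t ht
    rw [Finset.mem_coe] at ht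
    simp only [hF] at ht
    split_ifs at ht with h
    · obtain ⟨j, -, rfl⟩ := Finset.mem_image.1 ht
      exact hVU n j
    · simp at ht
  have hFm : ∀ S l x, (x ∈ ⋃ n ∈ Set.Ico (a l) (a (l + 1)), ⋃₀ (↑(F S n) : Set (Set α))) ↔
      l ∈ S ∧ f x ∈ W l := by
    intro S l x
    rw [mem_iUnion₂]
    constructor
    · rintro ⟨n, ⟨hn1, hn2⟩, t, ht, hxt⟩
      rw [Finset.mem_coe] at ht
      simp only [hF] at ht
      split_ifs at ht with h
      · obtain ⟨j, hj, rfl⟩ := Finset.mem_image.1 ht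
        obtain ⟨l', hl', hnl'⟩ := h
        have := huniq l l' n hnl' hn1 hn2
        subst this
        refine ⟨hl', (hWm _ _).2 ⟨n, hnl', j, ?_, (hVm n j x).1 hxt⟩⟩
        rw [Finset.mem_range] at hj
        omega
      · simp at ht
    · rintro ⟨hl, hx⟩
      obtain ⟨n, hn, j, hj, hxj⟩ := (hWm _ _).1 hx
      obtain ⟨h3, h4⟩ := hI l n hn
      refine ⟨n, ⟨(hale l).trans h3, by rw [ha1]; exact h4⟩, V n j, ?_, (hVm n j x).2 hxj⟩
      rw [Finset.mem_coe]
      have hex : ∃ l ∈ S, n ∈ I l := ⟨l, hl, hn⟩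
      simp only [hF]
      rw [if_pos hex]
      exact Finset.mem_image.2 ⟨j, Finset.mem_range.2 (by omega), rfl⟩
  -- the case distinction
  by_cases hT : {l | f ⁻¹' (W l) = univ}.Infinite
  · -- infinitely many of the sets are the whole space
    set L : ℕ → ℕ := Nat.nth (fun l => f ⁻¹' (W l) = univ) with hL
    have hLm : StrictMono L := Nat.nth_strictMono hT
    have hLp : ∀ j, f ⁻¹' (W (L j)) = univ := fun j => Nat.nth_mem_of_infinite hT j
    refine ⟨F univ, hFU univ, fun j => Nat.casesOn j 0 (fun j' => a (L j' + 1)), ?_, rfl, Or.inl ?_⟩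
    · apply strictMono_nat_of_lt_succ
      intro j
      cases j with
      | zero =>
        change 0 < a (L 0 + 1)
        rw [← ha0]
        exact hamono (Nat.succ_pos _)
      | succ j =>
        change a (L j + 1) < a (L (j + 1) + 1)
        apply hamono
        have : L j < L (j + 1) := hLm (Nat.lt_succ_self j)
        omega
    · intro j
      apply eq_univ_of_forall
      intro x
      have hx : x ∈ ⋃ n ∈ Set.Ico (a (L j)) (a (L j + 1)), ⋃₀ (↑(F univ n) : Set (Set α)) := by
        rw [hFm]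
        refine ⟨mem_univ _, ?_⟩
        have : x ∈ f ⁻¹' (W (L j)) := by rw [hLp j]; exact mem_univ _
        exact this
      obtain ⟨n, ⟨hn1, hn2⟩, hxn⟩ := mem_iUnion₂.1 hx
      refine mem_iUnion₂.2 ⟨n, ⟨?_, ?_⟩, hxn⟩
      · cases j with
        | zero => exact Nat.zero_le _
        | succ j =>
          change a (L j + 1) ≤ n
          refine le_trans (hamono.monotone ?_) hn1
          have : L j < L (j + 1) := hLm (Nat.lt_succ_self j)
          omega
      · exact hn2
  · rw [Set.not_infinite] at hT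
    refine ⟨F {l | f ⁻¹' (W l) = univ}ᶜ, hFU _, a, hamono, ha0, Or.inr ?_⟩
    set M : ℕ → Set α := fun l => ⋃ n ∈ Set.Ico (a l) (a (l + 1)),
      ⋃₀ (↑(F {l | f ⁻¹' (W l) = univ}ᶜ n) : Set (Set α)) with hM
    have hMm : ∀ l x, x ∈ M l ↔ (¬ f ⁻¹' (W l) = univ) ∧ f x ∈ W l := fun l x => hFm _ l x
    refine ⟨?_, ?_, ?_, ?_⟩
    · intro l
      by_cases h : f ⁻¹' (W l) = univ
      · have h1 : M l = ∅ := by
          ext x
          rw [hMm]
          simp [h]
        rw [h1]
        exact isOpen_empty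
      · have h1 : M l = f ⁻¹' (W l) := by
          ext x
          rw [hMm]
          exact ⟨fun h => h.2, fun h' => ⟨h, h'⟩⟩
        rw [h1]
        exact (hWo l).preimage hf.continuous
    · intro l hl
      have h1 : ∀ x, x ∈ M l := fun x => by rw [hl]; exact mem_univ _
      have h2 := ((hMm l x0).1 (h1 x0)).1
      exact h2 (eq_univ_of_forall fun x => ((hMm l x).1 (h1 x)).2)
    · intro x
      have h1 := (hWinf (f x) (hfX x)).sdiff hT
      refine h1.mono ?_
      rintro l ⟨hl1, hl2⟩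
      exact (hMm l x).2 ⟨hl2, hl1⟩
    · intro x y
      rcases hWcmp (f x) (hfX x) (f y) (hfX y) with h | h
      · left
        refine h.subset ?_
        rintro l ⟨h1, h2⟩
        have h3 := (hMm l x).1 h1
        exact ⟨h3.2, fun h4 => h2 ((hMm l y).2 ⟨h3.1, h4⟩)⟩
      · right
        refine h.subset ?_
        rintro l ⟨h1, h2⟩
        have h3 := (hMm l y).1 h1
        exact ⟨h3.2, fun h4 => h2 ((hMm l x).2 ⟨h3.1, h4⟩)⟩


end Tau555
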