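import Pool.Agent.Helper555.Tau.Api

set_option autoImplicit false

open Set Filter

namespace Tau555


theorem not_ufin_open (n m : ℕ) : IsOpen (OO n m) := by
  unfold OO
  refine IsOpen.union ?_ ?_
  · have : {D : Pt | D n ≠ 1} = (fun D : Pt => D n) ⁻¹' ({1}ᶜ) := rfl
    rw [this]
    exact (isOpen_discrete _).preimage (continuous_apply n)
  · have : {D : Pt | ∃ j, n < j ∧ j ≤ m ∧ D j = 2} =
        ⋃ j : ℕ, ⋃ _ : n < j ∧ j ≤ m, (fun D : Pt => D j) ⁻¹' {2} := by
      ext D
      simp only [Set.mem_iUnion, Set.mem_preimage, Set.mem_singleton_iff, exists_prop]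
      constructor
      · rintro ⟨j, h1, h2, h3⟩
        exact ⟨j, ⟨h1, h2⟩, h3⟩
      · rintro ⟨j, ⟨h1, h2⟩, h3⟩
        exact ⟨j, h1, h2, h3⟩
    rw [this]
    exact isOpen_iUnion fun j => isOpen_iUnion fun _ =>
      (isOpen_discrete _).preimage (continuous_apply j)

theorem not_ufin_mono (n : ℕ) : Monotone (OO n) := by
  intro m m' h D hD
  rcases hD with hD | ⟨j, h1, h2, h3⟩
  · exact Or.inl hD
  · exact Or.inr ⟨j, h1, h2.trans h, h3⟩

theorem not_ufin_cover {D : Pt} (hD : D ∈ Y) (n : ℕ) : ∃ m, D ∈ OO n m := by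
  obtain ⟨j, hj, hnj⟩ := Set.Infinite.exists_gt hD n
  exact ⟨j, Or.inr ⟨j, hnj, le_rfl, hj⟩⟩

theorem not_ufin_out (n m : ℕ) : ∃ D ∈ Tail p0, D ∉ OO n m := by
  refine ⟨fun j => if j = n then 1 else if j ≤ max n m then 0 else 2, ?_, ?_⟩
  · refine ⟨max n m + 1, Set.mem_univ _, ?_⟩
    intro j hj
    have h1 : j ≠ n := by
      have := le_max_left n m
      omega
    have h2 : ¬ j ≤ max n m := by omega
    show (if j = n then (1 : Fin 3) else if j ≤ max n m then 0 else 2) = 2
    rw [if_neg h1, if_neg h2]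
  · rintro (h | ⟨j, h1, h2, h3⟩)
    · apply h
      show (if n = n then (1 : Fin 3) else if n ≤ max n m then 0 else 2) = 1
      rw [if_pos rfl]
    · have h4 : j ≠ n := by omega
      have h5 : j ≤ max n m := h2.trans (le_max_right _ _)
      change (if j = n then (1 : Fin 3) else if j ≤ max n m then 0 else 2) = 2 at h3
      rw [if_neg h4, if_pos h5] at h3
      exact absurd h3 (by decide)

theorem not_ufin_sUnion {α : Type} (f : α → Pt) (n : ℕ) (F : Finset (Set α))
    (hne : F.Nonempty) (hF : (↑F : Set (Set α)) ⊆ Set.range (fun m => f ⁻¹' (OO n m))) :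
    ∃ m, ⋃₀ (↑F : Set (Set α)) = f ⁻¹' (OO n m) := by
  classical
  revert hF
  refine Finset.Nonempty.cons_induction (motive := fun F _ =>
    (↑F : Set (Set α)) ⊆ Set.range (fun m => f ⁻¹' (OO n m)) →
    ∃ m, ⋃₀ (↑F : Set (Set α)) = f ⁻¹' (OO n m)) ?_ ?_ hne
  · intro u hu
    obtain ⟨m, hm⟩ := hu (by simp : u ∈ (↑({u} : Finset (Set α)) : Set (Set α)))
    exact ⟨m, by simp only [Finset.coe_singleton, Set.sUnion_singleton]; exact hm.symm⟩
  · intro u F' hu hne' ih hF'
    have h1 : u ∈ Set.range (fun m => f ⁻¹' (OO n m)) := hF' (by simp)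
    have h2 : (↑F' : Set (Set α)) ⊆ Set.range (fun m => f ⁻¹' (OO n m)) := by
      intro v hv
      apply hF'
      rw [Finset.coe_cons]
      exact Or.inr hv
    obtain ⟨m1, hm1⟩ := h1
    obtain ⟨m2, hm2⟩ := ih h2
    refine ⟨max m1 m2, ?_⟩
    rw [Finset.coe_cons, Set.sUnion_insert, hm2, ← hm1]
    rcases le_total m1 m2 with h | h
    · rw [max_eq_right h]
      exact Set.union_eq_self_of_subset_left (Set.preimage_mono (not_ufin_mono n h))
    · rw [max_eq_left h]
      exact Set.union_eq_self_of_subset_right (Set.preimage_mono (not_ufin_mono n h))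

theorem not_ufin {X : Set Pt} (hX : XOK X) {α : Type} [TopologicalSpace α] (f : α → Pt)
    (hf : Topology.IsInducing f) (hr : Set.range f = X) : ¬ UfinTau α := by
  classical
  intro hU
  have hout : ∀ n m, ∃ x : α, f x ∉ OO n m := by
    intro n m
    obtain ⟨D, hD, hD'⟩ := not_ufin_out n m
    have : D ∈ Set.range f := by rw [hr]; exact hX.tail hD
    obtain ⟨x, rfl⟩ := this
    exact ⟨x, hD'⟩
  have hα : Nonempty α := ⟨(hout 0 0).choose⟩
  have hmem : ∀ x, f x ∈ X := fun x => by rw [← hr]; exact ⟨x, rfl⟩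
  obtain ⟨F, hF, hτ⟩ := hU (fun n => Set.range (fun m => f ⁻¹' (OO n m))) (by
      intro n
      refine ⟨?_, ?_, ?_⟩
      · rintro _ ⟨m, rfl⟩
        exact (not_ufin_open n m).preimage hf.continuous
      · rw [Set.eq_univ_iff_forall]
        intro x
        obtain ⟨m, hm⟩ := not_ufin_cover (hX.sub (hmem x)) n
        exact ⟨f ⁻¹' (OO n m), ⟨m, rfl⟩, hm⟩
      · rintro ⟨m, hm⟩
        obtain ⟨x, hx⟩ := hout n m
        apply hx
        have : x ∈ f ⁻¹' (OO n m) := by
          have hm' : f ⁻¹' (OO n m) = univ := hm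
          rw [hm']; exact Set.mem_univ x
        exact this) (by
      intro n F hF
      rcases F.eq_empty_or_nonempty with rfl | hne
      · rw [Finset.coe_empty, Set.sUnion_empty]
        exact Set.empty_ne_univ
      · obtain ⟨m, hm⟩ := not_ufin_sUnion f n F hne hF
        rw [hm]
        intro h
        obtain ⟨x, hx⟩ := hout n m
        apply hx
        have : x ∈ f ⁻¹' (OO n m) := by rw [h]; exact Set.mem_univ x
        exact this)
  have hg : ∀ n, ∃ m, (F n).Nonempty → ⋃₀ (↑(F n) : Set (Set α)) = f ⁻¹' (OO n m) := by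
    intro n
    by_cases hne : (F n).Nonempty
    · obtain ⟨m, hm⟩ := not_ufin_sUnion f n (F n) hne (hF n)
      exact ⟨m, fun _ => hm⟩
    · exact ⟨0, fun h => absurd h hne⟩
  choose g hg using hg
  obtain ⟨-, -, hinf, hcmp⟩ := hτ
  have hN : {n | (F n).Nonempty}.Infinite := by
    refine (hinf hα.some).mono ?_
    intro n hn
    obtain ⟨u, hu, -⟩ := hn
    exact ⟨u, hu⟩
  obtain ⟨D0, hD0, D1, hD1, h01, h10⟩ := hX.pair _ hN g
  rw [← hr] at hD0 hD1
  obtain ⟨x, rfl⟩ := hD0
  obtain ⟨y, rfl⟩ := hD1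
  rcases hcmp x y with h | h
  · apply h01
    refine h.subset ?_
    rintro n ⟨h1, h2, h3⟩
    have := hg n h1
    refine ⟨?_, ?_⟩
    · show x ∈ ⋃₀ (↑(F n) : Set (Set α))
      rw [this]; exact h2
    · show y ∉ ⋃₀ (↑(F n) : Set (Set α))
      rw [this]; exact h3
  · apply h10
    refine h.subset ?_
    rintro n ⟨h1, h2, h3⟩
    have := hg n h1
    refine ⟨?_, ?_⟩
    · show y ∈ ⋃₀ (↑(F n) : Set (Set α))
      rw [this]; exact h2
    · show x ∉ ⋃₀ (↑(F n) : Set (Set α))
      rw [this]; exact h3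


end Tau555
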