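import Pool.Agent.Helper555.Tau.Api
import Pool.Agent.Helper555.Tau.P_exists_XOK
import Pool.Agent.Helper555.Tau.P_not_ufin
import Pool.Agent.Helper555.Tau.P_merged
import Pool.Agent.Helper555.Tau.P_exists_embedding

set_option autoImplicit false

open Set Filter

namespace Tau555


theorem final (h : Cardinal.aleph 1 = Cardinal.continuum) :
    ∃ X : Set ℝ, MergedUfinTau X ∧ ¬ UfinTau X := by
  obtain ⟨X0, hX0⟩ := exists_XOK h
  obtain ⟨f0, hf0⟩ := exists_embedding
  have hex : ∀ x : (f0 '' X0 : Set ℝ), ∃ y : Pt, y ∈ X0 ∧ f0 y = x := by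
    rintro ⟨x, y, hy, rfl⟩
    exact ⟨y, hy, rfl⟩
  choose φ hφ1 hφ2 using hex
  have hcomp : f0 ∘ φ = Subtype.val := funext hφ2
  have hind : Topology.IsInducing φ := by
    rw [← hf0.isInducing.of_comp_iff, hcomp]
    exact Topology.IsInducing.subtypeVal
  have hr : Set.range φ = X0 := by
    ext y
    constructor
    · rintro ⟨x, rfl⟩
      exact hφ1 x
    · intro hy
      exact ⟨⟨f0 y, y, hy, rfl⟩, hf0.injective (hφ2 _)⟩
  exact ⟨f0 '' X0, merged hX0 φ hind hr, not_ufin hX0 φ hind hr⟩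


end Tau555
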